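import Pool.Agent.helper18.CWM.SpecA
import Pool.Agent.helper23.CS.Defs
import Pool.Agent.helper23.CU.Spec

/-!
# Project co (MP_7c3fb3_pr): no cutoff in the coexistence phase, zero field, `d ≥ 2`.  Definitions.

Part A: finite ferromagnets (energy `CWM.HH K g`).  Part B: the torus.  Part C: block resampling.
-/

open Finset Filter Topology

namespace CO

section ferro
variable {V : Type} [Fintype V] [DecidableEq V]

/-- expectation of `f`, energy `HH K g` -/
noncomputable def ex (K : V → V → ℝ) (g : V → ℝ) (f : (V → Bool) → ℝ) : ℝ :=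
  (∑ σ : V → Bool, Real.exp (CWM.HH K g σ) * f σ) / ∑ σ : V → Bool, Real.exp (CWM.HH K g σ)

/-- two point function -/
noncomputable def c2 (K : V → V → ℝ) (g : V → ℝ) (x y : V) : ℝ := ex K g fun σ => CU.sg (σ x) * CU.sg (σ y)

/-- configurations equal to plus on `A` -/
def pl (A : Finset V) : Finset (V → Bool) := univ.filter fun σ => ∀ x ∈ A, σ x = true

/-- probability that all spins of `A` are plus -/
noncomputable def pr (K : V → V → ℝ) (g : V → ℝ) (A : Finset V) : ℝ :=
  (∑ σ ∈ pl A, Real.exp (CWM.HH K g σ)) / ∑ σ : V → Bool, Real.exp (CWM.HH K g σ)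

/-- conditional expectation given plus on `A` -/
noncomputable def exA (K : V → V → ℝ) (g : V → ℝ) (A : Finset V) (f : (V → Bool) → ℝ) : ℝ :=
  (∑ σ ∈ pl A, Real.exp (CWM.HH K g σ) * f σ) / ∑ σ ∈ pl A, Real.exp (CWM.HH K g σ)

/-! general positive weights -/

/-- average with the weight `w` -/
noncomputable def aw (w : (V → Bool) → ℝ) (f : (V → Bool) → ℝ) : ℝ := (∑ σ : V → Bool, w σ * f σ) / ∑ σ : V → Bool, w σ

/-- configurations equal to `σ` on `A` -/
def fb (A : Finset V) (σ : V → Bool) : Finset (V → Bool) := univ.filter fun η => ∀ x ∈ A, η x = σ x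

/-- probability, under the weight `w`, of the configuration `σ` on `A` -/
noncomputable def ma (w : (V → Bool) → ℝ) (A : Finset V) (σ : V → Bool) : ℝ := (∑ η ∈ fb A σ, w η) / ∑ η : V → Bool, w η

/-- conditional expectation given `σ` on `A` -/
noncomputable def ca (w : (V → Bool) → ℝ) (A : Finset V) (f : (V → Bool) → ℝ) (σ : V → Bool) : ℝ :=
  (∑ η ∈ fb A σ, w η * f η) / ∑ η ∈ fb A σ, w η

/-- positive weights, `P` below `Q` -/
def Hol (P Q : (V → Bool) → ℝ) : Prop := (∀ σ, 0 < P σ) ∧ (∀ σ, 0 < Q σ) ∧ ∀ σ τ, P σ * Q τ ≤ P (σ ⊓ τ) * Q (σ ⊔ τ)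

/-- density of `P` with respect to `Q` on `A` -/
noncomputable def dn (P Q : (V → Bool) → ℝ) (A : Finset V) (σ : V → Bool) : ℝ := ma P A σ / ma Q A σ

end ferro

section torus
open CU
variable {d n : ℕ} [NeZero n]

/-- couplings of the torus: nearest neighbour coupling `b`, translation invariant coupling `J` -/
noncomputable def KT (b : ℝ) (J : Site d n → ℝ) (x y : Site d n) : ℝ :=
  b * (∑ i : Fin d, if y = x + ev i then (1 : ℝ) else 0) + J (y - x)

/-- two point function of `0` and `x` in the torus: coupling `b`, extra coupling `J`, uniform field `h` -/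
noncomputable def cT (b : ℝ) (J : Site d n → ℝ) (h : ℝ) (x : Site d n) : ℝ := c2 (KT b J) (fun _ => h) 0 x

/-- magnetisation of the torus in the field `h` -/
noncomputable def mT (d n : ℕ) [NeZero n] (b h : ℝ) : ℝ :=
  ex (KT b fun _ => 0) (fun _ => h) fun σ : Conf d n => sg (σ 0)

/-- `l^1` norm on the torus -/
def nrm (x : Site d n) : ℝ := ∑ k, (((x k).valMinAbs.natAbs : ℕ) : ℝ)

/-- nearest neighbour energy -/
noncomputable def HN (σ : Conf d n) : ℝ := ∑ x : Site d n, ∑ i : Fin d, sg (σ x) * sg (σ (x + ev i))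

/-- quadratic form of the kernel `k`, per site -/
noncomputable def Qf (k : Site d n → ℝ) (σ : Conf d n) : ℝ :=
  (∑ x : Site d n, ∑ y : Site d n, k (y - x) * (sg (σ x) * sg (σ y))) / (Fintype.card (Site d n) : ℝ)

/-- the perturbation `n^(d-1) (a Q_k + s m_T^2)` -/
noncomputable def Yk (k : Site d n → ℝ) (a s : ℝ) (σ : Conf d n) : ℝ :=
  (n : ℝ) ^ (d - 1) * (a * Qf k σ + s * (Mg σ / (Fintype.card (Site d n) : ℝ)) ^ 2)

/-- the slab over `I` (first coordinate in `I`) -/
def slab (hd : 0 < d) (I : Finset (ZMod n)) : Finset (Site d n) := univ.filter fun x => x ⟨0, hd⟩ ∈ I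

/-- average over the slab -/
noncomputable def mI (hd : 0 < d) (I : Finset (ZMod n)) (σ : Conf d n) : ℝ :=
  (∑ x ∈ slab hd I, sg (σ x)) / ((slab hd I).card : ℝ)

/-- number of right boundary points of `I` -/
def bdI (I : Finset (ZMod n)) : ℕ := (I.filter fun u => u + 1 ∉ I).card

/-- spontaneous magnetisation -/
noncomputable def ms (d : ℕ) (b : ℝ) : ℝ := ⨅ L : ℕ, CS.ML d b L

/-- left-continuity of the spontaneous magnetisation at `β` -/
def LC (d : ℕ) (β : ℝ) : Prop := ∀ ε : ℝ, 0 < ε → ∃ β' : ℝ, 0 ≤ β' ∧ β' < β ∧ ms d β - ε ≤ ms d β'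

/-! block resampling -/

/-- configurations equal to `σ` off `R` -/
def fo (R : Finset (Site d n)) (σ : Conf d n) : Finset (Conf d n) := univ.filter fun η => ∀ x, x ∉ R → η x = σ x

/-- resampling of the block `R` -/
noncomputable def ER (β : ℝ) (R : Finset (Site d n)) (f : Conf d n → ℝ) (σ : Conf d n) : ℝ :=
  (∑ η ∈ fo R σ, W β η * f η) / ∑ η ∈ fo R σ, W β η

/-- pointwise Poincare inequality in `R` with constant `C` -/
def Poi (β : ℝ) (R : Finset (Site d n)) (C : ℝ) : Prop := ∀ (f : Conf d n → ℝ) (σ : Conf d n),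
  ER β R (fun η => (f η - ER β R f η) ^ 2) σ ≤ C * ∑ x ∈ R, ER β R (fun η => (f η - Kx β x f η) ^ 2) σ

/-- the walls at offset `o`: `K` equidistant positions `j r + o` -/
def wal (n K r o : ℕ) [NeZero n] : Finset (ZMod n) := univ.filter fun u => u.val < K * r ∧ u.val % r = o

/-- the density `P^s(·, plus) / π(plus)` -/
noncomputable def Fs (β : ℝ) (s : ℕ) (σ : Conf d n) : ℝ :=
  (∑ η : Conf d n, W β η) * (Pf β)^[s] (({plus} : Set (Conf d n)).indicator fun _ => 1) σ

end torus

end CO
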