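import Pool.Agent.helper23.CO.SpecC

open Finset Filter Topology

namespace CO

open CU

section NEB_sec

variable {d n : ℕ} [NeZero n]

lemma NEB_W_pos (β : ℝ) (σ : Conf d n) : 0 < W β σ := Real.exp_pos _

lemma NEB_Kx_abs (β : ℝ) {f : Conf d n → ℝ} {B : ℝ} (hf : ∀ σ, |f σ| ≤ B) (x : Site d n) (σ : Conf d n) :
    |Kx β x f σ| ≤ B := by
  unfold Kx
  have h1 := NEB_W_pos β (Function.update σ x true)
  have h2 := NEB_W_pos β (Function.update σ x false)
  rw [abs_div, abs_of_pos (by linarith : 0 < W β (Function.update σ x true) + W β (Function.update σ x false)),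
    div_le_iff₀ (by linarith)]
  refine (abs_add_le _ _).trans ?_
  rw [abs_mul, abs_mul, abs_of_pos h1, abs_of_pos h2]
  nlinarith [mul_le_mul_of_nonneg_left (hf (Function.update σ x true)) h1.le,
    mul_le_mul_of_nonneg_left (hf (Function.update σ x false)) h2.le]

lemma NEB_Pf_abs (β : ℝ) {f : Conf d n → ℝ} {B : ℝ} (hf : ∀ σ, |f σ| ≤ B) (σ : Conf d n) :
    |Pf β f σ| ≤ B := by
  unfold Pf
  have hN : (0 : ℝ) < (Fintype.card (Site d n) : ℝ) := by exact_mod_cast Fintype.card_pos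
  rw [abs_div, abs_of_pos hN, div_le_iff₀ hN]
  refine (Finset.abs_sum_le_sum_abs _ _).trans ?_
  refine (Finset.sum_le_sum fun x _ => NEB_Kx_abs β hf x σ).trans ?_
  rw [Finset.sum_const, nsmul_eq_mul, Finset.card_univ, mul_comm]

lemma NEB_gs_abs (β : ℝ) (s : ℕ) (σ : Conf d n) : |gs β s σ| ≤ (Fintype.card (Site d n) : ℝ) := by
  unfold gs
  induction s generalizing σ with
  | zero =>
    simp only [Function.iterate_zero, id_eq]
    unfold Mg
    refine (Finset.abs_sum_le_sum_abs _ _).trans ?_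
    have h : ∀ x ∈ (univ : Finset (Site d n)), |sg (σ x)| ≤ (1 : ℝ) := by
      intro x _
      unfold sg
      split <;> simp
    refine (Finset.sum_le_sum h).trans ?_
    rw [Finset.sum_const, nsmul_eq_mul, Finset.card_univ, mul_one]
  | succ s ih =>
    rw [Function.iterate_succ_apply']
    exact NEB_Pf_abs β ih σ

lemma NEB_ER_sum {ι : Type} (β : ℝ) (R : Finset (Site d n)) (s : Finset ι) (F : ι → Conf d n → ℝ) (σ : Conf d n) :
    ER β R (fun η => ∑ i ∈ s, F i η) σ = ∑ i ∈ s, ER β R (F i) σ := by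
  unfold ER
  rw [← Finset.sum_div]
  congr 1
  rw [Finset.sum_comm]
  exact Finset.sum_congr rfl fun η _ => Finset.mul_sum _ _ _

lemma NEB_ER_smul (β : ℝ) (R : Finset (Site d n)) (c : ℝ) (f : Conf d n → ℝ) (σ : Conf d n) :
    ER β R (fun η => f η * c) σ = ER β R f σ * c := by
  unfold ER
  rw [div_mul_eq_mul_div, Finset.sum_mul]
  congr 1
  exact Finset.sum_congr rfl fun η _ => by ring

lemma NEB_Ex_sum {ι : Type} (β : ℝ) (s : Finset ι) (F : ι → Conf d n → ℝ) :
    Ex β (fun η => ∑ i ∈ s, F i η) = ∑ i ∈ s, Ex β (F i) := by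
  unfold Ex
  rw [← Finset.sum_div]
  congr 1
  rw [Finset.sum_comm]
  exact Finset.sum_congr rfl fun η _ => Finset.mul_sum _ _ _

end NEB_sec

theorem NEB (hERA : ERA_stmt) (hERT : ERT_stmt) (hDIR : DIR_stmt) (hUVB : UVB_stmt) (hGDP : GDP_stmt) (hGDS : GDS_stmt)
    (hNRA : NRA_stmt) (hWLA : WLA_stmt) (hWLC : WLC_stmt) (hSLC : SLC_stmt) (hLIN : CU.LIN_stmt) : NEB_stmt := by
  intro d n K s _ hd β m κ p0 h2 hβ hK hKn hκ h3 hm1 hM h1 h2' hA hp hw
  obtain ⟨hwc, hpp, hPne, hPn, hdisj, hi2c, -, -, -, -⟩ := hWLA n K hK hKn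
  have hn3 : 3 ≤ n := by omega
  have hnpos : (1 : ℝ) ≤ n := by exact_mod_cast (by omega : 1 ≤ n)
  set N : ℝ := (Fintype.card (Site d n) : ℝ) with hN
  have hNpos : 0 < N := by rw [hN]; exact_mod_cast Fintype.card_pos
  set S : Finset (Site d n) := slab hd (isl n K) with hS
  set Wp : ℕ → Finset (Site d n) := fun p => slab hd (wal n K (n / K) p) with hWp
  set w0 : ℕ := K * n ^ (d - 1) with hw0
  set f : Conf d n → ℝ := gs β s with hf
  set Φ : Conf d n → ℝ := fun σ => ∑ p ∈ ppo n K, ER β S (fun η => |ER β S f η - ER β (univ \ Wp p) f η|) σ with hΦ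
  set G : Set (Conf d n) := {σ | m - 3 * κ ≤ ER β S (mI hd (i2l n K)) σ} with hG
  set E : ℝ := Real.exp (24 * (1 + Real.exp (4 * d * β)) * κ * K * (n : ℝ) ^ (d - 1) + 2) with hE
  obtain ⟨hPoiS, hPoiW⟩ := hWLC d n K hd β h2 hβ hK hKn
  have hcW : 0 ≤ cW d n β K := by unfold cW; positivity
  have hslc := hSLC d n hd
  -- the sum of the magnetisations over the middle walls
  have hkey : ∀ η ∈ G, (m - 3 * κ) * ((ppo n K).card * w0) ≤
      ∑ p ∈ ppo n K, ∑ x ∈ Wp p, ER β S (fun σ => sg (σ x)) η := by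
    intro η hη
    have hη' : m - 3 * κ ≤ ER β S (mI hd (i2l n K)) η := hη
    have e1 : ∀ σ : Conf d n, mI hd (i2l n K) σ * ((((ppo n K).card * w0 : ℕ)) : ℝ) =
        ∑ p ∈ ppo n K, ∑ x ∈ Wp p, sg (σ x) := by
      intro σ
      have := hslc.2.2 (ppo n K) (fun o => wal n K (n / K) o) hdisj σ
      have h4 : (((ppo n K).biUnion fun o => wal n K (n / K) o).card : ℝ) = ((ppo n K).card * K : ℕ) := by
        exact_mod_cast congrArg (Nat.cast : ℕ → ℝ) hi2c
      rw [h4] at this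
      unfold i2l
      rw [← this]
      congr 1
      rw [hw0]
      push_cast
      ring
    have e2 : ER β S (mI hd (i2l n K)) η * ((((ppo n K).card * w0 : ℕ)) : ℝ) =
        ∑ p ∈ ppo n K, ∑ x ∈ Wp p, ER β S (fun σ => sg (σ x)) η := by
      rw [← NEB_ER_smul]
      have : (fun η : Conf d n => mI hd (i2l n K) η * ((((ppo n K).card * w0 : ℕ)) : ℝ)) =
          fun η => ∑ p ∈ ppo n K, ∑ x ∈ Wp p, sg (η x) := funext e1
      rw [this, NEB_ER_sum]
      exact Finset.sum_congr rfl fun p _ => NEB_ER_sum β S (Wp p) (fun x σ => sg (σ x)) η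
    rw [← e2]
    have h5 : (0 : ℝ) ≤ (((ppo n K).card * w0 : ℕ) : ℝ) := Nat.cast_nonneg _
    have := mul_le_mul_of_nonneg_right hη' h5
    push_cast at this ⊢
    exact this
  -- two good configurations
  have hX0 : 0 ≤ 4 * E := by positivity
  have hGG : ∀ η₁ ∈ G, ∀ η₂ ∈ G, |ER β S f η₁ - ER β S f η₂| ≤ 4 * E * (Φ η₁ + Φ η₂) := by
    intro η₁ h₁ η₂ h₂
    have hw1 : 1 ≤ w0 := Nat.mul_pos hK (pow_pos (by omega) _)
    have := hGDP d n hn3 β m κ S (ppo n K) Wp w0 f η₁ η₂ hβ hκ hPne hw1 ?_ ?_ (hkey η₁ h₁) (hkey η₂ h₂)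
    · have e : 2 * ((1 + Real.exp (4 * d * β)) * (12 * κ * (w0 : ℝ))) + 2 =
          24 * (1 + Real.exp (4 * d * β)) * κ * K * (n : ℝ) ^ (d - 1) + 2 := by
        rw [hw0]; push_cast; ring
      rw [e] at this
      exact this
    · intro p hp'
      obtain ⟨-, hlt, hsub⟩ := hpp p hp'
      refine ⟨?_, ?_⟩
      · intro x hx
        simp only [hWp, slab, Finset.mem_filter, Finset.mem_univ, true_and] at hx
        simp only [hS, slab, Finset.mem_filter, Finset.mem_univ, true_and]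
        exact hsub hx
      · show (slab hd (wal n K (n / K) p) : Finset (Site d n)).card = w0
        rw [hslc.1, hwc p hlt]
    · intro p hp' x hx
      apply hw
      simp only [hWp, slab, Finset.mem_filter, Finset.mem_univ, true_and] at hx
      simp only [slab, Finset.mem_filter, Finset.mem_univ, true_and]
      exact Finset.mem_biUnion.2 ⟨p, hp', hx⟩
  have hΦ0 : ∀ σ, 0 ≤ Φ σ := by
    intro σ
    refine Finset.sum_nonneg fun p _ => ?_
    unfold ER
    refine div_nonneg (Finset.sum_nonneg fun η _ => mul_nonneg (NEB_W_pos β η).le (abs_nonneg _))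
      (Finset.sum_nonneg fun η _ => (NEB_W_pos β η).le)
  -- the Dirichlet form
  set T : ℝ := √(cW d n β K * (N ^ 3 / (2 * s + 1))) with hT
  have hT0 : 0 ≤ T := Real.sqrt_nonneg _
  have hTle : √(cW d n β K * ∑ x : Site d n, Ex β (fun σ => (f σ - Kx β x f σ) ^ 2)) ≤ T := by
    apply Real.sqrt_le_sqrt
    exact mul_le_mul_of_nonneg_left (hDIR d n β s) hcW
  have hR : ∀ p ∈ ppo n K, Ex β (fun σ => |f σ - ER β S f σ|) ≤ T ∧
      Ex β (fun σ => |ER β S f σ - ER β (univ \ Wp p) f σ|) ≤ 2 * T := by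
    intro p hp'
    have := hUVB d n β (cW d n β K) S (univ \ Wp p) f hcW hPoiS (hPoiW p (hpp p hp').2.1)
    exact ⟨this.1.trans hTle, this.2.trans (by linarith)⟩
  have hf1 : Ex β (fun σ => |f σ - ER β S f σ|) ≤ T := by
    obtain ⟨p, hp'⟩ := hPne
    exact (hR p hp').1
  have hEΦ : Ex β Φ ≤ n * (2 * T) := by
    have e1 : Ex β Φ = ∑ p ∈ ppo n K, Ex β (fun σ => |ER β S f σ - ER β (univ \ Wp p) f σ|) := by
      rw [hΦ, NEB_Ex_sum]
      refine Finset.sum_congr rfl fun p _ => ?_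
      exact (hERT d n β S (fun σ => |ER β S f σ - ER β (univ \ Wp p) f σ|) (fun _ => 0)).2.2.1
    rw [e1]
    refine (Finset.sum_le_sum fun p hp' => (hR p hp').2).trans ?_
    rw [Finset.sum_const, nsmul_eq_mul]
    exact mul_le_mul_of_nonneg_right (by exact_mod_cast hPn) (by linarith)
  -- the exceptional set
  have hAG : PrE β ({σ : Conf d n | 2 ≤ Mg σ} \ G) ≤ (3 + 6 / κ) * p0 := by
    refine le_trans ?_ (hGDS d n hd β m κ p0 (isl n K) (i2l n K) hκ h3 hm1 hM h1 h2')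
    unfold PrE
    refine (hLIN d n β _ _ 0 0 0).2.2.2.1 fun σ => ?_
    by_cases hσ : σ ∈ ({σ : Conf d n | 2 ≤ Mg σ} \ G)
    · rw [Set.indicator_of_mem hσ]
      have : σ ∈ {σ : Conf d n | 0 < Mg σ ∧ ER β (slab hd (isl n K)) (mI hd (i2l n K)) σ < m - 3 * κ} := by
        refine ⟨?_, ?_⟩
        · have : 2 ≤ Mg σ := hσ.1
          linarith
        · have h6 : ¬ (m - 3 * κ ≤ ER β S (mI hd (i2l n K)) σ) := hσ.2
          exact not_le.1 h6
      rw [Set.indicator_of_mem this]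
    · rw [Set.indicator_of_notMem hσ]
      exact Set.indicator_nonneg (fun _ _ => zero_le_one) σ
  obtain ⟨a, ha, hfin⟩ := hNRA d n β (4 * E) N ((3 + 6 / κ) * p0) S {σ : Conf d n | 2 ≤ Mg σ} G f Φ hX0
    (fun σ => NEB_gs_abs β s σ) hΦ0 hA hAG hp hGG
  refine ⟨a, ha, hfin.trans ?_⟩
  have hE1 : 1 ≤ E := by
    rw [hE]
    apply Real.one_le_exp
    positivity
  have h7 : T ≤ E * n * T := by
    have : 1 ≤ E * n := by nlinarith
    nlinarith
  have h8 : 5 * (4 * E) * Ex β Φ ≤ 40 * (E * n * T) := by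
    have := mul_le_mul_of_nonneg_left hEΦ (by positivity : 0 ≤ 5 * (4 * E))
    calc 5 * (4 * E) * Ex β Φ ≤ 5 * (4 * E) * (n * (2 * T)) := this
      _ = 40 * (E * n * T) := by ring
  have h9 : 41 * E * n * T = E * n * T + 40 * (E * n * T) := by ring
  rw [h9]
  linarith

end CO
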