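import Pool.Agent.helper23.CO.SpecC
import Pool.Agent.helper23.CO.NEB
import Pool.Agent.helper90.CU.FK
import Pool.Agent.helper89.CU.PM

open Finset Filter Topology

namespace CO

open CU

section HYA_sec

variable {d n : ℕ} [NeZero n]

lemma HYA_Z (β : ℝ) : 0 < ∑ σ : Conf d n, W β σ :=
  Finset.sum_pos (fun σ _ => NEB_W_pos β σ) ⟨plus, Finset.mem_univ _⟩

/-- Cauchy-Schwarz -/
lemma HYA_CS (β : ℝ) (f g : Conf d n → ℝ) :
    (Ex β fun σ => f σ * g σ) ^ 2 ≤ (Ex β fun σ => f σ ^ 2) * Ex β fun σ => g σ ^ 2 := by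
  have hZ := HYA_Z (d := d) (n := n) β
  unfold Ex
  rw [div_pow, div_mul_div_comm, ← pow_two]
  apply div_le_div_of_nonneg_right _ (by positivity)
  have h := Finset.sum_mul_sq_le_sq_mul_sq (univ : Finset (Conf d n)) (fun σ => √(W β σ) * f σ) (fun σ => √(W β σ) * g σ)
  have e : ∀ σ : Conf d n, √(W β σ) * √(W β σ) = W β σ := fun σ => Real.mul_self_sqrt (NEB_W_pos β σ).le
  have e1 : ∀ σ : Conf d n, √(W β σ) * f σ * (√(W β σ) * g σ) = W β σ * (f σ * g σ) := by
    intro σ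
    calc √(W β σ) * f σ * (√(W β σ) * g σ) = √(W β σ) * √(W β σ) * (f σ * g σ) := by ring
      _ = _ := by rw [e]
  have e2 : ∀ (f : Conf d n → ℝ) (σ : Conf d n), (√(W β σ) * f σ) ^ 2 = W β σ * f σ ^ 2 := by
    intro f σ
    calc (√(W β σ) * f σ) ^ 2 = √(W β σ) * √(W β σ) * f σ ^ 2 := by ring
      _ = _ := by rw [e]
  simp only [e1, e2] at h
  exact h

/-- FKG -/
lemma HYA_fkg {β : ℝ} (hβ : 0 ≤ β) (f g : Conf d n → ℝ) (hf0 : ∀ σ, 0 ≤ f σ) (hg0 : ∀ σ, 0 ≤ g σ) (hf : Monotone f)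
    (hg : Monotone g) : Ex β f * Ex β g ≤ Ex β fun σ => f σ * g σ := by
  have hZ := HYA_Z (d := d) (n := n) β
  have h := fkg f g (W β : Conf d n → ℝ) (fun σ => (NEB_W_pos β σ).le) (fun σ => hf0 σ) (fun σ => hg0 σ) hf hg
    (fun a b => FK_W β hβ a b)
  unfold Ex
  rw [div_mul_div_comm, div_le_div_iff₀ (by positivity) hZ]
  calc (∑ σ, W β σ * f σ) * (∑ σ, W β σ * g σ) * ∑ σ, W β σ
      ≤ ((∑ σ, W β σ) * ∑ σ, W β σ * (f σ * g σ)) * ∑ σ, W β σ := mul_le_mul_of_nonneg_right h hZ.le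
    _ = _ := by ring

lemma HYA_sg (b : Bool) : -1 ≤ sg b ∧ sg b ≤ 1 := by cases b <;> simp [sg]

lemma HYA_Mg_flip (σ : Conf d n) : Mg (flipc σ) = -Mg σ := by
  unfold Mg flipc
  rw [← Finset.sum_neg_distrib]
  refine Finset.sum_congr rfl fun x _ => ?_
  cases σ x <;> simp [sg]

lemma HYA_Mg_upd (σ : Conf d n) (x : Site d n) (b : Bool) : Mg σ - 2 ≤ Mg (Function.update σ x b) := by
  unfold Mg
  rw [← Finset.add_sum_erase _ _ (Finset.mem_univ x), ← Finset.add_sum_erase (univ : Finset (Site d n)) (fun y => sg (Function.update σ x b y)) (Finset.mem_univ x)]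
  have h : ∑ y ∈ univ.erase x, sg (Function.update σ x b y) = ∑ y ∈ univ.erase x, sg (σ y) :=
    Finset.sum_congr rfl fun y hy => by rw [Function.update_of_ne (Finset.ne_of_mem_erase hy)]
  rw [h, Function.update_self]
  have h1 := HYA_sg (σ x)
  have h2 := HYA_sg b
  linarith [h1.1, h1.2, h2.1, h2.2]

end HYA_sec

theorem HYA (hBT : CU.BT_stmt) (hMON : CU.MON_stmt) (hREV : CU.REV_stmt) (hLIN : CU.LIN_stmt) (hFLP : CU.FLP_stmt)
    (hFSA : FSA_stmt) (hERM : ERM_stmt) : HYA_stmt := by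
  intro d n _ hn β a E1 F2 ζ s hβ hs ha hζ hζ5 hF2 hE1 hb1 hb2
  set N : ℝ := (Fintype.card (Site d n) : ℝ) with hN
  have hNpos : 0 < N := by rw [hN]; exact_mod_cast Fintype.card_pos
  set A : Set (Conf d n) := {σ : Conf d n | 2 ≤ Mg σ} with hA
  set iA : Conf d n → ℝ := A.indicator (fun _ => 1) with hiA
  set g : Conf d n → ℝ := gs β s with hg
  have hcst : ∀ (t : ℕ) (c : ℝ), (Pf β)^[t] (fun _ : Conf d n => c) = fun _ => c := fun t => (hREV d n β g g t).2
  have lin : ∀ (f g : Conf d n → ℝ) (a b : ℝ) (t : ℕ), (Pf β)^[t] (fun σ => a * f σ + b * g σ) =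
      fun σ => a * (Pf β)^[t] f σ + b * (Pf β)^[t] g σ := fun f g a b t => (hLIN d n β f g a b t).1
  have pmono : ∀ (f g : Conf d n → ℝ) (t : ℕ), (∀ σ, f σ ≤ g σ) → ∀ σ, (Pf β)^[t] f σ ≤ (Pf β)^[t] g σ :=
    fun f g t => (hLIN d n β f g 0 0 t).2.1
  have elin : ∀ (f g : Conf d n → ℝ) (a b : ℝ), Ex β (fun σ => a * f σ + b * g σ) = a * Ex β f + b * Ex β g :=
    fun f g a b => (hLIN d n β f g a b 0).2.2.1
  have emono : ∀ (f g : Conf d n → ℝ), (∀ σ, f σ ≤ g σ) → Ex β f ≤ Ex β g := fun f g => (hLIN d n β f g 0 0 0).2.2.2.1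
  have ecst : ∀ c : ℝ, Ex β (fun _ : Conf d n => c) = c := fun c => (hLIN d n β g g c 0 0).2.2.2.2
  have eflip : ∀ f : Conf d n → ℝ, Ex β (fun σ => f (flipc σ)) = Ex β f := fun f => (hFLP d n β f 0).2.1
  have godd : ∀ σ, g (flipc σ) = -g σ := fun σ => (hFLP d n β g 0).2.2 s σ
  have gabs : ∀ σ, |g σ| ≤ N := fun σ => NEB_gs_abs β s σ
  have gmono : Monotone g := (hMON d n hn β hβ Mg PM_Mg).2 s
  -- the indicator
  have iA01 : ∀ σ, iA σ = 0 ∨ iA σ = 1 := by
    intro σ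
    by_cases hσ : σ ∈ A
    · right; rw [hiA, Set.indicator_of_mem hσ]
    · left; rw [hiA, Set.indicator_of_notMem hσ]
  have iA0 : ∀ σ, 0 ≤ iA σ := fun σ => by rcases iA01 σ with h | h <;> rw [h]; exact zero_le_one
  have iA1 : ∀ σ, iA σ ≤ 1 := fun σ => by rcases iA01 σ with h | h <;> rw [h]; exact zero_le_one
  have iAmono : Monotone iA := by
    intro σ τ hστ
    by_cases hσ : σ ∈ A
    · have hτ : τ ∈ A := le_trans (show (2 : ℝ) ≤ Mg σ from hσ) (PM_Mg hστ)
      rw [hiA, Set.indicator_of_mem hσ, Set.indicator_of_mem hτ]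
    · rw [hiA, Set.indicator_of_notMem hσ]
      exact iA0 τ
  have hpA : PrE β A = Ex β iA := rfl
  have hcond1 : ∀ σ ∈ A, flipc σ ∉ A := by
    intro σ hσ hc
    have h1 : (2 : ℝ) ≤ Mg σ := hσ
    have h2 : (2 : ℝ) ≤ Mg (flipc σ) := hc
    rw [HYA_Mg_flip] at h2
    linarith
  have hcond2 : ∀ σ ∈ A, ∀ x b, flipc (Function.update σ x b) ∉ A := by
    intro σ hσ x b hc
    have h1 : (2 : ℝ) ≤ Mg σ := hσ
    have h2 : (2 : ℝ) ≤ Mg (flipc (Function.update σ x b)) := hc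
    rw [HYA_Mg_flip] at h2
    have := HYA_Mg_upd σ x b
    linarith
  have hsum1 : ∀ σ, iA σ + iA (flipc σ) ≤ 1 := by
    intro σ
    by_cases hσ : σ ∈ A
    · have : iA (flipc σ) = 0 := by rw [hiA, Set.indicator_of_notMem (hcond1 σ hσ)]
      rw [this]; linarith [iA1 σ]
    · have : iA σ = 0 := by rw [hiA, Set.indicator_of_notMem hσ]
      rw [this]; linarith [iA1 (flipc σ)]
  have hζ0 : 0 ≤ ζ := by
    have h1 := emono (fun σ => 1 * iA σ + 1 * iA (flipc σ)) (fun _ => 1) (fun σ => by linarith [hsum1 σ])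
    rw [elin iA (fun σ => iA (flipc σ)) 1 1, eflip iA, ecst] at h1
    rw [hζ, hpA]; linarith
  have hpA2 : Ex β iA = (1 - ζ) / 2 := by rw [hζ, hpA]; ring
  have hE0 : 0 ≤ E1 := by
    refine le_trans ?_ hE1
    have := emono (fun _ => 0) (fun σ => iA σ * |g σ - a|) (fun σ => mul_nonneg (iA0 σ) (abs_nonneg _))
    rwa [ecst] at this
  -- (i)
  have hg0 : Ex β g = 0 := by
    have h1 := eflip g
    have h2 : (fun σ => g (flipc σ)) = fun σ => (-1) * g σ + 0 * g σ := by funext σ; rw [godd]; ring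
    rw [h2, elin] at h1
    linarith
  have hiAg : 0 ≤ Ex β fun σ => iA σ * g σ := by
    have h1 := HYA_fkg hβ iA (fun σ => g σ + N) iA0 (fun σ => by linarith [neg_abs_le (g σ), gabs σ]) iAmono
      (fun σ τ h => by simpa using gmono h)
    have h2 : Ex β (fun σ => g σ + N) = N := by
      have h3 : (fun σ => g σ + N) = fun σ => 1 * g σ + 1 * (fun _ : Conf d n => N) σ := by funext σ; ring
      rw [h3, elin, hg0, ecst]; ring
    have h4 : Ex β (fun σ => iA σ * (g σ + N)) = Ex β (fun σ => iA σ * g σ) + N * Ex β iA := by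
      have h3 : (fun σ => iA σ * (g σ + N)) = fun σ => 1 * (fun σ => iA σ * g σ) σ + N * iA σ := by funext σ; ring
      rw [h3, elin]; ring
    rw [h2, h4] at h1
    linarith
  have hlow : a * Ex β iA - E1 ≤ Ex β fun σ => iA σ * g σ := by
    have h1 := emono (fun σ => a * iA σ + (-1) * (iA σ * |g σ - a|)) (fun σ => iA σ * g σ) (fun σ => by
      have h2 : a - |g σ - a| ≤ g σ := by linarith [neg_abs_le (g σ - a)]
      nlinarith [mul_le_mul_of_nonneg_left h2 (iA0 σ)])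
    rw [elin iA (fun σ => iA σ * |g σ - a|)] at h1
    linarith
  have hupA : Ex β (fun σ => iA σ * g σ) ≤ a * Ex β iA + E1 := by
    have h1 := emono (fun σ => iA σ * g σ) (fun σ => a * iA σ + 1 * (iA σ * |g σ - a|)) (fun σ => by
      have h2 : g σ ≤ a + |g σ - a| := by linarith [le_abs_self (g σ - a)]
      nlinarith [mul_le_mul_of_nonneg_left h2 (iA0 σ)])
    rw [elin iA (fun σ => iA σ * |g σ - a|)] at h1
    linarith
  have haE : -(5 / 2) * E1 ≤ a := by
    by_contra hc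
    push Not at hc
    have h1 : a < 0 := by linarith
    have h2 : 2 / 5 ≤ Ex β iA := by rw [hpA2]; linarith
    nlinarith
  -- (ii)
  set G : Conf d n → ℝ := fun σ => max (g σ - a) 0 with hG
  have hG0 : ∀ σ, 0 ≤ G σ := fun σ => le_max_right _ _
  have hG2 : ∀ σ, G σ ≤ 2 * N := fun σ => by
    have := gabs σ
    exact max_le (by linarith [le_abs_self (g σ), neg_abs_le a]) (by linarith)
  have hGb : ∀ σ, G σ ≤ iA σ * |g σ - a| + (iA (flipc σ) * |g (flipc σ) - a| + 5 * E1 * iA (flipc σ)) +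
      2 * N * (1 - iA σ - iA (flipc σ)) := by
    intro σ
    have h1 := hsum1 σ
    rcases iA01 σ with h0 | h0 <;> rcases iA01 (flipc σ) with h2 | h2
    · rw [h0, h2]; linarith [hG2 σ]
    · rw [h0, h2, godd]
      have h3 : G σ ≤ |-g σ - a| + 5 * E1 := by
        refine max_le ?_ (by positivity)
        have h4 : -(-g σ - a) ≤ |-g σ - a| := neg_le_abs _
        linarith
      linarith
    · rw [h0, h2]
      have h3 : G σ ≤ |g σ - a| := max_le (le_abs_self _) (abs_nonneg _)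
      linarith
    · rw [h0, h2] at h1; norm_num at h1
  have hEG : Ex β G ≤ 7 * E1 + 2 * N * ζ := by
    have h1 := emono G _ hGb
    have h2 : (fun σ => iA σ * |g σ - a| + (iA (flipc σ) * |g (flipc σ) - a| + 5 * E1 * iA (flipc σ)) +
        2 * N * (1 - iA σ - iA (flipc σ))) = fun σ => 1 * (fun σ => 1 * (fun σ => iA σ * |g σ - a|) σ +
        1 * (fun σ => (fun σ => iA σ * |g σ - a|) (flipc σ)) σ) σ +
        1 * (fun σ => (5 * E1 - 2 * N) * (fun σ => iA (flipc σ)) σ + 1 * (fun σ => (-(2 * N)) * iA σ + 1 * (fun _ => 2 * N) σ) σ) σ := by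
      funext σ; ring
    rw [h2, elin, elin, elin, elin, eflip (fun σ => iA σ * |g σ - a|), eflip iA, ecst] at h1
    rw [hpA2] at h1
    nlinarith
  have hEG2 : Ex β (fun σ => G σ ^ 2) ≤ 2 * N * (7 * E1 + 2 * N * ζ) := by
    have h1 := emono (fun σ => G σ ^ 2) (fun σ => 2 * N * G σ + 0 * G σ) (fun σ => by
      nlinarith [mul_le_mul_of_nonneg_right (hG2 σ) (hG0 σ)])
    rw [elin] at h1
    nlinarith
  have hF0 : 0 ≤ Ex β fun σ : Conf d n => Fs β s σ ^ 2 := by
    have := emono (fun _ => 0) (fun σ => Fs β s σ ^ 2) (fun σ => sq_nonneg _)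
    rwa [ecst] at this
  have hG20 : 0 ≤ Ex β fun σ : Conf d n => G σ ^ 2 := by
    have := emono (fun _ => 0) (fun σ => G σ ^ 2) (fun σ => sq_nonneg _)
    rwa [ecst] at this
  -- (iii)
  obtain ⟨-, -, hFs⟩ := hFSA d n hn β s hβ
  have hPG : (Pf β)^[s] G plus ≤ √(F2 * (2 * N * (7 * E1 + 2 * N * ζ))) := by
    rw [← hFs G]
    apply Real.le_sqrt_of_sq_le
    refine (HYA_CS β (Fs β s) G).trans ?_
    exact mul_le_mul hF2 hEG2 hG20 (hF0.trans hF2)
  have hcomp : gs β (2 * s) = (Pf β)^[s] g := by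
    rw [hg]
    unfold gs
    rw [← Function.iterate_add_apply]
    congr 1
    congr 1
    ring
  have hup : gs β (2 * s) (plus : Conf d n) ≤ a + √(F2 * (2 * N * (7 * E1 + 2 * N * ζ))) := by
    rw [hcomp]
    have h1 := pmono g (fun σ => 1 * (fun _ => a) σ + 1 * G σ) s (fun σ => by
      have : g σ - a ≤ G σ := le_max_left _ _
      linarith) plus
    rw [lin, hcst] at h1
    linarith
  -- (iv)
  set b : Conf d n → ℝ := (Pf β)^[s] iA with hb
  have hb0 : ∀ σ, 0 ≤ b σ := by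
    intro σ
    have h1 := pmono (fun _ => 0) iA s iA0 σ
    rwa [hcst] at h1
  have hb1' : ∀ σ, b σ ≤ 1 := by
    intro σ
    have h1 := pmono iA (fun _ => 1) s iA1 σ
    rwa [hcst] at h1
  have hEb : Ex β b = Ex β iA := by
    have h1 := (hREV d n β (fun _ : Conf d n => (1 : ℝ)) iA s).1
    rw [hcst] at h1
    simpa using h1
  have hrev : Ex β (fun σ => iA σ * (Pf β)^[s] g σ) = Ex β fun σ => b σ * g σ := (hREV d n β iA g s).1
  have hbc : (Pf β)^[s] (Aᶜ.indicator fun _ => (1 : ℝ)) = fun σ : Conf d n => 1 - b σ := by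
    have h1 : (Aᶜ.indicator fun _ => (1 : ℝ)) = fun σ : Conf d n => 1 * (fun _ => (1 : ℝ)) σ + (-1) * iA σ := by
      funext σ
      by_cases hσ : σ ∈ A
      · rw [hiA, Set.indicator_of_mem hσ, Set.indicator_of_notMem (by simpa using hσ)]
        norm_num
      · rw [hiA, Set.indicator_of_notMem hσ, Set.indicator_of_mem (by simpa using hσ)]
        norm_num
    rw [h1, lin, hcst]
    funext σ
    simp only [hb]
    ring
  have hbt : Ex β (fun σ => iA σ * (1 - b σ)) ≤ s * ζ := by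
    have h1 := hBT d n β A hcond1 hcond2 s
    rw [hbc, ← hζ] at h1
    exact h1
  have hab : Ex β (fun σ => |b σ - iA σ|) ≤ 2 * (s * ζ) := by
    have h1 : (fun σ => |b σ - iA σ|) = fun σ => 1 * (fun σ => 1 * b σ + (-1) * iA σ) σ + 2 * (fun σ => iA σ * (1 - b σ)) σ := by
      funext σ
      show |b σ - iA σ| = 1 * (1 * b σ + (-1) * iA σ) + 2 * (iA σ * (1 - b σ))
      rcases iA01 σ with h | h
      · rw [h, sub_zero, abs_of_nonneg (hb0 σ)]; ring
      · rw [h, abs_of_nonpos (by linarith [hb1' σ])]; ring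
    rw [h1, elin, elin, hEb]
    linarith
  have hlow2 : Ex β (fun σ => iA σ * g σ) - N * (2 * (s * ζ)) ≤ Ex β fun σ => iA σ * gs β (2 * s) σ := by
    rw [hcomp, hrev]
    have h1 := emono (fun σ => 1 * (fun σ => iA σ * g σ) σ + (-N) * |b σ - iA σ|) (fun σ => b σ * g σ) (fun σ => by
      have h2 : -(N * |b σ - iA σ|) ≤ (b σ - iA σ) * g σ := by
        have h3 : |(b σ - iA σ) * g σ| ≤ |b σ - iA σ| * N := by
          rw [abs_mul]; exact mul_le_mul_of_nonneg_left (gabs σ) (abs_nonneg _)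
        linarith [neg_abs_le ((b σ - iA σ) * g σ)]
      simp only
      nlinarith)
    rw [elin] at h1
    have h4 : N * Ex β (fun σ => |b σ - iA σ|) ≤ N * (2 * (s * ζ)) := mul_le_mul_of_nonneg_left hab hNpos.le
    linarith
  refine ⟨by omega, hcond1, hcond2, ?_, ?_⟩
  · rw [← hζ]; push_cast; linarith
  · have haN : a * ζ ≤ N * ζ := mul_le_mul_of_nonneg_right ((le_abs_self a).trans ha) hζ0
    have h5 : a * Ex β iA = (a - a * ζ) / 2 := by rw [hpA2]; ring
    have h6 : Ex β (fun σ : Conf d n => A.indicator (fun _ => 1) σ * gs β (2 * s) σ) = Ex β fun σ => iA σ * gs β (2 * s) σ := rfl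
    rw [h6]
    nlinarith

end CO
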