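import Pool.Agent.helper23.CO.SpecB

open Finset Filter Topology

namespace CO

theorem LZ_low (X : Type) [Fintype X] [Nonempty X] (A B : X → ℝ) (t : ℝ) :
    t * ((∑ x, Real.exp (A x) * B x) / ∑ x, Real.exp (A x)) ≤
      Real.log (∑ x, Real.exp (A x + t * B x)) - Real.log (∑ x, Real.exp (A x)) := by
  have hZ : 0 < ∑ x, Real.exp (A x) := Finset.sum_pos (fun x _ => Real.exp_pos _) univ_nonempty
  obtain ⟨m, hm⟩ : ∃ m, m = (∑ x, Real.exp (A x) * B x) / ∑ x, Real.exp (A x) := ⟨_, rfl⟩
  have hmZ : m * ∑ x, Real.exp (A x) = ∑ x, Real.exp (A x) * B x := by rw [hm]; field_simp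
  rw [← hm]
  have h1 : Real.exp (t * m) * ∑ x, Real.exp (A x) ≤ ∑ x, Real.exp (A x + t * B x) := by
    have h2 : ∀ x, Real.exp (t * m) * (Real.exp (A x) + t * (Real.exp (A x) * B x) - t * m * Real.exp (A x)) ≤
        Real.exp (A x + t * B x) := by
      intro x
      have h3 := Real.add_one_le_exp (t * B x - t * m)
      have h4 : Real.exp (A x + t * B x) = Real.exp (t * m) * Real.exp (A x) * Real.exp (t * B x - t * m) := by
        rw [← Real.exp_add, ← Real.exp_add]; congr 1; ring
      rw [h4]
      have h5 := mul_le_mul_of_nonneg_left h3 (mul_pos (Real.exp_pos (t * m)) (Real.exp_pos (A x))).le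
      refine le_trans (le_of_eq ?_) h5
      ring
    calc _ = ∑ x, Real.exp (t * m) * (Real.exp (A x) + t * (Real.exp (A x) * B x) - t * m * Real.exp (A x)) := by
          rw [← Finset.mul_sum, Finset.sum_sub_distrib, Finset.sum_add_distrib, ← Finset.mul_sum, ← Finset.mul_sum, ← hmZ]
          ring
      _ ≤ _ := Finset.sum_le_sum fun x _ => h2 x
  have h5 := Real.log_le_log (by positivity) h1
  rw [Real.log_mul (Real.exp_pos _).ne' hZ.ne', Real.log_exp] at h5
  linarith

theorem LZ : LZ_stmt := by
  intro X _ _ A B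
  refine ⟨fun t => ?_, fun t ht => ⟨LZ_low X A B t, ?_⟩⟩
  · have hZ : 0 < ∑ x, Real.exp (A x + t * B x) := Finset.sum_pos (fun x _ => Real.exp_pos _) univ_nonempty
    have h1 : HasDerivAt (fun t : ℝ => ∑ x, Real.exp (A x + t * B x)) (∑ x, Real.exp (A x + t * B x) * B x) t := by
      refine HasDerivAt.fun_sum (u := univ) (A := fun x (t : ℝ) => Real.exp (A x + t * B x)) (A' := fun x => Real.exp (A x + t * B x) * B x) fun x _ => ?_
      have h2 : HasDerivAt (fun t : ℝ => A x + t * B x) (B x) t := by
        have h3 := ((hasDerivAt_id t).mul_const (B x)).const_add (A x)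
        rw [one_mul] at h3
        exact h3
      exact h2.exp
    exact h1.log hZ.ne'
  · have h1 := LZ_low X (fun x => A x + t * B x) B (-t)
    have h2 : (∑ x, Real.exp (A x + t * B x + -t * B x)) = ∑ x, Real.exp (A x) := by
      refine Finset.sum_congr rfl fun x _ => ?_
      congr 1; ring
    rw [h2] at h1
    linarith

end CO
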