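import Pool.Agent.helper42.CO.ERT

open Finset Filter Topology

namespace CO

open CU

theorem PDS_sum {d n : ℕ} [NeZero n] (β : ℝ) (R : Finset (Site d n)) {ι : Type} (s : Finset ι) (g : ι → Conf d n → ℝ)
    (σ : Conf d n) : ER β R (fun η => ∑ x ∈ s, g x η) σ = ∑ x ∈ s, ER β R (g x) σ := by
  unfold ER
  rw [← Finset.sum_div]
  congr 1
  rw [Finset.sum_comm]
  refine Finset.sum_congr rfl fun η _ => ?_
  rw [Finset.mul_sum]

theorem PDS (hERA : ERA_stmt) (hERK : ERK_stmt) (hBX2 : CU.BX2_stmt) : PDS_stmt := by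
  intro d n _ β R f hf
  have hERT := ERT hERA
  obtain ⟨emono, elin, ecst, einv, epull, ejen⟩ := hERA d n β R
  have hE : ∀ g : Conf d n → ℝ, ExD β R g = ER β R g plus := fun g => (hERK d n β g).2 R
  have hN : (0 : ℝ) < (Fintype.card (Site d n) : ℝ) := by exact_mod_cast Fintype.card_pos
  have hproj : ∀ x ∈ R, ER β R (fun η => Kx β x f η ^ 2) plus =
      ER β R (fun η => f η ^ 2) plus - ER β R (fun η => (f η - Kx β x f η) ^ 2) plus := by
    intro x hx
    have hk : ∀ (g : Conf d n → ℝ) (σ : Conf d n), Kx β x g σ = ER β {x} g σ := fun g => (hERK d n β g).1 x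
    have h1 := (hERT d n β {x} (fun η => Kx β x f η * f η) (fun η => f η)).1 R plus (by simpa using hx)
    have h2 : ∀ σ, ER β {x} (fun η => Kx β x f η * f η) σ = Kx β x f σ ^ 2 := by
      intro σ
      rw [(hERA d n β {x}).2.2.2.2.1 f (Kx β x f) σ (fun σ τ h => by
        rw [hk f, hk f]; exact (hERA d n β {x}).2.2.2.1 f σ τ h), ← hk f, pow_two]
    rw [show ER β {x} (fun η => Kx β x f η * f η) = fun σ => Kx β x f σ ^ 2 from funext h2] at h1
    have h4 : (fun η => (f η - Kx β x f η) ^ 2) =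
        fun η => 1 * (1 * f η ^ 2 + (-2) * (Kx β x f η * f η)) + 1 * (Kx β x f η ^ 2) := by funext η; ring
    have e1 := elin (fun η => f η ^ 2) (fun η => Kx β x f η * f η) 1 (-2) plus
    have e2 := elin (fun η => 1 * f η ^ 2 + (-2) * (Kx β x f η * f η)) (fun η => Kx β x f η ^ 2) 1 1 plus
    rw [h4, e2, e1, ← h1]
    ring
  have hout : ∀ x, x ∉ R → ∀ σ, Kx β x f σ = f σ := by
    intro x hx σ
    have h1 : ∀ b, f (Function.update σ x b) = f σ := by
      intro b
      rw [← hf (Function.update σ x b), ← hf σ]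
      congr 1
      funext y
      unfold CU.ext
      by_cases hy : y ∈ R
      · rw [if_pos hy, if_pos hy, Function.update_of_ne (fun h : y = x => hx (h ▸ hy))]
      · rw [if_neg hy, if_neg hy]
    unfold Kx
    rw [h1, h1, ← add_mul, mul_div_assoc, mul_comm, div_mul_cancel₀]
    have hp : 0 < W β (Function.update σ x true) + W β (Function.update σ x false) := by
      unfold W; positivity
    exact hp.ne'
  rw [hE, hE]
  have hRs : (∑ x ∈ R, ExD β R (fun σ => (f σ - Kx β x f σ) ^ 2)) = ∑ x ∈ R, ER β R (fun η => (f η - Kx β x f η) ^ 2) plus :=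
    Finset.sum_congr rfl fun x _ => hE _
  rw [hRs]
  have h5 : ER β R (fun σ => (PD β R f σ) ^ 2) plus ≤
      ER β R (fun σ => 1 / (Fintype.card (Site d n) : ℝ) * (∑ x, Kx β x f σ ^ 2) + 0 * (0 : ℝ)) plus := by
    refine emono _ _ _ fun η hη => ?_
    have h6 : CU.ext R η = η := by
      funext y
      unfold CU.ext
      by_cases hy : y ∈ R
      · rw [if_pos hy]
      · rw [if_neg hy]
        have h7 := (Finset.mem_filter.1 hη).2 y hy
        rw [h7]; rfl
    show (Pf β f (CU.ext R η)) ^ 2 ≤ _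
    rw [h6]
    unfold Pf
    rw [div_pow]
    have h8 := sq_sum_le_card_mul_sum_sq (s := (univ : Finset (Site d n))) (f := fun x => Kx β x f η)
    rw [Finset.card_univ] at h8
    rw [div_le_iff₀ (by positivity)]
    refine h8.trans (le_of_eq ?_)
    field_simp
    ring
  have h9 := elin (fun σ => ∑ x, Kx β x f σ ^ 2) (fun _ => 0) (1 / (Fintype.card (Site d n) : ℝ)) 0 plus
  rw [h9, PDS_sum] at h5
  have h10 : (∑ x : Site d n, ER β R (fun η => Kx β x f η ^ 2) plus) =
      (Fintype.card (Site d n) : ℝ) * ER β R (fun η => f η ^ 2) plus - ∑ x ∈ R, ER β R (fun η => (f η - Kx β x f η) ^ 2) plus := by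
    rw [← Finset.sum_add_sum_compl R]
    have ha : (∑ x ∈ R, ER β R (fun η => Kx β x f η ^ 2) plus) = ∑ x ∈ R, (ER β R (fun η => f η ^ 2) plus -
        ER β R (fun η => (f η - Kx β x f η) ^ 2) plus) := Finset.sum_congr rfl fun x hx => hproj x hx
    have hb : (∑ x ∈ Rᶜ, ER β R (fun η => Kx β x f η ^ 2) plus) = ∑ x ∈ Rᶜ, ER β R (fun η => f η ^ 2) plus := by
      refine Finset.sum_congr rfl fun x hx => ?_
      have hx' : x ∉ R := by simpa using hx
      rw [show (fun η => Kx β x f η ^ 2) = fun η => f η ^ 2 from funext fun η => by rw [hout x hx' η]]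
    rw [ha, hb, Finset.sum_sub_distrib]
    have hc : (∑ x ∈ R, ER β R (fun η => f η ^ 2) plus) + ∑ x ∈ Rᶜ, ER β R (fun η => f η ^ 2) plus =
        (Fintype.card (Site d n) : ℝ) * ER β R (fun η => f η ^ 2) plus := by
      rw [Finset.sum_add_sum_compl, Finset.sum_const, Finset.card_univ, nsmul_eq_mul]
    linarith
  rw [h10] at h5
  refine h5.trans (le_of_eq ?_)
  field_simp
  ring

end CO
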