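import Pool.Agent.helper23.CO.SpecC

open Finset Filter Topology

namespace CO

open CU

theorem RES (hMAN : MAN_stmt) (hMSP : MSP_stmt) (hCNT : CNT_stmt) (hVH : CU.VH_stmt) : RES_stmt := by
  intro d hd
  refine ⟨?_, hCNT d⟩
  rintro β₁ β h0 h1 ⟨μ, ν, hμ, hν, hne⟩ hLC
  obtain ⟨-, hmono, -, hpos⟩ := hMSP d
  have hm1 : 0 < ms d β₁ := hpos β₁ h0 (hVH d β₁ h0 μ ν hμ hν hne)
  exact hMAN d β hd (h0.trans h1.le) hLC (lt_of_lt_of_le hm1 (hmono β₁ β h0 h1.le))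

end CO
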