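import Pool.Agent.helper23.CO.SpecU
import Pool.Agent.helper23.CU.VF

open Finset Filter Topology

namespace CO

open CU

section ZBX_sec

variable {d n L : ℕ}

lemma ZBX_mem_Bl {β h : ℝ} {y : Site d (n + 3)} :
    y ∈ CWM.Bl (CWM.tD d (n + 3) β h) 0 L ↔ VF_lift y ∈ zBox L (0 : ZSite d) := by
  rw [VF_mem_zBox]
  unfold CWM.Bl
  rw [Finset.mem_filter]
  show (y ∈ univ ∧ CWM.dsT 0 y ≤ L) ↔ _
  unfold CWM.dsT
  rw [Finset.sup_le_iff]
  constructor
  · intro h k
    have h1 := h.2 k (Finset.mem_univ _)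
    rw [Pi.zero_apply, zero_sub, ZMod.natAbs_valMinAbs_neg] at h1
    unfold VF_lift
    rw [Int.abs_eq_natAbs]
    exact_mod_cast h1
  · intro h
    refine ⟨Finset.mem_univ _, fun k _ => ?_⟩
    rw [Pi.zero_apply, zero_sub, ZMod.natAbs_valMinAbs_neg]
    have h1 := h k
    unfold VF_lift at h1
    rw [Int.abs_eq_natAbs] at h1
    exact_mod_cast h1

/-- the configuration of the torus -/
noncomputable def ZBX_T (b : Bool) (n L : ℕ) {d : ℕ} (η : {x // x ∈ zBox L (0 : ZSite d)} → Bool) : Conf d (n + 3) :=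
  fun y => glue (zBox L 0) η (fun _ => b) (VF_lift y)

lemma ZBX_T_red (b : Bool) (hn : 2 * L ≤ n) (η : {x // x ∈ zBox L (0 : ZSite d)} → Bool) {x : ZSite d}
    (hx : ∀ k, |x k| ≤ L + 1) : ZBX_T b n L η (VF_red n x) = glue (zBox L 0) η (fun _ => b) x := by
  unfold ZBX_T
  rw [VF_lift_red hn hx]

lemma ZBX_card (b : Bool) (hn : 2 * L ≤ n) (η : {x // x ∈ zBox L (0 : ZSite d)} → Bool) :
    (brk (ZBX_T b n L η)).card = ((tE (zBox L (0 : ZSite d))).filter fun e =>
      glue (zBox L 0) η (fun _ => b) e.1 ≠ glue (zBox L 0) η (fun _ => b) (e.1 + zev e.2)).card := by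
  symm
  refine Finset.card_bij (fun e _ => (VF_red n e.1, e.2)) ?_ ?_ ?_
  · intro e he
    rw [Finset.mem_filter] at he
    obtain ⟨b1, b2⟩ := VF_tE_bound he.1
    simp only [brk, Finset.mem_filter, Finset.mem_univ, true_and]
    rw [← VF_red_add, ZBX_T_red b hn η b1, ZBX_T_red b hn η b2]
    exact he.2
  · intro e he e' he' h
    rw [Finset.mem_filter] at he he'
    have h1 := congrArg Prod.fst h
    have h2 := congrArg Prod.snd h
    simp only at h1 h2
    have h3 := congrArg VF_lift h1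
    rw [VF_lift_red hn (VF_tE_bound he.1).1, VF_lift_red hn (VF_tE_bound he'.1).1] at h3
    exact Prod.ext h3 h2
  · intro e he
    simp only [brk, Finset.mem_filter, Finset.mem_univ, true_and] at he
    have hT : ∀ y : Site d (n + 3), VF_lift y ∉ zBox L (0 : ZSite d) → ZBX_T b n L η y = b := by
      intro y hy
      simp [ZBX_T, glue, hy]
    have hor : VF_lift e.1 ∈ zBox L (0 : ZSite d) ∨ VF_lift (e.1 + ev e.2) ∈ zBox L (0 : ZSite d) := by
      by_contra hcon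
      push Not at hcon
      exact he (by rw [hT _ hcon.1, hT _ hcon.2])
    have hex : ∃ x : ZSite d, (x, e.2) ∈ tE (zBox L (0 : ZSite d)) ∧ VF_red n x = e.1 := by
      rcases hor with h | h
      · exact ⟨VF_lift e.1, by rw [VF_mem_tE]; exact Or.inl h, VF_red_lift _⟩
      · refine ⟨VF_lift (e.1 + ev e.2) - zev e.2, ?_, ?_⟩
        · rw [VF_mem_tE]
          right
          simpa using h
        · have h1 : VF_red n (VF_lift (e.1 + ev e.2) - zev e.2 + zev e.2) = e.1 + ev e.2 := by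
            rw [sub_add_cancel, VF_red_lift]
          rw [VF_red_add] at h1
          exact add_right_cancel h1
    obtain ⟨x, hx, hxe⟩ := hex
    obtain ⟨b1, b2⟩ := VF_tE_bound hx
    refine ⟨(x, e.2), ?_, ?_⟩
    · rw [Finset.mem_filter]
      refine ⟨hx, ?_⟩
      simp only at b1 b2 ⊢
      rw [← ZBX_T_red b hn η b1, ← ZBX_T_red b hn η b2, VF_red_add, hxe]
      exact he
    · simp only
      rw [hxe]

lemma ZBX_bonds (σ : Conf d (n + 3)) : (∑ x : Site d (n + 3), ∑ i : Fin d, sg (σ x) * sg (σ (x + ev i))) =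
    (Fintype.card (Edge d (n + 3)) : ℝ) - 2 * ((brk σ).card : ℝ) := by
  rw [← Fintype.sum_prod_type' (fun x i => sg (σ x) * sg (σ (x + ev i)))]
  rw [Finset.sum_congr rfl (fun e _ => VF_sg (σ e.1) (σ (e.1 + ev e.2)))]
  rw [Finset.sum_sub_distrib, ← Finset.mul_sum, Finset.sum_const, nsmul_eq_mul, mul_one, Finset.sum_boole, Finset.card_univ]
  rfl

lemma ZBX_zbonds (Λ : Finset (ZSite d)) (σ : ZConf d) : (∑ e ∈ tE Λ, sg (σ e.1) * sg (σ (e.1 + zev e.2))) =
    ((tE Λ).card : ℝ) - 2 * (((tE Λ).filter fun e => σ e.1 ≠ σ (e.1 + zev e.2)).card : ℝ) := by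
  rw [Finset.sum_congr rfl (fun e _ => VF_sg (σ e.1) (σ (e.1 + zev e.2)))]
  rw [Finset.sum_sub_distrib, ← Finset.mul_sum, Finset.sum_const, nsmul_eq_mul, mul_one, Finset.sum_boole]

lemma ZBX_sites (b : Bool) (hn : 2 * L ≤ n) (η : {x // x ∈ zBox L (0 : ZSite d)} → Bool) :
    (∑ x : Site d (n + 3), sg (ZBX_T b n L η x)) = (∑ x ∈ zBox L (0 : ZSite d), sg (glue (zBox L 0) η (fun _ => b) x)) +
      ((Fintype.card (Site d (n + 3)) : ℝ) - ((zBox L (0 : ZSite d)).card : ℝ)) * sg b := by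
  have h1 : (∑ x ∈ Box L (0 : Site d (n + 3)), (sg (ZBX_T b n L η x) - sg b)) = ∑ x : Site d (n + 3), (sg (ZBX_T b n L η x) - sg b) := by
    refine Finset.sum_subset (Finset.subset_univ _) fun y _ hy => ?_
    rw [VF_mem_Box] at hy
    have h2 : ZBX_T b n L η y = b := by simp [ZBX_T, glue, hy]
    rw [h2, sub_self]
  have h3 : (∑ x ∈ Box L (0 : Site d (n + 3)), (sg (ZBX_T b n L η x) - sg b)) =
      ∑ x ∈ zBox L (0 : ZSite d), (sg (glue (zBox L 0) η (fun _ => b) x) - sg b) := by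
    refine Finset.sum_nbij' (fun y => VF_lift y) (fun x => VF_red n x) ?_ ?_ ?_ ?_ ?_
    · intro y hy
      exact VF_mem_Box.1 hy
    · intro x hx
      have hx' := VF_mem_zBox.1 hx
      rw [VF_mem_Box, VF_lift_red hn (fun k => (hx' k).trans (by linarith))]
      exact hx
    · intro y _
      exact VF_red_lift y
    · intro x hx
      have hx' := VF_mem_zBox.1 hx
      exact VF_lift_red hn (fun k => (hx' k).trans (by linarith))
    · intro y _
      rfl
  rw [h3, Finset.sum_sub_distrib, Finset.sum_sub_distrib, Finset.sum_const, Finset.sum_const, Finset.card_univ, nsmul_eq_mul,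
    nsmul_eq_mul] at h1
  linarith

lemma ZBX_wt (β h : ℝ) (b : Bool) (hn : 2 * L ≤ n) (η : {x // x ∈ zBox L (0 : ZSite d)} → Bool) :
    wt β h (ZBX_T b n L η) = Real.exp (β * ((Fintype.card (Edge d (n + 3)) : ℝ) - ((tE (zBox L (0 : ZSite d))).card : ℝ)) +
      h * (((Fintype.card (Site d (n + 3)) : ℝ) - ((zBox L (0 : ZSite d)).card : ℝ)) * sg b)) *
      zwt β h (zBox L 0) (glue (zBox L 0) η (fun _ => b)) := by
  unfold wt zwt
  rw [← Real.exp_add, ZBX_bonds, ZBX_zbonds, ZBX_sites b hn, ZBX_card b hn η]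
  congr 1
  ring

lemma ZBX_sum (β h : ℝ) (b : Bool) (hn : 2 * L ≤ n) (G : Conf d (n + 3) → ℝ) :
    ∑ σ : Conf d (n + 3), G σ * CWM.ind (∀ x, x ∉ CWM.Bl (CWM.tD d (n + 3) β h) 0 L → σ x = b) =
      ∑ η : {x // x ∈ zBox L (0 : ZSite d)} → Bool, G (ZBX_T b n L η) := by
  classical
  have h1 : (∑ σ : Conf d (n + 3), G σ * CWM.ind (∀ x, x ∉ CWM.Bl (CWM.tD d (n + 3) β h) 0 L → σ x = b)) =
      ∑ σ ∈ (univ : Finset (Conf d (n + 3))).filter (fun σ => ∀ x, x ∉ CWM.Bl (CWM.tD d (n + 3) β h) 0 L → σ x = b), G σ := by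
    rw [Finset.sum_filter]
    refine Finset.sum_congr rfl fun σ _ => ?_
    unfold CWM.ind
    by_cases hc : ∀ x, x ∉ CWM.Bl (CWM.tD d (n + 3) β h) 0 L → σ x = b
    · rw [if_pos hc, if_pos hc, mul_one]
    · rw [if_neg hc, if_neg hc, mul_zero]
  rw [h1]
  symm
  refine Finset.sum_nbij' (fun η => ZBX_T b n L η) (fun σ x => σ (VF_red n x.1)) ?_ ?_ ?_ ?_ ?_
  · intro η _
    simp only [Finset.mem_filter, Finset.mem_univ, true_and]
    intro y hy
    rw [ZBX_mem_Bl] at hy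
    simp [ZBX_T, glue, hy]
  · intro σ _
    exact Finset.mem_univ _
  · intro η _
    funext x
    have hx := VF_mem_zBox.1 x.2
    rw [ZBX_T_red b hn η (fun k => (hx k).trans (by linarith))]
    simp [glue]
  · intro σ hσ
    simp only [Finset.mem_filter, Finset.mem_univ, true_and] at hσ
    funext y
    by_cases hy : VF_lift y ∈ zBox L (0 : ZSite d)
    · simp [ZBX_T, glue, hy, VF_red_lift]
    · rw [hσ y (by rw [ZBX_mem_Bl]; exact hy)]
      simp [ZBX_T, glue, hy]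
  · intro η _
    rfl

end ZBX_sec

theorem ZBX : ZBX_stmt := by
  intro d β h L n b hn
  unfold CWM.av gam
  have h1 : (∑ σ : Conf d (n + 3), CWM.cw (wt β h : Conf d (n + 3) → ℝ) (CWM.Bl (CWM.tD d (n + 3) β h) 0 L) b σ * CWM.ind (σ 0 = true)) =
      ∑ η : {x // x ∈ zBox L (0 : ZSite d)} → Bool, wt β h (ZBX_T b n L η) * CWM.ind (ZBX_T b n L η 0 = true) := by
    rw [← ZBX_sum β h b hn (fun σ => wt β h σ * CWM.ind (σ 0 = true))]
    refine Finset.sum_congr rfl fun σ _ => ?_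
    unfold CWM.cw
    ring
  have h2 : (∑ σ : Conf d (n + 3), CWM.cw (wt β h : Conf d (n + 3) → ℝ) (CWM.Bl (CWM.tD d (n + 3) β h) 0 L) b σ) =
      ∑ η : {x // x ∈ zBox L (0 : ZSite d)} → Bool, wt β h (ZBX_T b n L η) := by
    rw [← ZBX_sum β h b hn (fun σ => wt β h σ)]
    rfl
  rw [h1, h2]
  have h3 : ∀ η : {x // x ∈ zBox L (0 : ZSite d)} → Bool, CWM.ind (ZBX_T b n L η 0 = true) =
      (if glue (zBox L 0) η (fun _ => b) 0 = true then (1 : ℝ) else 0) := by
    intro η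
    unfold CWM.ind
    have h4 : ZBX_T b n L η 0 = glue (zBox L 0) η (fun _ => b) 0 := by
      unfold ZBX_T
      rw [VF_lift_zero]
    by_cases hc : glue (zBox L 0) η (fun _ => b) 0 = true
    · rw [if_pos hc, if_pos (h4.trans hc)]
    · rw [if_neg hc, if_neg (fun h5 => hc (h4.symm.trans h5))]
  obtain ⟨c, hc⟩ : ∃ c : ℝ, c = Real.exp (β * ((Fintype.card (Edge d (n + 3)) : ℝ) - ((tE (zBox L (0 : ZSite d))).card : ℝ)) +
      h * (((Fintype.card (Site d (n + 3)) : ℝ) - ((zBox L (0 : ZSite d)).card : ℝ)) * sg b)) := ⟨_, rfl⟩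
  have hc0 : c ≠ 0 := by rw [hc]; exact (Real.exp_pos _).ne'
  have h5 : (∑ η : {x // x ∈ zBox L (0 : ZSite d)} → Bool, wt β h (ZBX_T b n L η) * CWM.ind (ZBX_T b n L η 0 = true)) =
      c * ∑ η : {x // x ∈ zBox L (0 : ZSite d)} → Bool, zwt β h (zBox L 0) (glue (zBox L 0) η (fun _ => b)) *
        (if glue (zBox L 0) η (fun _ => b) 0 = true then (1 : ℝ) else 0) := by
    rw [Finset.mul_sum]
    refine Finset.sum_congr rfl fun η _ => ?_
    rw [h3 η, ZBX_wt β h b hn η, ← hc, mul_assoc]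
  have h6 : (∑ η : {x // x ∈ zBox L (0 : ZSite d)} → Bool, wt β h (ZBX_T b n L η)) =
      c * ∑ η : {x // x ∈ zBox L (0 : ZSite d)} → Bool, zwt β h (zBox L 0) (glue (zBox L 0) η (fun _ => b)) := by
    rw [Finset.mul_sum]
    refine Finset.sum_congr rfl fun η _ => ?_
    rw [ZBX_wt β h b hn η, ← hc]
  rw [h5, h6, mul_div_mul_left _ _ hc0]

end CO
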