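import Pool.Agent.helper23.CO.SpecU

open Finset Filter Topology MeasureTheory

namespace CO

open CU

lemma ZFI_log {d : ℕ} (hd : 2 ≤ d) : 0 < Real.log (12 * d - 13) / 2 := by
  have h : (1 : ℝ) < 12 * d - 13 := by
    have : (2 : ℝ) ≤ d := by exact_mod_cast hd
    linarith
  have := Real.log_pos h
  linarith

lemma ZFI_not {d : ℕ} {b : ℝ} (h : ∃ μ ν : Measure (ZConf d), IsGibbs d b 0 μ ∧ IsGibbs d b 0 ν ∧ μ ≠ ν) :
    ¬ GU d b 0 := by
  rintro ⟨ρ, -, hρ⟩
  obtain ⟨μ, ν, hμ, hν, hne⟩ := h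
  exact hne ((hρ μ hμ).trans (hρ ν hν).symm)

lemma ZFI_two (hZEX : ZEX_stmt) {d : ℕ} {b : ℝ} (h : ¬ GU d b 0) :
    ∃ μ ν : Measure (ZConf d), IsGibbs d b 0 μ ∧ IsGibbs d b 0 ν ∧ μ ≠ ν := by
  obtain ⟨μ, hμ⟩ := hZEX d b 0
  by_contra hcon
  apply h
  refine ⟨μ, hμ, fun ν hν => ?_⟩
  by_contra hne
  exact hcon ⟨ν, μ, hν, hμ, hne⟩

theorem ZFI (hRES : RES_stmt) (hZEX : ZEX_stmt) (hZNZ : ZNZ_stmt) (hZON : ZON_stmt) (hZMO : ZMO_stmt) (hOFF : OFF_stmt)
    (hLOW : LOW_stmt) (hPLA : PLA_stmt) : ZFI_stmt := by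
  intro d hd
  have main : ∀ β h : ℝ, 0 ≤ β → ¬ (Cutoff d β h ↔ GU d β h) → h = 0 ∧ 2 ≤ d ∧ β ≤ Real.log (12 * d - 13) / 2 ∧
      (((∀ b : ℝ, 0 ≤ b → b < β → GU d b 0) ∧ ∀ b : ℝ, β < b → ¬ GU d b 0) ∨ (3 ≤ d ∧ ¬ LC d β)) := by
    intro β h hβ hno
    -- h = 0
    have h0 : h = 0 := by
      by_contra hh
      apply hno
      have hU : GU d β h := by
        obtain ⟨μ, hμ⟩ := hZEX d β h
        exact ⟨μ, hμ, fun ν hν => hZNZ d β h hd hβ hh ν μ hν hμ⟩
      have hC : Cutoff d β h := by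
        by_contra hc
        exact hh (hOFF d β h hd hβ hc).1
      exact ⟨fun _ => hU, fun _ => hC⟩
    subst h0
    have hoff : ¬ Cutoff d β 0 → ∀ b : ℝ, β < b → ¬ GU d b 0 := fun hc b hb =>
      ZFI_not ((hOFF d β 0 hd hβ hc).2 b hb)
    -- d ≥ 2
    have hd2 : 2 ≤ d := by
      by_contra hd2
      have hd1 : d = 1 := by omega
      subst hd1
      have hU : ∀ b : ℝ, 0 ≤ b → GU 1 b 0 := by
        intro b hb
        obtain ⟨μ, hμ⟩ := hZEX 1 b 0
        exact ⟨μ, hμ, fun ν hν => hZON b hb ν μ hν hμ⟩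
      apply hno
      refine ⟨fun _ => hU β hβ, fun _ => ?_⟩
      by_contra hc
      exact hoff hc (β + 1) (by linarith) (hU (β + 1) (by linarith))
    have hβ2 : β ≤ Real.log (12 * d - 13) / 2 := by
      by_contra hlt
      push Not at hlt
      have hL := ZFI_log hd2
      apply hno
      have hC : ¬ Cutoff d β 0 := hLOW d β hd2 hlt
      have hU : ¬ GU d β 0 := by
        have hc' := hLOW d ((Real.log (12 * d - 13) / 2 + β) / 2) hd2 (by linarith)
        exact ZFI_not ((hOFF d ((Real.log (12 * d - 13) / 2 + β) / 2) 0 hd (by linarith) hc').2 β (by linarith))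
      exact ⟨fun h => absurd h hC, fun h => absurd h hU⟩
    refine ⟨rfl, hd2, hβ2, ?_⟩
    by_cases hc : Cutoff d β 0
    · -- cutoff, not unique
      have hU : ¬ GU d β 0 := fun hU => hno ⟨fun _ => hU, fun _ => hc⟩
      by_cases hall : ∀ b : ℝ, 0 ≤ b → b < β → GU d b 0
      · left
        exact ⟨hall, fun b hb hUb => hU (hZMO d β b hβ hb.le hUb)⟩
      · right
        push Not at hall
        obtain ⟨b, hb0, hbβ, hbU⟩ := hall
        have htwo := ZFI_two hZEX hbU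
        have hd3 : 3 ≤ d := by
          by_contra hd3
          have : d = 2 := by omega
          subst this
          exact hPLA b β hb0 hbβ htwo hc
        exact ⟨hd3, fun hLC => (hRES d hd2).1 b β hb0 hbβ htwo hLC hc⟩
    · -- no cutoff, unique
      have hU : GU d β 0 := by
        by_contra hU
        exact hno ⟨fun h => absurd h hc, fun h => absurd h hU⟩
      left
      exact ⟨fun b hb0 hbβ => hZMO d b β hb0 hbβ.le hU, hoff hc⟩
  refine ⟨main, ?_⟩
  by_cases hd2 : 2 ≤ d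
  · have hsub : {β : ℝ | 0 ≤ β ∧ ¬ (Cutoff d β 0 ↔ GU d β 0)} ⊆
        ({0} ∪ {β : ℝ | 0 < β ∧ ¬ LC d β}) ∪
          {β : ℝ | (∀ b : ℝ, 0 ≤ b → b < β → GU d b 0) ∧ (∀ b : ℝ, β < b → ¬ GU d b 0) ∧ 0 ≤ β} := by
      rintro β ⟨hβ, hno⟩
      obtain ⟨-, -, -, h | h⟩ := main β 0 hβ hno
      · exact Or.inr ⟨h.1, h.2, hβ⟩
      · left
        rcases hβ.eq_or_lt with h' | h'
        · left; exact h'.symm
        · right; exact ⟨h', h.2⟩
    refine Set.Countable.mono hsub ?_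
    refine Set.Countable.union (Set.Countable.union (Set.countable_singleton 0) (hRES d hd2).2) ?_
    apply Set.Subsingleton.countable
    rintro x ⟨hx1, hx2, hx0⟩ y ⟨hy1, hy2, hy0⟩
    rcases lt_trichotomy x y with h | h | h
    · exact absurd (hy1 ((x + y) / 2) (by linarith) (by linarith)) (hx2 _ (by linarith))
    · exact h
    · exact absurd (hx1 ((x + y) / 2) (by linarith) (by linarith)) (hy2 _ (by linarith))
  · have hem : {β : ℝ | 0 ≤ β ∧ ¬ (Cutoff d β 0 ↔ GU d β 0)} = ∅ := by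
      ext β
      simp only [Set.mem_ofPred_eq, Set.mem_empty_iff_false, iff_false]
      rintro ⟨hβ, hno⟩
      exact hd2 (main β 0 hβ hno).2.1
    rw [hem]
    exact Set.countable_empty

end CO
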