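import Pool.Agent.helper23.CO.SpecU

open Finset Filter Topology MeasureTheory

namespace CO

open CU

theorem ZMO (hMSP : MSP_stmt) (hZEX : ZEX_stmt) (hVH : CU.VH_stmt) (hGUN : CS.GUN_stmt) : ZMO_stmt := by
  intro d b b' h0 h1 hU
  obtain ⟨hb, hmono, -, hpos⟩ := hMSP d
  obtain ⟨μ, hμ⟩ := hZEX d b 0
  refine ⟨μ, hμ, ?_⟩
  intro ν hν
  by_contra hne
  have hm : 0 < ms d b := hpos b h0 (hVH d b h0 ν μ hν hμ hne)
  have hm' : 0 < ms d b' := lt_of_lt_of_le hm (hmono b b' h0 h1)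
  refine hGUN d b' (ms d b') hm' (fun L => (hb b' L (h0.trans h1)).2.1) ?_
  intro μ₁ μ₂ h₁ h₂
  obtain ⟨ρ, -, hρ⟩ := hU
  rw [hρ μ₁ h₁, hρ μ₂ h₂]

end CO
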