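import Pool.Agent.helper23.CU.Fin
import Pool.Agent.helper23.CU.Fin2
import Pool.Agent.helper23.CS.Fin
import Pool.Agent.helper18.CWM.MAIN
import Pool.Agent.helper93.CO.BAS
import Pool.Agent.helper66.CO.BEN
import Pool.Agent.helper82.CO.BXP
import Pool.Agent.helper1.CO.CAB
import Pool.Agent.helper89.CO.CBX
import Pool.Agent.helper17.CO.CHA
import Pool.Agent.helper72.CO.CHM
import Pool.Agent.helper52.CO.CNT
import Pool.Agent.helper99.CO.CUT
import Pool.Agent.helper72.CO.DIR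
import Pool.Agent.helper66.CO.ENT
import Pool.Agent.helper42.CO.ERA
import Pool.Agent.helper68.CO.ERK
import Pool.Agent.helper79.CO.ERM
import Pool.Agent.helper42.CO.ERT
import Pool.Agent.helper98.CO.EXB
import Pool.Agent.helper53.CO.EXT
import Pool.Agent.helper99.CO.FLD
import Pool.Agent.helper66.CO.FS2
import Pool.Agent.helper66.CO.FSA
import Pool.Agent.helper8.CO.FSB
import Pool.Agent.helper66.CO.G4W
import Pool.Agent.helper92.CO.GDP
import Pool.Agent.helper42.CO.GDS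
import Pool.Agent.helper10.CO.GHS
import Pool.Agent.helper82.CO.GK2
import Pool.Agent.helper66.CO.GKW
import Pool.Agent.helper82.CO.HHT
import Pool.Agent.helper23.CO.HYA
import Pool.Agent.helper13.CO.HYB
import Pool.Agent.helper8.CO.ITR
import Pool.Agent.helper72.CO.JMP
import Pool.Agent.helper67.CO.KER
import Pool.Agent.helper83.CO.LDH
import Pool.Agent.helper67.CO.LDM
import Pool.Agent.helper66.CO.LIM
import Pool.Agent.helper18.CO.LIP
import Pool.Agent.helper82.CO.LPI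
import Pool.Agent.helper30.CO.LRO
import Pool.Agent.helper23.CO.LZ
import Pool.Agent.helper68.CO.MAN
import Pool.Agent.helper30.CO.MIX
import Pool.Agent.helper68.CO.MLF
import Pool.Agent.helper66.CO.MLR
import Pool.Agent.helper98.CO.MSP
import Pool.Agent.helper98.CO.NEA
import Pool.Agent.helper23.CO.NEB
import Pool.Agent.helper42.CO.NRA
import Pool.Agent.helper1.CO.OVL
import Pool.Agent.helper67.CO.OVT
import Pool.Agent.helper23.CO.PDS
import Pool.Agent.helper66.CO.POI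
import Pool.Agent.helper66.CO.PRO
import Pool.Agent.helper82.CO.PTB
import Pool.Agent.helper66.CO.PTN
import Pool.Agent.helper17.CO.RAT
import Pool.Agent.helper23.CO.RES
import Pool.Agent.helper98.CO.RTO
import Pool.Agent.helper66.CO.SLB
import Pool.Agent.helper18.CO.SLC
import Pool.Agent.helper66.CO.STO
import Pool.Agent.helper67.CO.STP
import Pool.Agent.helper66.CO.TEN
import Pool.Agent.helper82.CO.TRI
import Pool.Agent.helper1.CO.TRN
import Pool.Agent.helper98.CO.UPA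
import Pool.Agent.helper53.CO.UPB
import Pool.Agent.helper31.CO.UPQ
import Pool.Agent.helper68.CO.UVB
import Pool.Agent.helper88.CO.WLA
import Pool.Agent.helper88.CO.WLB
import Pool.Agent.helper88.CO.WLC
import Pool.Agent.helper23.CO.ZBX
import Pool.Agent.helper27.CO.ZEX
import Pool.Agent.helper23.CO.ZFI
import Pool.Agent.helper27.CO.ZGC
import Pool.Agent.helper27.CO.ZGD
import Pool.Agent.helper27.CO.ZGM
import Pool.Agent.helper23.CO.ZMO
import Pool.Agent.helper72.CO.ZNZ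
import Pool.Agent.helper98.CO.ZON
import Pool.Agent.helper67.CO.ZTR
import Pool.Agent.helper99.CO.ZVA
import Pool.Agent.helper72.CO.ZVB
import Pool.Agent.helper27.CO.ZVG

/-!
# Project co (MP_7c3fb3_pr): assembly
-/

open Finset Filter Topology

namespace CO

theorem a_OFF : OFF_stmt := by
  intro d β h hd hβ hno
  have h0 : h = 0 := by
    by_contra hh
    exact hno (CWM.a_NZF d β h hd hβ hh)
  refine ⟨h0, fun β₁ hβ₁ => ?_⟩
  subst h0
  by_contra hun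
  apply hno
  apply CWM.a_CUT d β 0 hd hβ
  apply CS.a_STA0 d β β₁ hβ hβ₁
  intro μ ν hμ hν
  by_contra hne
  exact hun ⟨μ, ν, hμ, hν, hne⟩

theorem a_LOW : LOW_stmt := fun d β hd h => CU.RESULT.1 d β hd h

theorem a_PLA : PLA_stmt := fun β₁ β h0 h1 h => CU.PLANAR β₁ β h0 h1 h

theorem a_LPI : LPI_stmt := LPI CWM.PL
theorem a_GK2 : GK2_stmt := GK2 CWM.PL
theorem a_GHS : GHS_stmt := GHS CWM.PL
theorem a_LIM : LIM_stmt := LIM 
theorem a_GKW : GKW_stmt := GKW a_LPI a_GK2 a_LIM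
theorem a_G4W : G4W_stmt := G4W a_GHS a_LIM
theorem a_PRO : PRO_stmt := PRO a_GKW a_G4W
theorem a_CAB : CAB_stmt := CAB 
theorem a_STO : STO_stmt := STO 
theorem a_MLR : MLR_stmt := MLR 
theorem a_CHM : CHM_stmt := CHM a_CAB
theorem a_BEN : BEN_stmt := BEN 
theorem a_ENT : ENT_stmt := ENT a_CAB a_STO a_BEN
theorem a_TRN : TRN_stmt := TRN a_CHM
theorem a_OVL : OVL_stmt := OVL a_CHM a_MLR a_TRN
theorem a_HHT : HHT_stmt := HHT 
theorem a_TRI : TRI_stmt := TRI a_HHT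
theorem a_EXT : EXT_stmt := EXT 
theorem a_LZ : LZ_stmt := LZ 
theorem a_RAT : RAT_stmt := RAT a_LPI a_TRI
theorem a_JMP : JMP_stmt := JMP a_LPI a_GK2 a_TRI a_HHT a_LZ a_RAT
theorem a_FLD : FLD_stmt := FLD a_LPI a_TRI a_HHT a_LZ
theorem a_CBX : CBX_stmt := CBX 
theorem a_STP : STP_stmt := STP a_JMP a_FLD a_CBX
theorem a_ITR : ITR_stmt := ITR a_STP a_LPI
theorem a_MSP : MSP_stmt := MSP CU.a_VC CU.a_VD CU.a_VF CS.GC CS.a_MONO CS.a_RCO
theorem a_CNT : CNT_stmt := CNT a_MSP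
theorem a_BAS : BAS_stmt := BAS CWM.a_STAT CU.a_VF a_MSP a_GKW a_STO a_CAB a_EXT a_HHT
theorem a_LRO : LRO_stmt := LRO a_ITR a_BAS a_MSP
theorem a_PTB : PTB_stmt := PTB 
theorem a_BXP : BXP_stmt := BXP 
theorem a_UPA : UPA_stmt := UPA a_GKW a_EXT a_HHT a_PTB a_BXP CU.a_BC
theorem a_UPB : UPB_stmt := UPB a_UPA a_MSP CU.a_VF
theorem a_UPQ : UPQ_stmt := UPQ a_UPB a_TRI CU.a_BC
theorem a_CHA : CHA_stmt := CHA a_LPI a_GK2 a_TRI a_HHT a_LZ a_RAT a_CBX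
theorem a_EXB : EXB_stmt := EXB a_LRO a_UPQ a_CHA a_LPI a_EXT a_MSP
theorem a_LDM : LDM_stmt := LDM a_EXB CU.a_LIN
theorem a_KER : KER_stmt := KER 
theorem a_LIP : LIP_stmt := LIP 
theorem a_LDH : LDH_stmt := LDH a_EXB a_KER a_LIP CU.a_LIN
theorem a_MLF : MLF_stmt := MLF a_LRO a_LPI a_FLD a_MSP
theorem a_ERA : ERA_stmt := ERA 
theorem a_ERT : ERT_stmt := ERT a_ERA
theorem a_ERK : ERK_stmt := ERK 
theorem a_TEN : TEN_stmt := TEN 
theorem a_PTN : PTN_stmt := PTN a_ERA a_ERT a_TEN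
theorem a_HYB : HYB_stmt := HYB 
theorem a_POI : POI_stmt := POI a_HYB a_ERA
theorem a_CUT : CUT_stmt := CUT 
theorem a_SLB : SLB_stmt := SLB a_POI a_CUT a_PTN
theorem a_DIR : DIR_stmt := DIR a_ERA a_ERT a_ERK CU.a_REV CU.a_LIN
theorem a_PDS : PDS_stmt := PDS a_ERA a_ERK CU.a_BX2
theorem a_MIX : MIX_stmt := MIX a_PDS a_ERA a_ERK CU.a_BX2
theorem a_FSA : FSA_stmt := FSA CU.a_MON CU.a_REV CU.a_LIN
theorem a_FS2 : FS2_stmt := FS2 a_FSA a_MIX CU.a_BX1 CU.a_LIN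
theorem a_RTO : RTO_stmt := RTO a_PRO a_EXT a_TRI a_HHT
theorem a_OVT : OVT_stmt := OVT a_CAB a_ENT a_OVL
theorem a_ERM : ERM_stmt := ERM 
theorem a_GDP : GDP_stmt := GDP a_OVT a_ERM a_ERA
theorem a_UVB : UVB_stmt := UVB a_ERA a_ERT
theorem a_GDS : GDS_stmt := GDS a_ERA a_ERT CU.a_LIN
theorem a_NRA : NRA_stmt := NRA a_ERA a_ERT CU.a_LIN
theorem a_WLA : WLA_stmt := WLA 
theorem a_WLB : WLB_stmt := WLB 
theorem a_WLC : WLC_stmt := WLC a_SLB
theorem a_SLC : SLC_stmt := SLC 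
theorem a_NEB : NEB_stmt := NEB a_ERA a_ERT a_DIR a_UVB a_GDP a_GDS a_NRA a_WLA a_WLC a_SLC CU.a_LIN
theorem a_NEA : NEA_stmt := NEA a_NEB a_LDM a_LDH a_UPB a_EXT a_ERK a_MSP a_WLA a_WLB CU.a_LIN CU.a_FLP
theorem a_FSB : FSB_stmt := FSB a_FS2 a_RTO a_MLF a_UPB a_WLA a_WLB a_WLC a_SLC
theorem a_HYA : HYA_stmt := HYA CU.a_BT CU.a_MON CU.a_REV CU.a_LIN CU.a_FLP a_FSA a_ERM
theorem a_MAN : MAN_stmt := MAN a_NEA a_FSB a_LDM a_HYA a_MSP CU.a_NC CU.a_FN CU.a_LIN CU.a_FLP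
theorem a_RES : RES_stmt := RES a_MAN a_MSP a_CNT CU.a_VH
theorem a_ZVA : ZVA_stmt := ZVA 
theorem a_ZVB : ZVB_stmt := VB 
theorem a_ZGM : ZGM_stmt := ZGM 
theorem a_ZGC : ZGC_stmt := ZGC 
theorem a_ZGD : ZGD_stmt := ZGD CU.a_VP
theorem a_ZEX : ZEX_stmt := ZEX a_ZGM a_ZGC a_ZGD a_ZVB
theorem a_ZVG : ZVG_stmt := ZVG a_ZVA
theorem a_ZTR : ZTR_stmt := ZTR 
theorem a_ZBX : ZBX_stmt := ZBX 
theorem a_ZNZ : ZNZ_stmt := ZNZ a_ZVA a_ZVB a_ZVG a_ZTR a_ZBX CU.a_VP CWM.a_STAT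
theorem a_ZON : ZON_stmt := ZON CS.a_SL CS.a_RCO CS.a_DEC CS.a_EXPO CS.TR CU.a_VH CU.a_VF
theorem a_ZMO : ZMO_stmt := ZMO a_MSP a_ZEX CU.a_VH CS.a_GUN
theorem a_ZFI : ZFI_stmt := ZFI a_RES a_ZEX a_ZNZ a_ZON a_ZMO a_OFF a_LOW a_PLA

end CO
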