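import Pool.Agent.helper23.CO.Fin
import Pool.Agent.helper31.LC.B1C
import Pool.Agent.helper92.LC.CNW
import Pool.Agent.helper22.LC.CUB
import Pool.Agent.helper45.LC.ENE
import Pool.Agent.helper71.LC.EPL
import Pool.Agent.helper97.LC.EXM
import Pool.Agent.helper42.LC.FAC
import Pool.Agent.helper68.LC.JEN
import Pool.Agent.helper23.LC.KEY
import Pool.Agent.helper68.LC.LCT
import Pool.Agent.helper11.LC.LYA
import Pool.Agent.helper11.LC.LYB
import Pool.Agent.helper11.LC.LYC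
import Pool.Agent.helper15.LC.LYI
import Pool.Agent.helper11.LC.LYS
import Pool.Agent.helper89.LC.MSH
import Pool.Agent.helper89.LC.MUP
import Pool.Agent.helper32.LC.PIN
import Pool.Agent.helper42.LC.PLB
import Pool.Agent.helper15.LC.PRB
import Pool.Agent.helper11.LC.RAW
import Pool.Agent.helper92.LC.RS2
import Pool.Agent.helper23.LC.RTM
import Pool.Agent.helper8.LC.SEC
import Pool.Agent.helper92.LC.TRX
import Pool.Agent.helper42.LC.WIB
import Pool.Agent.helper32.LC.WIN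

/-!
# Projects co and lc (MP_7c3fb3_pr): assembly, the whole coexistence phase
-/

open Finset Filter Topology MeasureTheory

namespace CO

open CU

theorem a_PLB : PLB_stmt := PLB a_GKW a_EXT a_BXP a_MSP CU.a_VF
theorem a_B1C : B1C_stmt := B1C a_PLB a_GKW a_EXT a_BXP a_MSP CU.a_VF CU.a_BC a_CBX
theorem a_CNW : CNW_stmt := CNW a_PTB CU.a_BC
theorem a_FAC : FAC_stmt := FAC 
theorem a_TRX : TRX_stmt := TRX 
theorem a_CUB : CUB_stmt := CUB a_LZ a_FAC a_GKW a_TRX a_HHT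
theorem a_LYA : LYA_stmt := LYA 
theorem a_LYS : LYS_stmt := LYS a_LYA
theorem a_LYB : LYB_stmt := LYB a_LYS
theorem a_LYC : LYC_stmt := LYC a_LYB
theorem a_LYI : LYI_stmt := LYI 
theorem a_MSH : MSH_stmt := MSH a_STO a_CAB a_HHT
theorem a_MUP : MUP_stmt := MUP a_UPA a_MSP a_GKW CU.a_VF
theorem a_KEY : KEY_stmt := KEY a_LYC a_LYI a_MSH a_MUP a_BAS a_MSP a_GKW
theorem a_EPL : EPL_stmt := EPL a_KEY a_UPA a_MSP a_PTB a_STO a_CAB a_GKW a_TRI a_HHT CU.a_VF CU.a_BC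
theorem a_JEN : JEN_stmt := JEN a_LZ a_TRI a_HHT a_GK2
theorem a_ENE : ENE_stmt := ENE a_EPL a_JEN a_CUB a_GKW a_GK2
theorem a_EXM : EXM_stmt := EXM a_GKW a_UPA a_LZ a_MSP CU.a_VF a_CBX
theorem a_PRB : PRB_stmt := PRB 
theorem a_PIN : PIN_stmt := PIN a_LPI a_GK2 a_LIM
theorem a_RAW : RAW_stmt := RAW 
theorem a_SEC : SEC_stmt := SEC a_ENE a_PIN a_RAW a_PLB a_GKW a_TRX a_CBX a_MSP
theorem a_RTM : RTM_stmt := RTM a_PIN a_LZ
theorem a_WIB : WIB_stmt := WIB a_PRB a_B1C a_EXM a_SEC a_RTM a_MSP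
theorem a_WIN : WIN_stmt := WIN a_WIB a_GKW a_TRX
theorem a_LCT : LCT_stmt := LCT a_WIN a_CNW a_GKW a_EXT a_MSP CU.a_VF
theorem a_RS2 : RS2_stmt := RS2 a_RES a_LCT a_MSP CU.a_VH

/-- the equivalence of cutoff and uniqueness can fail only at the uniqueness threshold in zero field -/
theorem FINAL (d : ℕ) (hd : 1 ≤ d) (β h : ℝ) (hβ : 0 ≤ β) (hno : ¬ (Cutoff d β h ↔ GU d β h)) :
    h = 0 ∧ 2 ≤ d ∧ (∀ b : ℝ, 0 ≤ b → b < β → GU d b 0) ∧ ∀ b : ℝ, β < b → ¬ GU d b 0 := by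
  obtain ⟨h0, hd2, _, _⟩ := (a_ZFI d hd).1 β h hβ hno
  subst h0
  have two : ∀ b : ℝ, ¬ GU d b 0 → ∃ μ ν : Measure (ZConf d), IsGibbs d b 0 μ ∧ IsGibbs d b 0 ν ∧ μ ≠ ν := by
    intro b hb
    obtain ⟨μ, hμ⟩ := a_ZEX d b 0
    by_contra hcon
    apply hb
    refine ⟨μ, hμ, fun ν hν => ?_⟩
    by_contra hne
    exact hcon ⟨ν, μ, hν, hμ, hne⟩
  refine ⟨rfl, hd2, fun b hb hbβ => ?_, fun b hβb => ?_⟩
  · by_contra hcon
    apply hno
    have h1 : ¬ Cutoff d β 0 := a_RS2 d b β hd2 hb hbβ (two b hcon)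
    have h2 : ¬ GU d β 0 := fun h3 => hcon (a_ZMO d b β hb hbβ.le h3)
    exact ⟨fun h3 => absurd h3 h1, fun h3 => absurd h3 h2⟩
  · intro hGU
    have h1 : GU d β 0 := a_ZMO d β b hβ hβb.le hGU
    have h2 : ¬ Cutoff d β 0 := fun h3 => hno ⟨fun _ => h1, fun _ => h3⟩
    obtain ⟨μ, ν, hμ, hν, hne⟩ := (a_OFF d β 0 hd hβ h2).2 b hβb
    exact hne (hGU.unique hμ hν)

/-- two different Gibbs measures if the Gibbs measure is not unique -/
theorem two_of_not_GU (d : ℕ) (b h : ℝ) (hb : ¬ GU d b h) :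
    ∃ μ ν : Measure (ZConf d), IsGibbs d b h μ ∧ IsGibbs d b h ν ∧ μ ≠ ν := by
  obtain ⟨μ, hμ⟩ := a_ZEX d b h
  by_contra hcon
  apply hb
  refine ⟨μ, hμ, fun ν hν => ?_⟩
  by_contra hne
  exact hcon ⟨ν, μ, hν, hμ, hne⟩

theorem GU_of_unique (d : ℕ) (b h : ℝ) (hu : ∀ μ ν : Measure (ZConf d), IsGibbs d b h μ → IsGibbs d b h ν → μ = ν) : GU d b h := by
  obtain ⟨μ, hμ⟩ := a_ZEX d b h
  exact ⟨μ, hμ, fun ν hν => hu ν μ hν hμ⟩

/-- the phase diagram -/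
theorem PHASE (d : ℕ) (hd : 1 ≤ d) :
    (∀ β h : ℝ, 0 ≤ β → h ≠ 0 ∨ d = 1 → Cutoff d β h ∧ GU d β h) ∧
    (2 ≤ d → ∃ βc : ℝ, 0 ≤ βc ∧ βc ≤ Real.log (12 * d - 13) / 2 ∧
      (∀ β : ℝ, 0 ≤ β → β < βc → Cutoff d β 0 ∧ GU d β 0) ∧
      ∀ β : ℝ, βc < β → ¬ Cutoff d β 0 ∧ ∃ μ ν : Measure (ZConf d), IsGibbs d β 0 μ ∧ IsGibbs d β 0 ν ∧ μ ≠ ν) := by
  refine ⟨fun β h hβ hor => ?_, fun hd2 => ?_⟩
  · by_cases hh : h = 0
    · have hd1 : d = 1 := by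
        rcases hor with h1 | h1
        · exact absurd hh h1
        · exact h1
      subst hh
      subst hd1
      refine ⟨?_, GU_of_unique 1 β 0 (a_ZON β hβ)⟩
      by_contra hno
      obtain ⟨μ, ν, hμ, hν, hne⟩ := (a_OFF 1 β 0 le_rfl hβ hno).2 (β + 1) (by linarith)
      exact hne (a_ZON (β + 1) (by linarith) μ ν hμ hν)
    · refine ⟨?_, GU_of_unique d β h (a_ZNZ d β h hd hβ hh)⟩
      by_contra hno
      exact hh (a_OFF d β h hd hβ hno).1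
  · have hlow : ∀ β : ℝ, 0 ≤ β → Real.log (12 * d - 13) / 2 < β → ¬ GU d β 0 := by
      intro β _ hβ hGU
      obtain ⟨b, hb1, hb2⟩ := exists_between hβ
      have hlog : 0 ≤ Real.log (12 * d - 13) := by
        refine Real.log_nonneg ?_
        have h2 : (2 : ℝ) ≤ d := by exact_mod_cast hd2
        linarith
      have h1 : ¬ Cutoff d b 0 := a_LOW d b hd2 hb1
      obtain ⟨μ, ν, hμ, hν, hne⟩ := (a_OFF d b 0 hd (by linarith) h1).2 β hb2
      exact hne (hGU.unique hμ hν)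
    obtain ⟨S, hS⟩ : ∃ S : Set ℝ, S = {b : ℝ | b = 0 ∨ (0 ≤ b ∧ GU d b 0)} := ⟨_, rfl⟩
    have hlog : 0 ≤ Real.log (12 * d - 13) / 2 := by
      refine div_nonneg (Real.log_nonneg ?_) two_pos.le
      have h2 : (2 : ℝ) ≤ d := by exact_mod_cast hd2
      linarith
    have hub : ∀ b ∈ S, b ≤ Real.log (12 * d - 13) / 2 := by
      intro b hb
      rw [hS] at hb
      rcases hb with hb | hb
      · rw [hb]; exact hlog
      · by_contra hcon
        push Not at hcon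
        exact hlow b hb.1 hcon hb.2
    have h0S : (0 : ℝ) ∈ S := by rw [hS]; exact Or.inl rfl
    have hbdd : BddAbove S := ⟨_, fun b hb => hub b hb⟩
    refine ⟨sSup S, le_csSup hbdd h0S, csSup_le ⟨0, h0S⟩ hub, fun β hβ hlt => ?_, fun β hlt => ?_⟩
    · obtain ⟨b, hbS, hb⟩ := exists_lt_of_lt_csSup ⟨0, h0S⟩ hlt
      have hGb : GU d b 0 := by
        rw [hS] at hbS
        rcases hbS with h1 | h1
        · exact absurd h1 (by intro h2; linarith)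
        · exact h1.2
      refine ⟨?_, a_ZMO d β b hβ hb.le hGb⟩
      by_contra hno
      obtain ⟨μ, ν, hμ, hν, hne⟩ := (a_OFF d β 0 hd hβ hno).2 b hb
      exact hne (hGb.unique hμ hν)
    · have hc0 : 0 ≤ sSup S := le_csSup hbdd h0S
      have hnG : ∀ b : ℝ, sSup S < b → ¬ GU d b 0 := by
        intro b hb hGU
        have h1 : b ∈ S := by rw [hS]; exact Or.inr ⟨hc0.trans hb.le, hGU⟩
        exact absurd (le_csSup hbdd h1) (not_le.2 hb)
      obtain ⟨b, hb1, hb2⟩ := exists_between hlt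
      exact ⟨a_RS2 d b β hd2 (hc0.trans hb1.le) hb2 (two_of_not_GU d b 0 (hnG b hb1)), two_of_not_GU d β 0 (hnG β hlt)⟩


end CO
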