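import Pool.Agent.helper23.CO.Defs

/-!
# Project co (MP_7c3fb3_pr), statements A: correlation inequalities, overlap

THEOREM.  `d ≥ 2`, `0 ≤ β₁ < β`, two Gibbs measures at `(β₁, 0)`, spontaneous magnetisation left-continuous at `β`: no cutoff at `(β, 0)`.

Every row `XX_stmt` is a statement with its complete proof.  A module file is `Pool/Agent/<seat>/CO/XX.lean`, imports this file (or the part
with the row), namespace `CO`, `theorem XX (h : YY_stmt) ... : XX_stmt`; other rows only as hypotheses (those named; also rows of the finished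
projects cu, cs, cwm, e.g. `CWM.PL_stmt`); auxiliary lemmas prefixed by `XX_`.  `s_x = sg (σ x)`.
-/

open Finset Filter Topology

namespace CO

/-! ## A. Ferromagnets -/

/-- **LPI** (Ginibre, Lebowitz-Pfister; uses `CWM.PL_stmt`).  `B = Bool × Bool`, `e 0 = t = s + s'`, `e 1 = q = s - s'`; `∑_b t^i q^j ≥ 0` (either `t = 0` or `q = 0`).
Energy of the pair: `K s s_y + K' s' s'_y = (K+K')/4 (t t_y + q q_y) + (K-K')/4 (t q_y + q t_y)`, `g s + g' s' = (g+g')/2 t + (g-g')/2 q`, all coefficients `≥ 0`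
(as in `CWM.G2`).  Insert `s_x ∓ s'_x`; `s_x s_y ± s'_x s'_y = (t t + q q)/2, (t q + q t)/2`; and for the last part, with `A = s_z s_x`, `B = s_z s_y` (so `A B = s_x s_y`),
`(A - A')(B + B')` and `(A + A')(B - B')`, each is a sum of four monomials with coefficient `1/4`; the expectations in the product measure are
`⟨AB⟩ - ⟨AB⟩' ± (⟨A⟩⟨B⟩' - ⟨A⟩'⟨B⟩)`. -/
def LPI_stmt : Prop := ∀ (V : Type) [Fintype V] [DecidableEq V] (K K' : V → V → ℝ) (g g' : V → ℝ),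
  (∀ x y, |K' x y| ≤ K x y) → (∀ x, |g' x| ≤ g x) →
  (∀ x, |ex K' g' (fun σ => CU.sg (σ x))| ≤ ex K g fun σ => CU.sg (σ x)) ∧
  (∀ x y, |c2 K' g' x y| ≤ c2 K g x y) ∧
  (∀ x y z, |c2 K g z x * c2 K' g' z y - c2 K' g' z x * c2 K g z y| ≤ c2 K g x y - c2 K' g' x y)

/-- **GK2** (uses `CWM.PL_stmt`).  Second Griffiths inequality: `q_x q_y` in two copies of the same system (`K = K'`, `g = g'` in LPI), expectation
`2 (⟨s_x s_y⟩ - ⟨s_x⟩⟨s_y⟩) ≥ 0`; `⟨s_x⟩ ≥ 0` with `t_x`; bounds since `|s| ≤ 1`. -/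
def GK2_stmt : Prop := ∀ (V : Type) [Fintype V] [DecidableEq V] (K : V → V → ℝ) (g : V → ℝ),
  (∀ x y, 0 ≤ K x y) → (∀ x, 0 ≤ g x) →
  (∀ x y, ex K g (fun σ => CU.sg (σ x)) * ex K g (fun σ => CU.sg (σ y)) ≤ c2 K g x y) ∧
  (∀ x, 0 ≤ ex K g (fun σ => CU.sg (σ x)) ∧ ex K g (fun σ => CU.sg (σ x)) ≤ 1) ∧ (∀ x y, 0 ≤ c2 K g x y ∧ c2 K g x y ≤ 1)

/-- **GHS** (uses `CWM.PL_stmt`).  Four copies `s1, s2, s3, s4` with the fields `g+a+b, g, g+a, g+b`; `al = (s1+s2+s3+s4)/2`, `be = -(s1+s2-s3-s4)/2`,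
`ga = (s1-s2+s3-s4)/2`, `de = (s1-s2-s3+s4)/2`; positivity of the single site sums and the pair energy as in `CWM.G4`; the field term `∑ g_i s_i` is
`(4g+2a+2b)/2 al + 0 be + (2a)/2 ga + (2b)/2 de`.  `∑ be_x exp (..) ≥ 0`. -/
def GHS_stmt : Prop := ∀ (V : Type) [Fintype V] [DecidableEq V] (K : V → V → ℝ) (g a b : V → ℝ),
  (∀ x y, 0 ≤ K x y) → (∀ x, 0 ≤ g x) → (∀ x, 0 ≤ a x) → (∀ x, 0 ≤ b x) → ∀ x,
  ex K (fun y => g y + a y + b y) (fun σ => CU.sg (σ x)) + ex K g (fun σ => CU.sg (σ x)) ≤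
    ex K (fun y => g y + a y) (fun σ => CU.sg (σ x)) + ex K (fun y => g y + b y) fun σ => CU.sg (σ x)

/-- **LIM**.  Conditioning as a limit: multiply numerator and denominator by `exp (-t |A|)`; `exp (t (∑_{y ∈ A} s_y - |A|))` is `1` if `σ` is plus on `A` and tends to
`0` otherwise; finite sums; the limit of the denominator is positive. -/
def LIM_stmt : Prop := ∀ (V : Type) [Fintype V] [DecidableEq V] (K : V → V → ℝ) (g : V → ℝ) (A : Finset V) (f : (V → Bool) → ℝ),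
  Tendsto (fun t : ℝ => ex K (fun y => g y + if y ∈ A then t else 0) f) atTop (𝓝 (exA K g A f))

/-- **GKW** (uses LPI, GK2, LIM).  Monotonicity in the plus set (LPI with `K' = K`, `g' = g + t 1_A ≤ g + t 1_B`, `t → ∞`), bounds; and monotonicity in `K, g`. -/
def GKW_stmt : Prop := ∀ (V : Type) [Fintype V] [DecidableEq V] (K K' : V → V → ℝ) (g g' : V → ℝ),
  (∀ x y, 0 ≤ K x y) → (∀ x, 0 ≤ g x) → (∀ x y, K x y ≤ K' x y) → (∀ x, g x ≤ g' x) → ∀ A B : Finset V, A ⊆ B → ∀ x y,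
  exA K g A (fun σ => CU.sg (σ x)) ≤ exA K' g' B (fun σ => CU.sg (σ x)) ∧
  exA K g A (fun σ => CU.sg (σ x) * CU.sg (σ y)) ≤ exA K' g' B (fun σ => CU.sg (σ x) * CU.sg (σ y)) ∧
  0 ≤ exA K g A (fun σ => CU.sg (σ x)) ∧ exA K g A (fun σ => CU.sg (σ x)) ≤ 1 ∧
  (∀ f : (V → Bool) → ℝ, exA K g ∅ f = ex K g f)

/-- **G4W** (uses GHS, LIM).  GHS with `a = t 1_A`, `b = t 1_B`, `t → ∞`. -/
def G4W_stmt : Prop := ∀ (V : Type) [Fintype V] [DecidableEq V] (K : V → V → ℝ) (g : V → ℝ),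
  (∀ x y, 0 ≤ K x y) → (∀ x, 0 ≤ g x) → ∀ A B : Finset V, Disjoint A B → ∀ x,
  exA K g (A ∪ B) (fun σ => CU.sg (σ x)) + ex K g (fun σ => CU.sg (σ x)) ≤
    exA K g A (fun σ => CU.sg (σ x)) + exA K g B fun σ => CU.sg (σ x)

/-- **PRO** (uses GKW, G4W).  Induction on `W` (insert `x ∉ W`, `x ∉ W'`): `pr (insert x C) = pr C * (1 + exA C s_x)/2` for `x ∉ C` (`pr C > 0`); with
`u = exA (W ∪ W') s_x`, `v = exA W s_x`, `0 ≤ v ≤ u` (GKW) and `u - v ≤ exA W' s_x - ex s_x` (G4W), `(1+u)/(1+v) ≤ 1 + (u - v) ≤ exp (u - v)`.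
Start: `W = ∅`, `pr ∅ = 1`. -/
def PRO_stmt : Prop := ∀ (V : Type) [Fintype V] [DecidableEq V] (K : V → V → ℝ) (g : V → ℝ),
  (∀ x y, 0 ≤ K x y) → (∀ x, 0 ≤ g x) → ∀ W W' : Finset V, Disjoint W W' →
  pr K g (W ∪ W') ≤ pr K g W * pr K g W' *
    Real.exp (∑ x ∈ W, (exA K g W' (fun σ => CU.sg (σ x)) - ex K g fun σ => CU.sg (σ x)))

/-! ## B. Overlap of two measures below a third one -/

/-- **CAB** (basics of `aw`, `ma`, `ca`; `w > 0`).  Linearity, monotonicity, constants; `ca w A f` depends only on `σ` on `A`; tower property: group the sum over `σ`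
by the restriction to `A` (e.g. `∑ σ, w σ G σ (∑_{η ∈ fb A σ} w η f η)/(∑_{η ∈ fb A σ} w η)`, exchange the sums, `η ∈ fb A σ ↔ σ ∈ fb A η`);
`ca` for `A = ∅` is `aw`; `0 < ma ≤ 1`; and `ma w (insert x A) σ = ma w A σ * ca w A (1[η x = σ x]) σ`. -/
def CAB_stmt : Prop := ∀ (V : Type) [Fintype V] [DecidableEq V] (w : (V → Bool) → ℝ), (∀ σ, 0 < w σ) → ∀ A : Finset V,
  (∀ (f g : (V → Bool) → ℝ) (σ τ : V → Bool), (∀ η, f η ≤ g η) → (∀ x ∈ A, σ x = τ x) → ca w A f σ ≤ ca w A g τ) ∧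
  (∀ (f g : (V → Bool) → ℝ) (a b : ℝ) (σ : V → Bool), ca w A (fun η => a * f η + b * g η) σ = a * ca w A f σ + b * ca w A g σ) ∧
  (∀ (c : ℝ) (σ : V → Bool), ca w A (fun _ => c) σ = c) ∧
  (∀ (f : (V → Bool) → ℝ) (g : (V → Bool) → ℝ), (∀ σ τ : V → Bool, (∀ x ∈ A, σ x = τ x) → g σ = g τ) →
    aw w (fun σ => ca w A f σ * g σ) = aw w fun σ => f σ * g σ) ∧
  (∀ (f : (V → Bool) → ℝ) (σ : V → Bool), ca w ∅ f σ = aw w f) ∧
  (∀ σ, 0 < ma w A σ ∧ ma w A σ ≤ 1) ∧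
  (∀ (x : V) (σ : V → Bool), x ∉ A → ma w (insert x A) σ = ma w A σ * ca w A (fun η => if η x = σ x then 1 else 0) σ)

/-- **STO** (Mathlib's `holley`, as in project cu, row VA).  With `μ₁ = P 1[fb A σ] / Z`, `μ₂ = Q 1[fb A τ] / Z'` (`σ ≤ τ`): if `η = σ`, `ζ = τ` on `A` then
`η ⊓ ζ = σ`, `η ⊔ ζ = τ` on `A`.  Make `f` nonnegative by adding a constant. -/
def STO_stmt : Prop := ∀ (V : Type) [Fintype V] [DecidableEq V] (P Q : (V → Bool) → ℝ), Hol P Q → ∀ (A : Finset V)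
  (f : (V → Bool) → ℝ), Monotone f → ∀ σ τ : V → Bool, σ ≤ τ → ca P A f σ ≤ ca Q A f τ

/-- **MLR** (`four_functions_theorem`).  `ma P A τ * ma Q A σ ≤ ma P A σ * ma Q A τ` for `σ ≤ τ`: `f₁ = P 1[fb A τ]`, `f₂ = Q 1[fb A σ]`, `f₃ = P 1[fb A σ]`,
`f₄ = Q 1[fb A τ]` on the lattice `V → Bool` (sums over `univ`; `univ ⊼ univ = univ`). -/
def MLR_stmt : Prop := ∀ (V : Type) [Fintype V] [DecidableEq V] (P Q : (V → Bool) → ℝ), Hol P Q → ∀ (A : Finset V)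
  (σ τ : V → Bool), σ ≤ τ → dn P Q A τ ≤ dn P Q A σ

/-- **CHM** (uses CAB).  Change of measure: for `v` depending only on the spins of `A`, `aw P v = aw Q (dn P Q A · v)`: group by the restriction to `A`
(`∑ σ, Q σ G σ = ∑ σ, G σ * (∑_{η ∈ fb A σ} Q η) / |fb A σ|` for `G` depending on `A` only, and `|fb A σ| = 2^(|V|-|A|)` does not depend on `σ`).  `dn > 0`. -/
def CHM_stmt : Prop := ∀ (V : Type) [Fintype V] [DecidableEq V] (P Q : (V → Bool) → ℝ), (∀ σ, 0 < P σ) → (∀ σ, 0 < Q σ) →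
  ∀ (A : Finset V) (v : (V → Bool) → ℝ), (∀ σ τ : V → Bool, (∀ x ∈ A, σ x = τ x) → v σ = v τ) →
  aw P v = aw Q (fun σ => dn P Q A σ * v σ) ∧ ∀ σ, 0 < dn P Q A σ

/-- **BEN** (calculus).  Relative entropy of two coins: `log x ≤ x - 1` gives `p log (p/q) + (1-p) log ((1-p)/(1-q)) ≤ p (p/q - 1) + (1-p) ((1-p)/(1-q) - 1) =
(p-q)^2/(q(1-q))`, and `(q - p)^2 ≤ q - p`, `q (1-q) ≥ c (1-c) ≥ c/2`. -/
def BEN_stmt : Prop := ∀ p q c : ℝ, 0 < p → p < 1 → 0 < c → c ≤ 1 / 2 → c ≤ q → q ≤ 1 - c → p ≤ q →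
  p * Real.log (p / q) + (1 - p) * Real.log ((1 - p) / (1 - q)) ≤ 2 / c * (q - p)

/-- **ENT** (uses CAB, STO, BEN).  Induction on `A` (insert `x ∉ A`).  `p σ = ca P A (1[η x = true]) σ`, `q σ = ca Q A (1[η x = true]) σ`, `0 < p < 1`, `p ≤ q` (STO), `q ∈ [c, 1-c]`.
`log dn (insert x A) σ = log dn A σ + l σ`, `l σ = log (p/q)` if `σ x = true`, `log ((1-p)/(1-q))` if not (CAB); `aw P l = aw P (p log (p/q) + (1-p) log ((1-p)/(1-q)))` (tower)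
`≤ (2/c) aw P (q - p)` (BEN).  `aw P q ≤ aw Q q` since `q` is increasing (STO for `Q, Q`; `Hol P Q`, `A = ∅`), `aw Q q = (1 + aw Q s_x)/2`, `aw P p = (1 + aw P s_x)/2`. -/
def ENT_stmt : Prop := ∀ (V : Type) [Fintype V] [DecidableEq V] (P Q : (V → Bool) → ℝ) (c : ℝ), Hol P Q → Hol Q Q → 0 < c → c ≤ 1 / 2 →
  (∀ (A : Finset V) (x : V) (σ : V → Bool), x ∉ A → c ≤ ca Q A (fun η => if η x = true then 1 else 0) σ ∧
    ca Q A (fun η => if η x = true then 1 else 0) σ ≤ 1 - c) →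
  ∀ A : Finset V, aw P (fun σ => Real.log (dn P Q A σ)) ≤
    1 / c * ∑ x ∈ A, (aw Q (fun σ => CU.sg (σ x)) - aw P fun σ => CU.sg (σ x))

/-- **TRN** (uses CHM).  `X = log dn`.  `aw P (max (-X) 0) = aw Q (dn max (-X) 0) ≤ 1` (`y log (1/y) ≤ 1`), so `aw P (max X 0) ≤ k + 1` and by Markov `P (X ≥ 2k + 2) ≤ 1/2`.
With `M = exp (2k+2)`: `aw Q (min dn M) ≥ aw Q (dn 1[dn ≤ M]) = aw P (1[dn ≤ M]) ≥ 1/2`. -/
def TRN_stmt : Prop := ∀ (V : Type) [Fintype V] [DecidableEq V] (P Q : (V → Bool) → ℝ) (k : ℝ), (∀ σ, 0 < P σ) → (∀ σ, 0 < Q σ) → 0 ≤ k →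
  ∀ A : Finset V, aw P (fun σ => Real.log (dn P Q A σ)) ≤ k → 1 / 2 ≤ aw Q fun σ => min (dn P Q A σ) (Real.exp (2 * k + 2))

/-- **OVL** (uses CHM, MLR, TRN; Mathlib's `fkg`).  `f_i = dn P_i Q A`, `F_i = min f_i M`, `M = exp (2k+2)`: nonnegative and decreasing (MLR), `aw Q F_i ≥ 1/2` (TRN), so
`aw Q (F_1 F_2) ≥ 1/4` (FKG for `Q`, applied to `M - F_i` or on the dual order), `min f_1 f_2 ≥ min F_1 F_2 ≥ F_1 F_2 / M`, `aw Q (min f_1 f_2) ≥ 1/(4M)`.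
`|u1 - u2| aw Q (min f_1 f_2) ≤ aw Q (min f_1 f_2 (|u1 - v| + |u2 - v|)) ≤ aw P1 |u1 - v| + aw P2 |u2 - v|` (CHM). -/
def OVL_stmt : Prop := ∀ (V : Type) [Fintype V] [DecidableEq V] (P1 P2 Q : (V → Bool) → ℝ) (k : ℝ), Hol P1 Q → Hol P2 Q → Hol Q Q → 0 ≤ k →
  ∀ A : Finset V, aw P1 (fun σ => Real.log (dn P1 Q A σ)) ≤ k → aw P2 (fun σ => Real.log (dn P2 Q A σ)) ≤ k →
  ∀ (v : (V → Bool) → ℝ) (u1 u2 : ℝ), (∀ σ τ : V → Bool, (∀ x ∈ A, σ x = τ x) → v σ = v τ) →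
  |u1 - u2| ≤ 4 * Real.exp (2 * k + 2) * (aw P1 (fun σ => |u1 - v σ|) + aw P2 fun σ => |u2 - v σ|)

end CO
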