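import Pool.Agent.helper23.CO.Spec

/-!
# Project co (MP_7c3fb3_pr), statements B: long range order and surface order large deviations on the torus

As in `Spec.lean`.  `N = card (Site d n) = n^d`.  `c(x)` is `cT b J h x`.
-/

open Finset Filter Topology

namespace CO

open CU

/-! ## C. The torus as a ferromagnet -/

/-- **HHT**.  The energy: `∑_{x,y} KT b J x y s_x s_y = b ∑_x ∑_i s_x s_{x+e_i} + ∑_{x,y} J (y-x) s_x s_y`.  With `J = s * ((n^(d-1)) (a k + r/N)/N)`: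
`b HN + s Yk k a r`. -/
def HHT_stmt : Prop := ∀ (d n : ℕ) [NeZero n] (b h : ℝ) (J : Site d n → ℝ) (σ : Conf d n),
  CWM.HH (KT b J) (fun _ => h) σ = b * HN σ + (∑ x, ∑ y, J (y - x) * (sg (σ x) * sg (σ y))) + h * Mg σ ∧
  (∀ (k : Site d n → ℝ) (a r s : ℝ), CWM.HH (KT b fun z => s * ((n : ℝ) ^ (d - 1) * (a * k z + r / (Fintype.card (Site d n) : ℝ)) /
    (Fintype.card (Site d n) : ℝ))) (fun _ => 0) σ = b * HN σ + s * Yk k a r σ)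

/-- **TRI** (uses HHT).  Translation invariance: the shift `σ ↦ σ (· + a)` is a bijection of the configurations which preserves `HN`, `Mg` and the quadratic form. -/
def TRI_stmt : Prop := ∀ (d n : ℕ) [NeZero n] (b h : ℝ) (J : Site d n → ℝ),
  (∀ x y : Site d n, c2 (KT b J) (fun _ => h) x y = cT b J h (y - x)) ∧
  (∀ x : Site d n, ex (KT b J) (fun _ => h) (fun σ => sg (σ x)) = ex (KT b J) (fun _ => h) fun σ => sg (σ 0)) ∧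
  cT b J h 0 = 1 ∧ (∀ x : Site d n, cT b J h (-x) = cT b J h x)

/-- **EXT**.  Bridge to project cu: `W β σ = exp (-2β #brk)`, `HN σ = d N - 2 #brk`, so `exp (HH (KT β 0) 0 σ) = exp (β d N) W β σ` (`J = 0`, `h = 0`). -/
def EXT_stmt : Prop := ∀ (d n : ℕ) [NeZero n] (β : ℝ),
  (∀ f : Conf d n → ℝ, Ex β f = ex (KT β fun _ => 0) (fun _ => 0) f) ∧
  (∀ (D : Finset (Site d n)) (f : Conf d n → ℝ), ExD β D f = exA (KT β fun _ => 0) (fun _ => 0) (univ \ D) f) ∧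
  (∀ A : Finset (Site d n), PrE β {σ : Conf d n | ∀ x ∈ A, σ x = true} = pr (KT β fun _ => 0) (fun _ => 0) A)

/-- **LZ** (calculus).  `F t = log ∑ exp (A + t B)` has derivative `avg_t B`, is convex (Cauchy-Schwarz, or: `F' ` is nondecreasing), so for `t ≥ 0`
`t avg_0 B ≤ F t - F 0 ≤ t avg_t B`. -/
def LZ_stmt : Prop := ∀ (X : Type) [Fintype X] [Nonempty X] (A B : X → ℝ),
  (∀ t : ℝ, HasDerivAt (fun t : ℝ => Real.log (∑ x, Real.exp (A x + t * B x)))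
    ((∑ x, Real.exp (A x + t * B x) * B x) / ∑ x, Real.exp (A x + t * B x)) t) ∧
  (∀ t : ℝ, 0 ≤ t → t * ((∑ x, Real.exp (A x) * B x) / ∑ x, Real.exp (A x)) ≤
      Real.log (∑ x, Real.exp (A x + t * B x)) - Real.log (∑ x, Real.exp (A x)) ∧
    Real.log (∑ x, Real.exp (A x + t * B x)) - Real.log (∑ x, Real.exp (A x)) ≤
      t * ((∑ x, Real.exp (A x + t * B x) * B x) / ∑ x, Real.exp (A x + t * B x)))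

/-- **RAT** (uses LPI, TRI).  The main trick.  `c1, c2` the two point functions of the two systems, `r = c2/c1`, `r 0 = 1`, `D_i = c1 (e_i) - c2 (e_i) ≥ 0`.  LPI with `z = 0` and the pair
`x, x + e_i`: `c1 x c1 (x+e_i) |r (x+e_i) - r x| = |c1 x c2 (x+e_i) - c2 x c1 (x+e_i)| ≤ D_i` (TRI), so `|r (x+e_i) - r x| ≤ D/μ⁴`.  Walk from `0` to `x` with `nrm x` steps
(induction on `nrm x`: if `x k ≠ 0`, one of `x ± e_k` has smaller norm). -/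
def RAT_stmt : Prop := ∀ (d n : ℕ) [NeZero n], 3 ≤ n → ∀ (b h1 h2 μ : ℝ) (J1 J2 : Site d n → ℝ), 0 ≤ b → 0 < μ → (∀ z, |J2 z| ≤ J1 z) → |h2| ≤ h1 →
  (∀ x, μ ^ 2 ≤ cT b J1 h1 x) →
  0 ≤ (∑ i : Fin d, (cT b J1 h1 (ev i) - cT b J2 h2 (ev i))) ∧
  ∀ x, cT b J1 h1 x * (1 - nrm x * (∑ i : Fin d, (cT b J1 h1 (ev i) - cT b J2 h2 (ev i))) / μ ^ 4) ≤ cT b J2 h2 x

/-- **JMP** (uses LPI, GK2, TRI, HHT, LZ, RAT).  `G s = log Z(s,h) - log Z(s,0)` (`J = 0`), `G (b1) ≥ 0` (LZ in `h`, `avg_0 Mg ≥ 0`), `G (b2) ≤ h N` (`|Mg| ≤ N`), derivative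
`G' s = N ∑_i (c_{s,h} (e_i) - c_{s,0} (e_i))` (LZ, TRI).  Mean value theorem: some `s ∈ (b1, b2)` with `D ≤ h/(b2 - b1)`.  `c_{s,h} x ≥ (mT s h)^2 ≥ μ^2` (GK2, LPI).  RAT at `s`:
`c_{s,0} x ≥ c_{s,h} x (1 - nrm x h/((b2-b1) μ⁴))`; if the bracket is `≥ 0` this is `≥ μ² (..)`, otherwise the claim follows from `c ≥ 0`.  `c_{b2,0} ≥ c_{s,0}` (LPI). -/
def JMP_stmt : Prop := ∀ (d n : ℕ) [NeZero n], 3 ≤ n → ∀ (b1 b2 h μ : ℝ), 0 ≤ b1 → b1 < b2 → 0 ≤ h → 0 < μ → μ ≤ mT d n b1 h →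
  ∀ x : Site d n, (1 - nrm x * (h / ((b2 - b1) * μ ^ 4))) * μ ^ 2 ≤ cT b2 (fun _ => 0) 0 x

/-- **FLD** (uses LPI, TRI, LZ, HHT).  `S = ∑_{x ∈ B} s_x`, `X = S/|B|`.  In zero field `E X² ≥ q`, so `P (X² ≥ q - κ) ≥ κ` (`X² ≤ 1`), by spin flip `P (X ≥ √(q-κ)) ≥ κ/2`, so
`log E exp (h S) ≥ h |B| √(q-κ) - log (2/κ)`, and by LZ `≤ h ⟨S⟩` in the field `h 1_B`; there `⟨s_x⟩ ≤ mT d n b h` (LPI, TRI). -/
def FLD_stmt : Prop := ∀ (d n : ℕ) [NeZero n], 3 ≤ n → ∀ (b h q κ : ℝ) (B : Finset (Site d n)), 0 ≤ b → 0 < h → 0 < κ → κ < q → B.Nonempty →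
  (∀ x ∈ B, ∀ y ∈ B, q ≤ cT b (fun _ => 0) 0 (y - x)) →
  √(q - κ) - Real.log (2 / κ) / (h * B.card) ≤ mT d n b h

/-- **CBX**.  The box of radius `R` has `(2R+1)^d` points if `2R + 1 ≤ n` (product of `d` sets `{a : |a| ≤ R}` of residues); coordinate differences of its points have `|valMinAbs| ≤ 2R`
(`ZMod.natAbs_valMinAbs_add_le`); always `|valMinAbs| ≤ n/2` (`ZMod.natAbs_valMinAbs_le`). -/
def CBX_stmt : Prop := ∀ (d n R : ℕ) [NeZero n],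
  (2 * R + 1 ≤ n → (Box R (0 : Site d n)).card = (2 * R + 1) ^ d) ∧
  (∀ x ∈ Box R (0 : Site d n), ∀ y ∈ Box R (0 : Site d n), nrm (y - x) ≤ 2 * d * R) ∧ (∀ x : Site d n, nrm x ≤ d * n / 2) ∧ ∀ x : Site d n, 0 ≤ nrm x

/-- **STP** (uses JMP, FLD, CBX).  One step.  JMP from `b` to `b + a` with `μ = m`: for `nrm x ≤ 2 d R`: `c x ≥ (1 - 2 d R h/(a m⁴)) m² ≥ (1 - a/2) m² ≥ m² - a/2` (`m ≤ 1`).  If `n ≤ 2R + 1` this holds for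
all `x` (`nrm x ≤ d n/2 ≤ d (2R+1)/2 ≤ 2 d R`).  If not: FLD with `B = Box R 0`, `q = m² - a/2`, `κ = a/2` (`κ < q` as `a < μ₀² ≤ m²`), `√(m² - a) ≥ m - a/m ≥ m - a/μ₀`. -/
def STP_stmt : Prop := ∀ (d n R : ℕ) [NeZero n], 3 ≤ n → 1 ≤ d → 1 ≤ R → ∀ (b h h' a m μ₀ : ℝ), 0 ≤ b → 0 < h → 0 < h' → 0 < μ₀ → 0 < a → a < μ₀ ^ 2 → μ₀ ≤ m → m ≤ 1 →
  4 * d * R * h ≤ a ^ 2 * μ₀ ^ 4 → m ≤ mT d n b h →
  (n ≤ 2 * R + 1 → ∀ x : Site d n, m ^ 2 - a / 2 ≤ cT (b + a) (fun _ => 0) 0 x) ∧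
  (2 * R + 1 < n → m - a / μ₀ - Real.log (4 / a) / (h' * (2 * R + 1) ^ d) ≤ mT d n (b + a) h')

/-- **ITR** (uses STP, LPI).  All scales.  `μ₀ = μ - κ/2 ≥ μ/2`; `ρ = min (Δ/2) (min (κ μ₀/8) (μ₀²/2))`; `a_j = ρ 2^(-j)`, `b_j = b + ∑_{i<j} a_i ≤ b + Δ`,
`m_j = μ - (2/μ₀) ∑_{i<j} a_i ≥ μ₀`, `h_j = h0 64^(-j)`, `R_j = ⌊a_j² μ₀⁴/(4 d h_j)⌋₊` (`≥ 1` if `8 d h0 ≤ ρ² μ₀⁴`).  Claim (induction): the conclusion holds or `m_j ≤ mT d n b_j h_j`.  Step: STP with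
`h' = h_{j+1}`.  If `n ≤ 2 R_j + 1`: `m_j² - a_j/2 ≥ (μ - κ/2)² - a_j/2 ≥ (μ - κ)²` (`κ μ/4 ≥ a_j/2`).  If not: `(2R_j+1)^d ≥ (R_j+1)² ≥ (a_j² μ₀⁴/(4 d h_j))²`, so
`log (4/a_j)/(h_{j+1} (2R_j+1)^d) ≤ log (4/a_j) 16 d² 64 h_j/(a_j⁴ μ₀⁸) ≤ a_j` for `h0` small (`log (4 2^j/ρ) 2^(-j) ≤ log (4/ρ) + 1`), and `a_j ≤ a_j/μ₀`.
`R_j ≥ ρ² μ₀⁴ 16^j/(4 d h0) - 1 → ∞`, so the conclusion holds for some `j`; `c` is nondecreasing in `b` (LPI). -/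
def ITR_stmt : Prop := ∀ (d : ℕ) (μ κ Δ : ℝ), 2 ≤ d → 0 < κ → κ < μ → μ ≤ 1 → 0 < Δ → ∃ h0 : ℝ, 0 < h0 ∧
  ∀ (n : ℕ) [NeZero n] (b : ℝ), 3 ≤ n → 0 ≤ b → μ ≤ mT d n b h0 → ∀ x : Site d n, (μ - κ) ^ 2 ≤ cT (b + Δ) (fun _ => 0) 0 x

/-- **MSP** (uses `CU.VC_stmt`, `CU.VD_stmt`, `CU.VF_stmt`, `CS.GC_stmt`, `CS.MONO_stmt`, `CS.RCO_stmt`).  `ML d b L = cor (zG Λ) b univ (cl Λ 0) none ∈ [0,1]` (GC, RCO), nondecreasing in `b ≥ 0` (MONO), nonincreasing in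
`L` (VC; VD).  `ms = ⨅ L, ML` (bounded below).  `SpontMag d b` gives `m ≤ ML d b L` for all `L` (VF). -/
def MSP_stmt : Prop := ∀ d : ℕ,
  (∀ (b : ℝ) (L : ℕ), 0 ≤ b → 0 ≤ ms d b ∧ ms d b ≤ CS.ML d b L ∧ CS.ML d b L ≤ 1) ∧
  (∀ b b' : ℝ, 0 ≤ b → b ≤ b' → ms d b ≤ ms d b') ∧
  (∀ b κ : ℝ, 0 ≤ b → 0 < κ → ∃ L0 : ℕ, ∀ L, L0 ≤ L → CS.ML d b L ≤ ms d b + κ) ∧
  (∀ b : ℝ, 0 ≤ b → SpontMag d b → 0 < ms d b)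

/-- **CNT** (uses MSP).  A nondecreasing function has at most countably many points of discontinuity (`Monotone.countable_not_continuousAt` for `fun b => ms d (max b 0)`); at a continuity point
`β > 0` one has `LC d β`. -/
def CNT_stmt : Prop := ∀ d : ℕ, {β : ℝ | 0 < β ∧ ¬ LC d β}.Countable

/-- **BAS** (uses `CWM.STAT_stmt`, `CU.VF_stmt`, MSP, GKW, STO, EXT; `h > 0` fixed).  `B = Box L 0` in the torus of side `n + 3 ≥ 2 L + 3` (it is `CWM.Bl (tD ..) 0 L`), `p` and `m` the magnetisations at `0` with plus and with minus off `B`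
in the field `h`.  `m ≤ mT` (FKG: STO with `A = univ \ B`, `ca` average over all configurations off `B`), `p - m = 2 dl ≤ 2 C/(L+1)^(4d)` (STAT, `1[σ 0 = true] = (1 + s_0)/2`), `p ≥` the same with `h = 0`
(GKW) `= ML d b L ≥ ms d b` (EXT, VF). -/
def BAS_stmt : Prop := ∀ (d : ℕ) (b h κ : ℝ), 1 ≤ d → 0 ≤ b → 0 < h → 0 < κ → ∀ᶠ n : ℕ in atTop, ms d b - κ ≤ mT d (n + 3) b h

/-- **LRO** (uses ITR, BAS, MSP).  `ε` small (`6 ε ≤ κ`, `4 ε < ms d β`), `β''` with `ms d β'' ≥ ms d β - ε` (LC), `β' = (β'' + β)/2`, ITR with `μ = ms d β'' - ε`, `κ = ε`,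
`Δ = β' - β''`, BAS at `β''` with `h0`: `c_{β'} x ≥ (ms d β - 3 ε)² ≥ (ms d β)² - 6 ε`. -/
def LRO_stmt : Prop := ∀ (d : ℕ) (β κ : ℝ), 2 ≤ d → LC d β → 0 < ms d β → 0 < κ → ∃ β' : ℝ, 0 ≤ β' ∧ β' < β ∧
  ∀ᶠ n : ℕ in atTop, ∀ x : Site d (n + 3), ms d β ^ 2 - κ ≤ cT β' (fun _ => 0) 0 x

/-! ## D. Upper bounds -/

/-- **PTB** (perturbation).  `w' = w exp ψ` with `|ψ - c| ≤ ρ` on `S`: for `0 ≤ f'`, `avg' f' ≤ exp (2ρ) avg f'`; apply to `f' = 1 + f`, `0 ≤ f' ≤ 2`. -/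
def PTB_stmt : Prop := ∀ (X : Type) [Fintype X] [DecidableEq X] (S : Finset X) (w ψ f : X → ℝ) (c ρ : ℝ), S.Nonempty → (∀ x, 0 < w x) → (∀ x ∈ S, |f x| ≤ 1) → (∀ x ∈ S, |ψ x - c| ≤ ρ) →
  (∑ x ∈ S, w x * Real.exp (ψ x) * f x) / (∑ x ∈ S, w x * Real.exp (ψ x)) ≤
    (∑ x ∈ S, w x * f x) / (∑ x ∈ S, w x) + 2 * (Real.exp (2 * ρ) - 1)

/-- **BXP** (boxes).  Translation of the box; two boxes at distance `≥ 2`: product structure (no bond joins `Box L x` and `Box L y` if not `Near (2 L + 1) x y`, and every bond touches at most one of them). -/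
def BXP_stmt : Prop := ∀ (d n L : ℕ) [NeZero n], 3 ≤ n → ∀ (β : ℝ) (x y : Site d n),
  ExD β (Box L x) (fun σ => sg (σ x)) = ExD β (Box L 0) (fun σ : Conf d n => sg (σ 0)) ∧
  (¬ Near (2 * L + 1) x y → ExD β (Box L x ∪ Box L y) (fun σ => sg (σ x) * sg (σ y)) =
    ExD β (Box L 0) (fun σ : Conf d n => sg (σ 0)) ^ 2)

/-- **UPA** (uses GKW, EXT, HHT, PTB, BXP).  `B = Box L x` (resp. `Box L x ∪ Box L y`).  `exA A ≤ exA (univ \ B)` (GKW).  On the configurations plus off `B` the energy is `β HN + const + ψ`,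
`|ψ| ≤ 2 |B| ∑ J + h |B|` (the pairs `(x', y')` with an element in `B`), `|B| ≤ (2L+1)^d` (resp. twice; `CU.BC`).  PTB with `w = exp (β HN)`, EXT, BXP. -/
def UPA_stmt : Prop := ∀ (d n L : ℕ) [NeZero n], 3 ≤ n → ∀ (β h T : ℝ) (J : Site d n → ℝ), 0 ≤ β → 0 ≤ h → (∀ z, 0 ≤ J z) → (∑ z, J z) ≤ T → h ≤ T →
  (∀ (A : Finset (Site d n)) (x : Site d n), (∀ y ∈ A, ¬ Near L x y) → exA (KT β J) (fun _ => h) A (fun σ => sg (σ x)) ≤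
    ExD β (Box L 0) (fun σ : Conf d n => sg (σ 0)) + 2 * (Real.exp (6 * T * (2 * L + 1) ^ d) - 1)) ∧
  (∀ x y : Site d n, ¬ Near (2 * L + 1) x y → c2 (KT β J) (fun _ => h) x y ≤
    ExD β (Box L 0) (fun σ : Conf d n => sg (σ 0)) ^ 2 + 2 * (Real.exp (12 * T * (2 * L + 1) ^ d) - 1))

/-- **UPB** (uses UPA, MSP, `CU.VF_stmt`).  `L0` with `ML d β L0 ≤ ms d β + κ/4` (`ML, ms ∈ [0,1]`, so `ML² ≤ ms² + κ/2`), then `n` large so that `T = C/(n+3)` makes the error `≤ κ/2`. -/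
def UPB_stmt : Prop := ∀ (d : ℕ) (β κ C : ℝ), 0 ≤ β → 0 < κ → 0 ≤ C → ∃ L : ℕ, ∀ᶠ n : ℕ in atTop, ∀ (J : Site d (n + 3) → ℝ) (h : ℝ),
  0 ≤ h → h ≤ C / ((n : ℝ) + 3) → (∀ z, 0 ≤ J z) → (∑ z, J z) ≤ C / ((n : ℝ) + 3) →
  (∀ (A : Finset (Site d (n + 3))) (x : Site d (n + 3)), (∀ y ∈ A, ¬ Near L x y) →
    exA (KT β J) (fun _ => h) A (fun σ => sg (σ x)) ≤ ms d β + κ) ∧
  (∀ x : Site d (n + 3), ¬ Near (2 * L + 1) 0 x → cT β J h x ≤ ms d β ^ 2 + κ)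

/-- **UPQ** (uses UPB, TRI, `CU.BC_stmt`).  `J = θ n^(d-1) (a k + 1/N)/N`, `∑ J = θ (a + 1)/n` (`N = n^d`).  `ex (a Q_k + m_T²) = ∑ z, (a k z + 1/N) c z`; the `z` with `Near (2L+1) 0 z` are at most `(4L+3)^d`, contribution
`≤ (4L+3)^d 9/N`, the others `≤ (a+1)(ms² + κ/4)`. -/
def UPQ_stmt : Prop := ∀ (d : ℕ) (β κ θ : ℝ), 1 ≤ d → 0 ≤ β → 0 < κ → 0 ≤ θ → ∀ᶠ n : ℕ in atTop, ∀ (k : Site d (n + 3) → ℝ) (a : ℝ), 0 ≤ a → a ≤ 1 →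
  (∀ z, 0 ≤ k z ∧ k z ≤ 8 / (Fintype.card (Site d (n + 3)) : ℝ)) → (∑ z, k z) = 1 →
  ex (KT β fun z => θ * (((n + 3 : ℕ) : ℝ) ^ (d - 1) * (a * k z + 1 / (Fintype.card (Site d (n + 3)) : ℝ)) / (Fintype.card (Site d (n + 3)) : ℝ))) (fun _ => 0)
    (fun σ => a * Qf k σ + (Mg σ / (Fintype.card (Site d (n + 3)) : ℝ)) ^ 2) ≤ (a + 1) * ms d β ^ 2 + κ

/-! ## E. Surface order large deviations -/

/-- **CHA** (uses LPI, TRI, HHT, LZ, RAT).  `Y± = Yk k a (±1)`, `v = d/μ⁴`, `b t = β - v (θ - t)`, `g t = log ∑ exp (b t HN + t Y+) - log ∑ exp (b t HN + t Y-)`, `t ∈ [0, θ]`; `g 0 = 0`.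
Systems `1, 2` = coupling `b t` and `J± = t n^(d-1) (a k ± 1/N)/N`, `|J-| ≤ J+`.  `g' t = v N D + n^(d-1) [a (⟨Q⟩₁ - ⟨Q⟩₂) + ⟨m²⟩₁ + ⟨m²⟩₂]`, `D = ∑_i (c1 - c2)(e_i)`; `⟨Q⟩₁ ≥ ⟨Q⟩₂` (LPI, `k ≥ 0`), and by RAT
(`nrm x ≤ d n`, `c1 ≤ 1`, `c1 x ≥ c_{β - vθ, 0} x ≥ μ²`) `⟨m²⟩₂ = N⁻¹ ∑ c2 ≥ ⟨m²⟩₁ - d n D/μ⁴`, `⟨m²⟩₁ ≥ q`.  So `g' t ≥ v N D + n^(d-1)(2q - d n D/μ⁴) = 2 q n^(d-1)`; `g θ ≥ 2 q θ n^(d-1)`.
`log ex (exp (θ Y-)) = log Z2 - log Z = (log Z1 - log Z) - g θ`, `log Z1 - log Z ≤ θ ⟨Y+⟩₁ ≤ θ n^(d-1) U` (LZ). -/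
def CHA_stmt : Prop := ∀ (d n : ℕ) [NeZero n], 3 ≤ n → 1 ≤ d → ∀ (β θ μ q a U : ℝ) (k : Site d n → ℝ), 0 < μ → 0 ≤ θ → d / μ ^ 4 * θ ≤ β → 0 ≤ a → (∀ z, 0 ≤ k z) →
  (∀ x : Site d n, μ ^ 2 ≤ cT (β - d / μ ^ 4 * θ) (fun _ => 0) 0 x) →
  q ≤ (∑ x : Site d n, cT (β - d / μ ^ 4 * θ) (fun _ => 0) 0 x) / (Fintype.card (Site d n) : ℝ) →
  ex (KT β fun z => θ * ((n : ℝ) ^ (d - 1) * (a * k z + 1 / (Fintype.card (Site d n) : ℝ)) / (Fintype.card (Site d n) : ℝ))) (fun _ => 0)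
    (fun σ => a * Qf k σ + (Mg σ / (Fintype.card (Site d n) : ℝ)) ^ 2) ≤ U →
  ex (KT β fun _ => 0) (fun _ => 0) (fun σ : Conf d n => Real.exp (θ * Yk k a (-1) σ)) ≤
    Real.exp (θ * ((n : ℝ) ^ (d - 1) * (U - 2 * q)))

/-- **EXB** (uses LRO, UPQ, CHA, LPI).  `κ₁ = min (κ/4) (ms²/4)`, `β'` from LRO with `κ₁`, `μ = ms/2` (`μ² ≤ ms² - κ₁`), `q = ms² - κ₁`, `θ = (β - β') μ⁴/d`, so `β - d/μ⁴ θ = β'`; `U = (a+1) ms² + κ₁`: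
`U - 2q ≤ (a - 1) ms² + κ`. -/
def EXB_stmt : Prop := ∀ (d : ℕ) (β κ : ℝ), 2 ≤ d → LC d β → 0 < ms d β → 0 < κ → ∃ θ : ℝ, 0 < θ ∧ ∀ᶠ n : ℕ in atTop, ∀ (k : Site d (n + 3) → ℝ) (a : ℝ), 0 ≤ a → a ≤ 1 →
  (∀ z, 0 ≤ k z ∧ k z ≤ 8 / (Fintype.card (Site d (n + 3)) : ℝ)) → (∑ z, k z) = 1 →
  Ex β (fun σ : Conf d (n + 3) => Real.exp (θ * Yk k a (-1) σ)) ≤ Real.exp (θ * (((n : ℝ) + 3) ^ (d - 1) * ((a - 1) * ms d β ^ 2 + κ)))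

/-- **LDM** (uses EXB, CU.LIN).  `a = 0`, `k = 1/N`.  If `|m| ≤ ms - κ` (so `κ ≤ ms`) then `m² ≤ ms² - κ ms`; Markov: `P ≤ exp (θ n^(d-1) (ms² - κ ms)) E exp (-θ n^(d-1) m²) ≤ exp (θ n^(d-1) (κ₁ - κ ms))`,
`κ₁ = κ ms/2`.  For `κ > ms` the set is empty. -/
def LDM_stmt : Prop := ∀ (d : ℕ) (β κ : ℝ), 2 ≤ d → LC d β → 0 < ms d β → 0 < κ → ∃ c : ℝ, 0 < c ∧ ∀ᶠ n : ℕ in atTop,
  PrE β {σ : Conf d (n + 3) | |Mg σ / (Fintype.card (Site d (n + 3)) : ℝ)| ≤ ms d β - κ} ≤ Real.exp (-c * ((n : ℝ) + 3) ^ (d - 1))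

/-- **KER**.  `k z = N #{v ∈ I : v + z₀ ∈ I}/(n |I|² n^(2d-2))`: `(mI (I + a))² = |I|⁻² n^(2-2d) ∑_{x,y} 1[x₀ - a ∈ I] 1[y₀ - a ∈ I] s_x s_y`, sum over `a`.  `∑_z k z = N n^(d-1) |I|²/(n |I|² n^(2d-2)) = 1`, `#{..} ≤ |I|`.
The slab over `I` has `|I| n^(d-1)` sites; `∑_a mI (I + a) = n Mg/N`. -/
def KER_stmt : Prop := ∀ (d n : ℕ) [NeZero n] (hd : 0 < d) (I : Finset (ZMod n)), I.Nonempty → ∃ k : Site d n → ℝ,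
  (∀ z, 0 ≤ k z ∧ k z ≤ ((n : ℝ) / I.card) / (Fintype.card (Site d n) : ℝ)) ∧ (∑ z, k z) = 1 ∧
  ∀ σ : Conf d n, Qf k σ = (∑ a : ZMod n, mI hd (I.image fun u => u + a) σ ^ 2) / n ∧
    Mg σ / (Fintype.card (Site d n) : ℝ) = (∑ a : ZMod n, mI hd (I.image fun u => u + a) σ) / n

/-- **LIP**.  `#((I + 1) \ I) = bdI I = #(I \ (I + 1))`, the slab over `I` has `|I| n^(d-1)` sites; `j` steps (`bdI (I + a) = bdI I`). -/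
def LIP_stmt : Prop := ∀ (d n : ℕ) [NeZero n] (hd : 0 < d) (I : Finset (ZMod n)) (σ : Conf d n) (j : ℕ), I.Nonempty →
  |mI hd (I.image fun u => u + (j : ZMod n)) σ - mI hd I σ| ≤ 2 * j * bdI I / I.card

/-- **LDH** (uses EXB, KER, LIP, CU.LIN).  `V = (1/n) ∑_a (mI (I + a) - m)² = Qf k - m²` (KER).  We may assume `κ ≤ 2` (else the event is empty), `B ≥ 1`.  If `|mI I - m| ≥ κ` then for the
`0 ≤ j ≤ κ |I|/(4B) < n` (different residues) `|mI (I + j) - m| ≥ κ/2` (LIP), so `V ≥ (1/n) (κ |I|/(4B)) κ²/4 ≥ κ³/(128 B)`.  EXB with `a = 1`, `κ₁ = κ³/(256 B)` and Markov. -/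
def LDH_stmt : Prop := ∀ (d : ℕ) (hd : 0 < d) (β κ : ℝ) (B : ℕ), 2 ≤ d → LC d β → 0 < ms d β → 0 < κ → ∃ c : ℝ, 0 < c ∧ ∀ᶠ n : ℕ in atTop,
  ∀ I : Finset (ZMod (n + 3)), n + 3 ≤ 8 * I.card → bdI I ≤ B →
  PrE β {σ : Conf d (n + 3) | κ ≤ |mI hd I σ - Mg σ / (Fintype.card (Site d (n + 3)) : ℝ)|} ≤ Real.exp (-c * ((n : ℝ) + 3) ^ (d - 1))

/-- **MLF** (uses LRO, LPI, FLD).  `c_β ≥ c_{β'} ≥ ms² - κ₁ =: q`, FLD with `B = univ`, `h = λ/(n+3)`: `mT ≥ √(q - κ₁) - log (2/κ₁)/(λ (n+3)^(d-1))`. -/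
def MLF_stmt : Prop := ∀ (d : ℕ) (β κ lam : ℝ), 2 ≤ d → LC d β → 0 < ms d β → 0 < κ → 0 < lam → ∀ᶠ n : ℕ in atTop,
  ms d β - κ ≤ mT d (n + 3) β (lam / ((n : ℝ) + 3))

end CO
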