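import Pool.Agent.helper23.CO.SpecB

/-!
# Project co (MP_7c3fb3_pr), statements C: dynamics

As in `Spec.lean`.  `N = card (Site d n) = n^d`, `ER β R f = E[f | σ off R]`.
-/

open Finset Filter Topology

namespace CO

open CU

/-- the slabs: offsets `1, .., 2 (r/4)` in the `K` blocks of length `r = n/K` -/
def isl (n K : ℕ) [NeZero n] : Finset (ZMod n) :=
  univ.filter fun u : ZMod n => u.val < K * (n / K) ∧ 1 ≤ u.val % (n / K) ∧ u.val % (n / K) ≤ 2 * (n / K / 4)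

/-- the middle offsets -/
def ppo (n K : ℕ) : Finset ℕ := Finset.Icc (n / K / 4 / 2 + 1) (n / K / 4 + n / K / 4 / 2)

/-- the middle part of the slabs -/
def i2l (n K : ℕ) [NeZero n] : Finset (ZMod n) := (ppo n K).biUnion fun o => wal n K (n / K) o

/-- the Poincare constant -/
noncomputable def cW (d n : ℕ) [NeZero n] (β : ℝ) (K : ℕ) : ℝ :=
  2 * (Fintype.card (Site d n) : ℝ) * Real.exp (4 * β * (((d : ℝ) + 2) * ((n / K + K : ℕ) : ℝ) * (n : ℝ) ^ (d - 2)) + 4 * d * β)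

/-! ## F. Block resampling -/

/-- **ERA**.  Basics of `ER` (`W > 0`, `σ ∈ fo R σ`; `η ∈ fo R σ` implies `fo R η = fo R σ`). -/
def ERA_stmt : Prop := ∀ (d n : ℕ) [NeZero n] (β : ℝ) (R : Finset (Site d n)),
  (∀ (f g : Conf d n → ℝ) (σ : Conf d n), (∀ η ∈ fo R σ, f η ≤ g η) → ER β R f σ ≤ ER β R g σ) ∧
  (∀ (f g : Conf d n → ℝ) (a b : ℝ) (σ : Conf d n), ER β R (fun η => a * f η + b * g η) σ = a * ER β R f σ + b * ER β R g σ) ∧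
  (∀ (c : ℝ) (σ : Conf d n), ER β R (fun _ => c) σ = c) ∧
  (∀ (f : Conf d n → ℝ) (σ τ : Conf d n), (∀ x, x ∉ R → σ x = τ x) → ER β R f σ = ER β R f τ) ∧
  (∀ (f g : Conf d n → ℝ) (σ : Conf d n), (∀ σ τ : Conf d n, (∀ x, x ∉ R → σ x = τ x) → g σ = g τ) →
    ER β R (fun η => g η * f η) σ = g σ * ER β R f σ) ∧
  (∀ (f : Conf d n → ℝ) (σ : Conf d n), |ER β R f σ| ≤ ER β R (fun η => |f η|) σ ∧ (ER β R f σ) ^ 2 ≤ ER β R (fun η => f η ^ 2) σ)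

/-- **ERT** (uses ERA).  Tower property (`fo R' σ` is a disjoint union of sets `fo R η`), `Ex = ER univ`, symmetry: `Ex (ER f * g) = Ex (ER f * ER g)`. -/
def ERT_stmt : Prop := ∀ (d n : ℕ) [NeZero n] (β : ℝ) (R : Finset (Site d n)) (f g : Conf d n → ℝ),
  (∀ (R' : Finset (Site d n)) (σ : Conf d n), R ⊆ R' → ER β R' (ER β R f) σ = ER β R' f σ) ∧
  (∀ σ, Ex β f = ER β univ f σ) ∧ Ex β (ER β R f) = Ex β f ∧
  Ex β (fun σ => ER β R f σ * g σ) = Ex β (fun σ => f σ * ER β R g σ)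

/-- **ERK**.  `fo {x} σ = {σ^+, σ^-}` (two different configurations); `PlusOn D = fo D plus`. -/
def ERK_stmt : Prop := ∀ (d n : ℕ) [NeZero n] (β : ℝ) (f : Conf d n → ℝ),
  (∀ (x : Site d n) (σ : Conf d n), Kx β x f σ = ER β {x} f σ) ∧
  (∀ D : Finset (Site d n), ExD β D f = ER β D f (plus : Conf d n))

/-- **TEN**.  No bond between `R₁` and `R₂`: for `η ∈ fo (R₁ ∪ R₂) σ` write `η = (η₁, η₂)`; `#brk η = a(η₁) + b(η₂)` (`a` counts the bonds touching `R₁`, `b` the others), so the weight is a product and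
`ER (R₁ ∪ R₂) f σ = ∑_{η₁} p₁(η₁) ∑_{η₂} p₂(η₂) f`. -/
def TEN_stmt : Prop := ∀ (d n : ℕ) [NeZero n] (β : ℝ) (R₁ R₂ : Finset (Site d n)), Disjoint R₁ R₂ →
  (∀ x ∈ R₁, ∀ y ∈ R₂, ¬ nn x y) → ∀ (f : Conf d n → ℝ) (σ : Conf d n), ER β (R₁ ∪ R₂) f σ = ER β R₁ (ER β R₂ f) σ

/-- **PTN** (uses ERA, ERT, TEN).  `E = ER (R₁ ∪ R₂)`, `E₁, E₂`; `E f = E₁ E₂ f`.  `E (f - E f)² = E (f - E₁ f)² + E (E₁ f - E₁ E₂ f)²` (cross term: `E = E E₁`, the second factor is not changed by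
`R₁`), `(E₁ (f - E₂ f))² ≤ E₁ (f - E₂ f)²`; `E (f - E_i f)² = E E_i (f - E_i f)² ≤ C ∑_{x ∈ R_i} E E_i (f - K_x f)² = C ∑_{x ∈ R_i} E (f - K_x f)²`. -/
def PTN_stmt : Prop := ∀ (d n : ℕ) [NeZero n] (β C : ℝ) (R₁ R₂ : Finset (Site d n)), 0 ≤ C → Disjoint R₁ R₂ → (∀ x ∈ R₁, ∀ y ∈ R₂, ¬ nn x y) →
  Poi β R₁ C → Poi β R₂ C → Poi β (R₁ ∪ R₂) C

/-- **HYB** (one term of the hybrid argument).  `A ⊆ R`, `x ∈ R \ A`.  For `σ, σ' ∈ fo R τ` let `ζ = σ'` on `insert x A`, `σ` elsewhere, and `ζ' = σ` on `insert x A`, `σ'` elsewhere; the map `(σ, σ') ↦ (ζ, ζ')` is a bijection of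
`(fo R τ)²`, and `#brk ζ + #brk ζ' ≤ #brk σ + #brk σ' + 2 c` (`c` = number of bonds in `R` leaving `insert x A`; a bond inside `insert x A`, inside the complement, or leaving `R` — where `σ = σ'` — keeps its
contribution to the sum), so `W σ W σ' ≤ exp (4βc) W ζ W ζ'`.  The configuration `σ'` on `A`, `σ` elsewhere is `ζ` with the spin at `x` replaced by `ζ' x`; `(f ζ^{x←b} - f ζ)² ≤ (f ζ^+ - f ζ^-)²`, and
`K_x (f - K_x f)² = p (1-p) (f^+ - f^-)²` with `p (1 - p) ≥ exp(-4dβ)/4` (`W^±/W^∓ ≤ exp (4dβ)`).  Sum over `ζ'` and use the tower property for `{x} ⊆ R`. -/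
def HYB_stmt : Prop := ∀ (d n : ℕ) [NeZero n], 3 ≤ n → ∀ (β : ℝ) (R A : Finset (Site d n)) (x : Site d n) (c : ℕ), 0 ≤ β → A ⊆ R → x ∈ R → x ∉ A →
  ((univ : Finset (Edge d n)).filter fun e => e.1 ∈ R ∧ e.1 + ev e.2 ∈ R ∧ (e.1 ∈ insert x A ↔ e.1 + ev e.2 ∉ insert x A)).card ≤ c →
  ∀ (f : Conf d n → ℝ) (τ : Conf d n),
  (∑ σ ∈ fo R τ, ∑ σ' ∈ fo R τ, W β σ * W β σ' * (f (fun y => if y ∈ A then σ' y else σ y) - f (fun y => if y ∈ insert x A then σ' y else σ y)) ^ 2) /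
    (∑ σ ∈ fo R τ, W β σ) ^ 2 ≤ 4 * Real.exp (4 * β * c + 4 * d * β) * ER β R (fun η => (f η - Kx β x f η) ^ 2) τ

/-- **POI** (uses HYB, ERA).  Order `R` by `ρ`: `A_0 = ∅ ⊂ A_1 ⊂ .. ⊂ A_m = R`, `A_{k+1} = insert x_k A_k`, `m = |R|`.  `E (f - E f)² = (1/2) ∑ W W' (f σ - f σ')²/(∑ W)²`, telescoping `f σ - f σ' = ∑_k (..)`, Cauchy-Schwarz
`(..)² ≤ m ∑_k (..)²`, HYB for each `k`.  (Induction on `Finset`: e.g. take `A_k` = the elements of `R` with the `k` smallest values of `ρ`, or `A = {y ∈ R : ρ y < r}`, `r ≤ max ρ + 1`, where each step adds at most one point.) -/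
def POI_stmt : Prop := ∀ (d n : ℕ) [NeZero n], 3 ≤ n → ∀ (β : ℝ) (R : Finset (Site d n)) (ρ : Site d n → ℕ) (c : ℕ), 0 ≤ β → Set.InjOn ρ (R : Set (Site d n)) →
  (∀ r : ℕ, ((univ : Finset (Edge d n)).filter fun e => e.1 ∈ R ∧ e.1 + ev e.2 ∈ R ∧ (ρ e.1 < r ↔ ¬ ρ (e.1 + ev e.2) < r)).card ≤ c) →
  Poi β R (2 * R.card * Real.exp (4 * β * c + 4 * d * β))

/-- **CUT**.  `ρ x = (x 1).val * N + code x` with an injection `code : Site d n → Fin N`.  A bond of direction `i ≠ 1` crosses the level `r` only if `(x 1).val = r / N` (integer part): at most `(d-1) |I| n^(d-2)` bonds;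
direction `1`: only if `(x 1).val ∈ {r/N - 1, r/N, n - 1}`: at most `3 |I| n^(d-2)`. -/
def CUT_stmt : Prop := ∀ (d n : ℕ) [NeZero n] (hd : 0 < d) (I : Finset (ZMod n)), 2 ≤ d → 3 ≤ n → ∃ ρ : Site d n → ℕ, Function.Injective ρ ∧
  ∀ r : ℕ, ((univ : Finset (Edge d n)).filter fun e => e.1 ∈ slab hd I ∧ e.1 + ev e.2 ∈ slab hd I ∧ (ρ e.1 < r ↔ ¬ ρ (e.1 + ev e.2) < r)).card ≤
    (d + 2) * I.card * n ^ (d - 2)

/-- **SLB** (uses POI, CUT, PTN).  `I` is the union of the classes `{u ∈ I : l u = j}`, `j < K`, each with at most `w` elements; a bond between the slabs of two different classes is impossible (direction `0`: `u, u + 1 ∈ I`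
have the same label; other directions do not change `x 0`).  Induction over `j` with PTN; `Poi` is monotone in the constant (the sum is `≥ 0`); `Poi β ∅ 0`. -/
def SLB_stmt : Prop := ∀ (d n : ℕ) [NeZero n] (hd : 0 < d) (β : ℝ) (I : Finset (ZMod n)) (K w : ℕ) (l : ZMod n → ℕ), 2 ≤ d → 3 ≤ n → 0 ≤ β →
  (∀ u ∈ I, l u < K) → (∀ u ∈ I, u + 1 ∈ I → l u = l (u + 1)) → (∀ j, (I.filter fun u => l u = j).card ≤ w) →
  Poi β (slab hd I : Finset (Site d n)) (2 * (Fintype.card (Site d n) : ℝ) * Real.exp (4 * β * (((d : ℝ) + 2) * w * (n : ℝ) ^ (d - 2)) + 4 * d * β))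

/-- **DIR** (uses ERK, ERT, CU.REV, CU.LIN).  `K_x` is a self-adjoint projection (`ER {x}`), so with `a_j = Ex (M P^j M)`: `a_j ≥ 0` and `a_j - a_{j+1} = (1/N) ∑_x Ex ((P^i M)(1 - K_x)(P^{j-i} M)) ≥ 0` is nonincreasing in `j`
(for `j = 2i`: `(1/N) ∑ ‖(1-K_x) P^i M‖²`; in general `⟨M, P^j (1-P) M⟩ - ⟨M, P^{j+1} (1-P) M⟩ = ⟨M, P^j (1-P)² M⟩ ≥ 0`: `j` even clear, `j` odd since `⟨v, P v⟩ = (1/N) ∑ ‖K_x v‖² ≥ 0`).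
`(2s+1) (a_{2s} - a_{2s+1}) ≤ a_0 ≤ N²` and `∑_x Ex ((g - K_x g)²) = N (a_{2s} - a_{2s+1})` for `g = gs β s`. -/
def DIR_stmt : Prop := ∀ (d n : ℕ) [NeZero n] (β : ℝ) (s : ℕ),
  (∑ x : Site d n, Ex β (fun σ => (gs β s σ - Kx β x (gs β s) σ) ^ 2)) ≤ (Fintype.card (Site d n) : ℝ) ^ 3 / (2 * s + 1)

/-! ## G. The chain with frozen walls -/

/-- **PDS** (uses ERA, ERK, CU.BX2).  Functions with `f (ext R σ) = f σ`.  On `PlusOn R`: `PD f = (1/N) ∑_x K_x f`, `K_x f = f` for `x ∉ R` (both updates have the same `ext`), and for `x ∈ R` `K_x` is a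
self-adjoint projection for `ExD β R` (pairs `σ^+, σ^-` in `PlusOn R`).  `(PD f)² ≤ (1/N) ∑ (K_x f)²` (Jensen). -/
def PDS_stmt : Prop := ∀ (d n : ℕ) [NeZero n] (β : ℝ) (R : Finset (Site d n)) (f : Conf d n → ℝ), (∀ σ, f (ext R σ) = f σ) →
  ExD β R (fun σ => (PD β R f σ) ^ 2) ≤ ExD β R (fun σ => f σ ^ 2) -
    (∑ x ∈ R, ExD β R (fun σ => (f σ - Kx β x f σ) ^ 2)) / (Fintype.card (Site d n) : ℝ)

/-- **MIX** (uses PDS, ERK, CU.BX2).  `h_t = PD^t f - ExD f` (`PD 1 = 1`, `ExD h_t = 0` by BX2).  `‖h_{t+1}‖² ≤ (1 - 1/(N C)) ‖h_t‖²` (PDS, `Poi` at `plus`), so `‖h_t‖² ≤ exp (-t/(N C)) B²`.  For `σ ∈ PlusOn R`: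
`h_t(σ)² ν(σ) ≤ ‖h_t‖²`, `ν(σ) = W σ/∑_{PlusOn R} W ≥ exp (-2βdN) 2^(-N)`.  Otherwise `h_t σ = h_t (ext R σ)` (for `t = 0` too). -/
def MIX_stmt : Prop := ∀ (d n : ℕ) [NeZero n] (β C B : ℝ) (R : Finset (Site d n)) (f : Conf d n → ℝ), 0 ≤ β → 0 < C → Poi β R C → (∀ σ, f (ext R σ) = f σ) → (∀ σ, |f σ| ≤ B) →
  ∀ (t : ℕ) (σ : Conf d n), |(PD β R)^[t] f σ - ExD β R f| ≤
    B * Real.exp ((2 * d * β + 1) * (Fintype.card (Site d n) : ℝ) - t / (2 * (Fintype.card (Site d n) : ℝ) * C))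

/-- **FSA** (uses CU.MON, CU.REV, CU.LIN).  `1_{plus}` is increasing, `0 ≤ P^s 1 ≤ 1`, `∑ W ≤ 2^N` (`W ≤ 1`); `Ex (F φ) = (∑ W) Ex (P^s 1_plus φ) = (∑ W) Ex (1_plus P^s φ) = P^s φ (plus)` (`W plus = 1`). -/
def FSA_stmt : Prop := ∀ (d n : ℕ) [NeZero n], 3 ≤ n → ∀ (β : ℝ) (s : ℕ), 0 ≤ β →
  (∀ σ : Conf d n, 0 ≤ Fs β s σ ∧ Fs β s σ ≤ 2 ^ (Fintype.card (Site d n))) ∧ Monotone (Fs β s : Conf d n → ℝ) ∧
  (∀ φ : Conf d n → ℝ, Ex β (fun σ => Fs β s σ * φ σ) = (Pf β)^[s] φ plus)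

/-- **FS2** (uses FSA, MIX, CU.BX1, CU.LIN).  `W = univ \ R`, `W' = univ \ R'`, `E = exp ((2dβ+1) N - s/(2NC))`.  For increasing `φ`, `|φ| ≤ B`: `P^s φ (plus) ≤ PD^s φ (plus) ≤ PD^s (φ ∘ ext) (plus) ≤ ExD φ + B E` (BX1, `σ ≤ ext σ`, MIX;
`ExD (φ ∘ ext) = ExD φ`).  `Ex (F²) = P^s F (plus) ≤ ExD β R F + 2^N E`; `ExD β R F = Ex (F 1[W = +])/P(W = +) = P^s 1[W=+] (plus)/P(W=+) ≤ (ExD β R' 1[W=+] + E)/P(W=+)`, `ExD β R' 1[W=+] = P(W ∪ W' = +)/P(W'=+)`,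
`P(W=+) ≥ 2^(-N)`. -/
def FS2_stmt : Prop := ∀ (d n : ℕ) [NeZero n], 3 ≤ n → ∀ (β C : ℝ) (s : ℕ) (R R' : Finset (Site d n)), 0 ≤ β → 0 < C → Poi β R C → Poi β R' C →
  Ex β (fun σ : Conf d n => Fs β s σ ^ 2) ≤
    2 * Real.exp ((2 * d * β + 2) * (Fintype.card (Site d n) : ℝ) - s / (2 * (Fintype.card (Site d n) : ℝ) * C)) +
    PrE β {σ : Conf d n | ∀ x ∈ (univ \ R) ∪ (univ \ R'), σ x = true} /
      (PrE β {σ : Conf d n | ∀ x ∈ univ \ R, σ x = true} * PrE β {σ : Conf d n | ∀ x ∈ univ \ R', σ x = true})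

/-- **RTO** (uses PRO, EXT, TRI, HHT).  The field `h` changes the weights by factors in `[exp (-hN), exp (hN)]`, probabilities by `exp (± 2hN)`; PRO in the field `h`, `ex s_x = mT`. -/
def RTO_stmt : Prop := ∀ (d n : ℕ) [NeZero n] (β h : ℝ) (W W' : Finset (Site d n)), 0 ≤ β → 0 ≤ h → Disjoint W W' →
  PrE β {σ : Conf d n | ∀ x ∈ W ∪ W', σ x = true} ≤ PrE β {σ : Conf d n | ∀ x ∈ W, σ x = true} * PrE β {σ : Conf d n | ∀ x ∈ W', σ x = true} *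
    Real.exp (6 * h * (Fintype.card (Site d n) : ℝ) + ∑ x ∈ W, (exA (KT β fun _ => 0) (fun _ => h) W' (fun σ => sg (σ x)) - mT d n β h))

/-! ## H. Two outer configurations -/

/-- **OVT** (uses CAB, ENT, OVL).  `P_i σ = W β (σ on S, η_i off S)`, `Q` with `plus`: positive, `Hol P_i Q`, `Hol Q Q` (`#brk` is submodular; `η_i ≤ plus`), `aw P_i (F(σ on S, η_i off S)) = ER β S F η_i`; `aw P_i F = ER β S F η_i` if `F` depends on `S` only.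
`c = 1/(1 + exp (4dβ)) ≤ 1/2`: `ca Q A 1[η x = true] ∈ [c, 1-c]` for `x ∉ A`, since the conditional probability given all other spins is in `[c, 1-c]` (`1/2` if `x ∉ S`).  ENT: `aw P_i log dn ≤ (1/c) D =: k`.  OVL with `A = Wp`. -/
def OVT_stmt : Prop := ∀ (d n : ℕ) [NeZero n], 3 ≤ n → ∀ (β D : ℝ) (S Wp : Finset (Site d n)) (η₁ η₂ : Conf d n) (v : Conf d n → ℝ) (u₁ u₂ : ℝ), 0 ≤ β → 0 ≤ D → Wp ⊆ S →
  (∑ x ∈ Wp, (ER β S (fun σ => sg (σ x)) plus - ER β S (fun σ => sg (σ x)) η₁)) ≤ D →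
  (∑ x ∈ Wp, (ER β S (fun σ => sg (σ x)) plus - ER β S (fun σ => sg (σ x)) η₂)) ≤ D →
  (∀ σ τ : Conf d n, (∀ x ∈ Wp, σ x = τ x) → v σ = v τ) →
  |u₁ - u₂| ≤ 4 * Real.exp (2 * ((1 + Real.exp (4 * d * β)) * D) + 2) *
    (ER β S (fun σ => |u₁ - v σ|) η₁ + ER β S (fun σ => |u₂ - v σ|) η₂)

/-- **ERM** (heat bath of a block is increasing in the outside; STO for `W β`).  `ER β S f η ≤ ER β S f η'` for increasing `f`, `η ≤ η'`. -/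
def ERM_stmt : Prop := ∀ (d n : ℕ) [NeZero n] (β : ℝ) (S : Finset (Site d n)) (f : Conf d n → ℝ), 0 ≤ β → Monotone f → Monotone (ER β S f)

/-- **GDP** (uses OVT, ERM, ERA).  `k_p(η) = ∑_{x ∈ Wp p} (ER s_x plus - ER s_x η) ≥ 0` (ERM), `∑_{p ∈ P} k_p(η_i) ≤ 4 κ |P| w0`, so for each `i` fewer than `|P|/3` of the `p` have `k_p > 12 κ w0`: some `p ∈ P` has `k_p(η_1), k_p(η_2) ≤ 12 κ w0`.
OVT with this `p`, `u_i = ER f η_i`, `v = ER β (univ \ Wp p) f` (depends on `Wp p` only); `ER β S f` is constant on `fo S η_i`; the other terms of the sum over `p` are `≥ 0`. -/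
def GDP_stmt : Prop := ∀ (d n : ℕ) [NeZero n], 3 ≤ n → ∀ (β m κ : ℝ) (S : Finset (Site d n)) (P : Finset ℕ) (Wp : ℕ → Finset (Site d n)) (w0 : ℕ) (f : Conf d n → ℝ) (η₁ η₂ : Conf d n),
  0 ≤ β → 0 < κ → P.Nonempty → 1 ≤ w0 → (∀ p ∈ P, Wp p ⊆ S ∧ (Wp p).card = w0) → (∀ p ∈ P, ∀ x ∈ Wp p, ER β S (fun σ => sg (σ x)) plus ≤ m + κ) →
  (m - 3 * κ) * (P.card * w0) ≤ (∑ p ∈ P, ∑ x ∈ Wp p, ER β S (fun σ => sg (σ x)) η₁) →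
  (m - 3 * κ) * (P.card * w0) ≤ (∑ p ∈ P, ∑ x ∈ Wp p, ER β S (fun σ => sg (σ x)) η₂) →
  |ER β S f η₁ - ER β S f η₂| ≤ 4 * Real.exp (2 * ((1 + Real.exp (4 * d * β)) * (12 * κ * w0)) + 2) *
    ((∑ p ∈ P, ER β S (fun σ => |ER β S f σ - ER β (univ \ Wp p) f σ|) η₁) +
      ∑ p ∈ P, ER β S (fun σ => |ER β S f σ - ER β (univ \ Wp p) f σ|) η₂)

/-- **UVB** (uses ERA, ERT).  `Ex (f - ER f)² = Ex (ER (f - ER f)²) ≤ C ∑_{x ∈ R} Ex (f - K_x f)²` for `R = S` and `R = R'`; Cauchy-Schwarz `Ex |g| ≤ √(Ex g²)`, triangle inequality. -/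
def UVB_stmt : Prop := ∀ (d n : ℕ) [NeZero n] (β C : ℝ) (S R : Finset (Site d n)) (f : Conf d n → ℝ), 0 ≤ C → Poi β S C → Poi β R C →
  Ex β (fun σ => |f σ - ER β S f σ|) ≤ √(C * ∑ x : Site d n, Ex β (fun σ => (f σ - Kx β x f σ) ^ 2)) ∧
  Ex β (fun σ => |ER β S f σ - ER β R f σ|) ≤ 2 * √(C * ∑ x : Site d n, Ex β (fun σ => (f σ - Kx β x f σ) ^ 2))

/-- **GDS** (uses ERA, ERT, CU.LIN).  `X1 = mI I1` with `I1` = complement of `IS` (depends on `σ` off `S = slab IS`), `X2 = mI I2`, `Bad` = union of the three events, `P(Bad) ≤ 3 p0`.  Off `Bad`: if `Mg > 0` then `m_T > m - κ`, `X1 > m - 2κ`.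
On `{X1 ≥ m - 2κ}` off `Bad`: `m_T ≥ m - 3κ > 0`, so `m_T > m - κ` and `X2 > m - 2κ`.  `b = ER 1[X2 < m - 2κ]`: `Ex (1[X1 ≥ m - 2κ] b) ≤ 3 p0`, `P(X1 ≥ m - 2κ, b > κ/2) ≤ 6 p0/κ`.  If `b ≤ κ/2`: `ER X2 ≥ (m - 2κ)(1 - b) - b ≥ m - 3κ` (`m ≤ 1`). -/
def GDS_stmt : Prop := ∀ (d n : ℕ) [NeZero n] (hd : 0 < d) (β m κ p0 : ℝ) (IS I2 : Finset (ZMod n)), 0 < κ → 3 * κ < m → m ≤ 1 →
  PrE β {σ : Conf d n | |Mg σ / (Fintype.card (Site d n) : ℝ)| ≤ m - κ} ≤ p0 →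
  PrE β {σ : Conf d n | κ ≤ |mI hd (univ \ IS) σ - Mg σ / (Fintype.card (Site d n) : ℝ)|} ≤ p0 →
  PrE β {σ : Conf d n | κ ≤ |mI hd I2 σ - Mg σ / (Fintype.card (Site d n) : ℝ)|} ≤ p0 →
  PrE β {σ : Conf d n | 0 < Mg σ ∧ ER β (slab hd IS) (mI hd I2) σ < m - 3 * κ} ≤ (3 + 6 / κ) * p0

/-- **NRA** (uses ERA, ERT, CU.LIN).  `u = ER β S f`; `Φ ≥ 0`, `|u η₁ - u η₂| ≤ X (Φ η₁ + Φ η₂)` for `η₁, η₂ ∈ G`.  `P(G) ≥ P(A) - P(A \ G) ≥ 2/5 - 1/10 = 3/10`: some `η* ∈ G` has `Φ η* ≤ 4 Ex Φ` (otherwise `Ex (Φ 1_G) ≥ (12/10) Ex Φ`;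
if `Ex Φ = 0` then `Φ = 0` everywhere).  `a = u η*`.  `Ex (1_A |f - a|) ≤ Ex |f - u| + Ex (1_G |u - a|) + Ex (1_{A \ G} |u - a|)`. -/
def NRA_stmt : Prop := ∀ (d n : ℕ) [NeZero n] (β X B p1 : ℝ) (S : Finset (Site d n)) (A G : Set (Conf d n)) (f Φ : Conf d n → ℝ), 0 ≤ X → (∀ σ, |f σ| ≤ B) → (∀ σ, 0 ≤ Φ σ) →
  2 / 5 ≤ PrE β A → PrE β (A \ G) ≤ p1 → p1 ≤ 1 / 10 →
  (∀ η₁ ∈ G, ∀ η₂ ∈ G, |ER β S f η₁ - ER β S f η₂| ≤ X * (Φ η₁ + Φ η₂)) →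
  ∃ a : ℝ, |a| ≤ B ∧ Ex β (fun σ => A.indicator (fun _ => 1) σ * |f σ - a|) ≤
    Ex β (fun σ => |f σ - ER β S f σ|) + 5 * X * Ex β Φ + 2 * B * p1

/-! ## I. Geometry of the walls -/

/-- **WLA**.  `r = n/K`, `q = r/4`, `isl = {u < K r : 1 ≤ u % r ≤ 2q}`, `i2l = {u < K r : q/2 < u % r ≤ q + q/2}` (`u = u.val`).  The pairs `(j, o)`, `j < K`, `o < r`, parametrise `u < K r`.  Cardinalities: `K`, `2 q K ≤ n/2`, `K q ≥ n/8`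
(`8 K q ≥ 2 K (r - 3) ≥ K (r + 1) > n`, `r ≥ 16`), `|ppo| = q`.  Boundary points: of the complement of `isl`: those with `u + 1` of offset `1`; of `i2l`: offset `q + q/2`: at most `K` each. -/
def WLA_stmt : Prop := ∀ (n K : ℕ) [NeZero n], 1 ≤ K → 16 * K ≤ n →
  (∀ o, o < n / K → (wal n K (n / K) o).card = K) ∧
  (∀ o ∈ ppo n K, 1 ≤ o ∧ o < n / K ∧ wal n K (n / K) o ⊆ isl n K) ∧ (ppo n K).Nonempty ∧ (ppo n K).card ≤ n ∧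
  (∀ o ∈ ppo n K, ∀ o' ∈ ppo n K, o ≠ o' → Disjoint (wal n K (n / K) o) (wal n K (n / K) o')) ∧
  (i2l n K).card = (ppo n K).card * K ∧ n ≤ 8 * (univ \ isl n K).card ∧ bdI (univ \ isl n K) ≤ K ∧ n ≤ 8 * (i2l n K).card ∧ bdI (i2l n K) ≤ K

/-- **WLB**.  Distances.  A point within (cyclic) distance `L ≤ q/2` of a point with offset `p ∈ (q/2, q + q/2]` in block `j < K` has offset in `[1, 2q]` in the same block (no wrap).  Two points with offsets `0` and `r/2` differ by at least `r/2`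
cyclically. -/
def WLB_stmt : Prop := ∀ (n K L : ℕ) [NeZero n], 1 ≤ K → 16 * K ≤ n → ∀ u v : ZMod n, ((v - u).valMinAbs.natAbs ≤ L) →
  (L ≤ n / K / 4 / 2 → u ∈ i2l n K → v ∈ isl n K) ∧
  (L < n / K / 2 → u ∈ wal n K (n / K) 0 → v ∉ wal n K (n / K) (n / K / 2))

/-- **WLC** (uses SLB).  `isl`: label `u.val / r < K`, classes of size `2q ≤ r`; `u, u + 1 ∈ isl` are in the same block.  Complement of `wal o`: label `(u.val - o)/r` for `o < u.val < (K-1) r + o`, label `K - 1` for the others; the label changes only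
across a wall; classes of size `≤ r` and `≤ n - 1 - (K-1) r ≤ r + K`. -/
def WLC_stmt : Prop := ∀ (d n K : ℕ) [NeZero n] (hd : 0 < d) (β : ℝ), 2 ≤ d → 0 ≤ β → 1 ≤ K → 16 * K ≤ n →
  Poi β (slab hd (isl n K) : Finset (Site d n)) (cW d n β K) ∧
  ∀ o, o < n / K → Poi β (univ \ slab hd (wal n K (n / K) o) : Finset (Site d n)) (cW d n β K)

/-- **SLC**.  The slab over `I` has `|I| n^(d-1)` sites; `slab` of a complement, union; `mI` as a sum over disjoint walls. -/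
def SLC_stmt : Prop := ∀ (d n : ℕ) [NeZero n] (hd : 0 < d),
  (∀ I : Finset (ZMod n), (slab hd I : Finset (Site d n)).card = I.card * n ^ (d - 1)) ∧
  (∀ I : Finset (ZMod n), (univ \ slab hd I : Finset (Site d n)) = slab hd (univ \ I)) ∧
  (∀ (P : Finset ℕ) (J : ℕ → Finset (ZMod n)), (∀ p ∈ P, ∀ p' ∈ P, p ≠ p' → Disjoint (J p) (J p')) → ∀ σ : Conf d n,
    mI hd (P.biUnion J) σ * (((P.biUnion J).card : ℝ) * (n : ℝ) ^ (d - 1)) = ∑ p ∈ P, ∑ x ∈ slab hd (J p), sg (σ x))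

/-! ## J. Assembly -/

/-- **NEB** (uses ERA, ERT, DIR, UVB, GDP, GDS, NRA, WLA, WLC, SLC, CU.LIN).  `S = slab isl`, `P = ppo`, `Wp p = slab (wal p)`, `w0 = K n^(d-1)`, `f = gs β s` (`|f| ≤ N`), `ℰ = ∑_x Ex (f - K_x f)² ≤ N³/(2s+1)` (DIR), `C = cW`,
`G = {σ : m - 3κ ≤ ER β S (mI i2l) σ}`; for `η ∈ G` the hypothesis of GDP holds (SLC, linearity of `ER`, `|i2l| n^(d-1) = |P| w0`).  `Φ = ∑_p ER β S |ER β S f - ER β (univ \ Wp p) f|`, `Ex Φ = ∑_p Ex |..| ≤ 2 |P| √(C ℰ)` (ERT, UVB),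
`X = 4 exp (24 (1 + exp (4dβ)) κ K n^(d-1) + 2)`, `p1 = (3 + 6/κ) p0` (GDS; `2 ≤ Mg` implies `0 < Mg`).  NRA: `√(Cℰ) + 5 X 2 |P| √(Cℰ) + 2 N p1`, `|P| ≤ n`. -/
def NEB_stmt : Prop := ∀ (d n K s : ℕ) [NeZero n] (hd : 0 < d) (β m κ p0 : ℝ), 2 ≤ d → 0 ≤ β → 1 ≤ K → 16 * K ≤ n → 0 < κ → 3 * κ < m → m ≤ 1 →
  PrE β {σ : Conf d n | |Mg σ / (Fintype.card (Site d n) : ℝ)| ≤ m - κ} ≤ p0 →
  PrE β {σ : Conf d n | κ ≤ |mI hd (univ \ isl n K) σ - Mg σ / (Fintype.card (Site d n) : ℝ)|} ≤ p0 →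
  PrE β {σ : Conf d n | κ ≤ |mI hd (i2l n K) σ - Mg σ / (Fintype.card (Site d n) : ℝ)|} ≤ p0 →
  2 / 5 ≤ PrE β {σ : Conf d n | 2 ≤ Mg σ} → (3 + 6 / κ) * p0 ≤ 1 / 10 →
  (∀ x ∈ slab hd (i2l n K), ER β (slab hd (isl n K)) (fun σ => sg (σ x)) plus ≤ m + κ) →
  ∃ a : ℝ, |a| ≤ (Fintype.card (Site d n) : ℝ) ∧
    Ex β (fun σ : Conf d n => ({σ | 2 ≤ Mg σ} : Set (Conf d n)).indicator (fun _ => 1) σ * |gs β s σ - a|) ≤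
      41 * Real.exp (24 * (1 + Real.exp (4 * d * β)) * κ * K * (n : ℝ) ^ (d - 1) + 2) * n *
        √(cW d n β K * ((Fintype.card (Site d n) : ℝ) ^ 3 / (2 * s + 1))) + 2 * (Fintype.card (Site d n) : ℝ) * ((3 + 6 / κ) * p0)

/-- **NEA** (uses NEB, LDM, LDH, UPB, EXT, ERK, MSP, WLA, WLB, CU.LIN, CU.FLP).  `y = (n+3)^(d-1)`, side `n' = n + 3`, `m = ms d β`.  `K ≥ 1` with `8 β (d+2)/K ≤ ε/8`; `κ` with `24 (1 + exp (4dβ)) κ K ≤ ε/8`, `4 κ < m`.  For `n` large: `cW ≤ 2N exp (ε y/8 + 4dβ)` (`n'/K + K ≤ 2n'/K`);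
`p0 = exp (-c₀ y)` (LDM, LDH with `B = K`); `1 - 2 P(2 ≤ Mg) = P(|Mg| < 2) ≤ P(|m_T| ≤ m - κ) ≤ p0` (FLP); for `x ∈ slab i2l`: `ER β S s_x plus = ExD β S s_x = exA (univ \ S) s_x ≤ m + κ` (ERK, EXT, UPB with `J = 0`, `h = 0`, WLB: `y ∉ S` is not `Near L x`).
NEB: the bound is `≤ N³ exp (ε y/8 + ε y/16 - ε y/2 + const) + 2N (3 + 6/κ) exp (-c₀ y) ≤ exp (-c y)` with `c = min (ε/8) (c₀/2)`. -/
def NEA_stmt : Prop := ∀ (d : ℕ) (β ε : ℝ), 2 ≤ d → 0 ≤ β → LC d β → 0 < ms d β → 0 < ε → ∃ c : ℝ, 0 < c ∧ ∀ᶠ n : ℕ in atTop, ∀ s : ℕ,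
  Real.exp (ε * ((n : ℝ) + 3) ^ (d - 1)) ≤ s → ∃ a : ℝ, |a| ≤ (Fintype.card (Site d (n + 3)) : ℝ) ∧
    Ex β (fun σ : Conf d (n + 3) => ({σ | 2 ≤ Mg σ} : Set (Conf d (n + 3))).indicator (fun _ => 1) σ * |gs β s σ - a|) ≤ Real.exp (-c * ((n : ℝ) + 3) ^ (d - 1))

/-- **FSB** (uses FS2, RTO, MLF, UPB, WLA, WLB, WLC, SLC; `cW` is the Poincare constant).  `K` with `8 β (d+2)/K ≤ ε/8`, `λ = c/24`, `κ' = c/(16 K)`, `h = λ/n'`, `W = slab (wal 0)`, `W' = slab (wal (r/2))`, `|W| = K y`, `hN = λ y`: ratio `≤ exp (6 λ y + K y 2κ') ≤ exp (3c y/8)` (UPB with `A = W'`, `J = 0`; MLF).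
First term of FS2: `s/(2NC) ≥ exp (ε y)/(4 N² exp (ε y/8 + 4dβ)) ≥ (2dβ+2) N` for `n` large. -/
def FSB_stmt : Prop := ∀ (d : ℕ) (β ε c : ℝ), 2 ≤ d → 0 ≤ β → LC d β → 0 < ms d β → 0 < ε → 0 < c → ∀ᶠ n : ℕ in atTop, ∀ s : ℕ,
  Real.exp (ε * ((n : ℝ) + 3) ^ (d - 1)) ≤ s → Ex β (fun σ : Conf d (n + 3) => Fs β s σ ^ 2) ≤ Real.exp (c * ((n : ℝ) + 3) ^ (d - 1))

/-- **HYA** (uses CU.BT, CU.MON, CU.REV, CU.LIN, CU.FLP, FSA, ERM or FKG).  `g = gs β s`, `A = {2 ≤ Mg}`, `ζ = 1 - 2 P(A)`.  `A` is increasing, `Mg (flipc σ) = -Mg σ`, one update changes `Mg` by at most 2.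
(i) FKG: `Ex (1_A g) ≥ 0`, so `a ≥ -(5/2) E1`.  (ii) `G = max (g - a) 0`: on `A` `≤ |g - a|`, on `flip A` `≤ |g + a| + 5 E1` (`g` odd), elsewhere `≤ 2N`: `Ex G ≤ 7 E1 + 2Nζ`, `Ex G² ≤ 2N (7 E1 + 2 N ζ)`.
(iii) `gs β (2s) plus = P^s g plus ≤ a + P^s G plus = a + Ex (F G) ≤ a + √(F2) √(2N (7E1 + 2Nζ))` (FSA, Cauchy-Schwarz).  (iv) `2 Ex (1_A gs (2s)) = 2 Ex (P^s 1_A g) ≥ 2 Ex (1_A g) - 2N Ex |P^s 1_A - 1_A|`,
`Ex |P^s 1_A - 1_A| = 2 Ex (1_A P^s 1_{A^c}) ≤ 2 s ζ` (BT); `2 Ex (1_A g) ≥ a (1-ζ) - 2 E1`, `|a| ≤ N`. -/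
def HYA_stmt : Prop := ∀ (d n : ℕ) [NeZero n], 3 ≤ n → ∀ (β a E1 F2 ζ : ℝ) (s : ℕ), 0 ≤ β → 1 ≤ s → |a| ≤ (Fintype.card (Site d n) : ℝ) →
  ζ = 1 - 2 * PrE β {σ : Conf d n | 2 ≤ Mg σ} → ζ ≤ 1 / 5 → Ex β (fun σ : Conf d n => Fs β s σ ^ 2) ≤ F2 →
  Ex β (fun σ : Conf d n => ({σ | 2 ≤ Mg σ} : Set (Conf d n)).indicator (fun _ => 1) σ * |gs β s σ - a|) ≤ E1 →
  2 * s * ζ ≤ 1 / 10000 →
  √(F2 * (2 * (Fintype.card (Site d n) : ℝ) * (7 * E1 + 2 * (Fintype.card (Site d n) : ℝ) * ζ))) + (Fintype.card (Site d n) : ℝ) * ζ + 2 * E1 +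
    4 * (Fintype.card (Site d n) : ℝ) * s * ζ ≤ 1 / 10000 →
  Hyp β {σ : Conf d n | 2 ≤ Mg σ} (2 * s)

/-- **MAN** (uses NEA, FSB, LDM, HYA, MSP, CU.NC, CU.FN, CU.FLP).  `c_b` = constant of LDM for `κ = ms/2`: `ζ ≤ P(|Mg| < 2) ≤ P(|m_T| ≤ ms/2) ≤ exp (-c_b y)` for `n` large.  `ε = c_b/4`, `s = ⌈exp (ε y)⌉₊`, `c` from NEA, `F2 = exp (c y/2)` (FSB), `E1 = exp (-c y)`; we may take `c ≤ c_b/2`.
All terms tend to `0` (`N = n'^d`, `y = n'^(d-1) ≥ n'`).  HYA, NC, FN. -/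
def MAN_stmt : Prop := ∀ (d : ℕ) (β : ℝ), 2 ≤ d → 0 ≤ β → LC d β → 0 < ms d β → ¬ Cutoff d β 0

/-- **RES** (uses MAN, MSP, CNT, `CU.VH_stmt`). -/
def RES_stmt : Prop := ∀ d : ℕ, 2 ≤ d →
  (∀ β₁ β : ℝ, 0 ≤ β₁ → β₁ < β → (∃ μ ν : MeasureTheory.Measure (ZConf d), IsGibbs d β₁ 0 μ ∧ IsGibbs d β₁ 0 ν ∧ μ ≠ ν) → LC d β → ¬ Cutoff d β 0) ∧
  {β : ℝ | 0 < β ∧ ¬ LC d β}.Countable

end CO
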