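import Pool.Agent.helper23.CO.SpecC
import Pool.Agent.helper23.CS.Spec

/-!
# Project co (MP_7c3fb3_pr), statements Z: existence of Gibbs measures, uniqueness in nonzero field and in `d = 1`, the final equivalence

As in `Spec.lean`.  Everything here is for an arbitrary real field `h`; the zero field versions are finished rows of the projects cu and cs, whose
module files can be copied and adapted (replace the field `0` by `h`; the extra term `h * ∑ x ∈ Λ, sg (σ x)` of `zwt` is a sum over sites).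
-/

open Finset Filter Topology MeasureTheory

namespace CO

open CU

/-- **ZVA** (copy `Pool/Agent/helper23/CU/VA.lean`).  Monotonicity in the boundary condition for any field (the field term is modular). -/
def ZVA_stmt : Prop := ∀ (d : ℕ) (β h : ℝ), 0 ≤ β → ∀ (Λ : Finset (ZSite d)) (f : ZConf d → ℝ), Monotone f →
  ∀ ω ω' : ZConf d, ω ≤ ω' → gam β h Λ f ω ≤ gam β h Λ f ω'

/-- **ZVB** (copy `Pool/Agent/helper64/CU/VB.lean`).  Consistency.  The weight of the sites of `Λ' \ Λ` depends only on `σ` off `Λ`. -/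
def ZVB_stmt : Prop := ∀ (d : ℕ) (β h : ℝ) (Λ Λ' : Finset (ZSite d)), Λ ⊆ Λ' → ∀ (f : ZConf d → ℝ) (ω : ZConf d),
  gam β h Λ' (fun σ => gam β h Λ f σ) ω = gam β h Λ' f ω

/-- **ZGM** (copy row GM of project cs).  The finite volume measure `∑ η, (weight/Z) • dirac (glue Λ η ω)`. -/
def ZGM_stmt : Prop := ∀ (d : ℕ) (β h : ℝ) (Λ : Finset (ZSite d)) (ω : ZConf d), ∃ P : ProbabilityMeasure (ZConf d),
  ∀ f : ZConf d → ℝ, Continuous f → ∫ σ, f σ ∂(P : Measure (ZConf d)) = gam β h Λ f ω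

/-- **ZGC** (copy row GCT of project cs).  `gam β h Λ f` is continuous for continuous `f`. -/
def ZGC_stmt : Prop := ∀ (d : ℕ) (β h : ℝ) (Λ : Finset (ZSite d)) (f : ZConf d → ℝ), Continuous f → Continuous fun ω => gam β h Λ f ω

/-- **ZGD** (copy row GDL of project cs; uses `CU.VP_stmt`).  The DLR equations for continuous functions imply those for measurable sets. -/
def ZGD_stmt : Prop := ∀ (d : ℕ) (β h : ℝ) (μ : Measure (ZConf d)), IsProbabilityMeasure μ →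
  (∀ (Λ : Finset (ZSite d)) (f : ZConf d → ℝ), Continuous f → ∫ ω, gam β h Λ f ω ∂μ = ∫ ω, f ω ∂μ) → IsGibbs d β h μ

/-- **ZEX** (copy row GEX of project cs; uses ZGM, ZGC, ZGD, ZVB).  A limit point of the finite volume measures in the boxes is a Gibbs measure. -/
def ZEX_stmt : Prop := ∀ (d : ℕ) (β h : ℝ), ∃ μ : Measure (ZConf d), IsGibbs d β h μ

/-- **ZVG** (copy `Pool/Agent/helper23/CU/VG.lean`; uses ZVA).  `f = 1{σ = + on S}` and `∑_{x ∈ S} 1{σ_x = +} - f` are increasing, so by ZVA `γ(f|-) ≤ γ(f|ω) ≤ γ(f|+)` for every `ω` and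
`γ(f|+) - γ(f|-) ≤ ∑_{x ∈ S} (γ(σ_x = +|+) - γ(σ_x = +|-))`; integrate the DLR equation. -/
def ZVG_stmt : Prop := ∀ (d : ℕ) (β h : ℝ), 0 ≤ β → ∀ μ ν : Measure (ZConf d), IsGibbs d β h μ → IsGibbs d β h ν →
  ∀ S Λ : Finset (ZSite d), |μ.real {σ | ∀ x ∈ S, σ x = true} - ν.real {σ | ∀ x ∈ S, σ x = true}| ≤
    ∑ x ∈ S, (gam β h Λ (fun σ => if σ x = true then (1 : ℝ) else 0) (fun _ => true) -
      gam β h Λ (fun σ => if σ x = true then (1 : ℝ) else 0) (fun _ => false))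

/-- **ZTR** (copy row VD of project cu, `Pool/Agent/helper89/CU/VD.lean`).  Translation invariance, constant boundary condition `b`. -/
def ZTR_stmt : Prop := ∀ (d : ℕ) (β h : ℝ) (L : ℕ) (x : ZSite d) (b : Bool),
  gam β h (zBox L x) (fun σ => if σ x = true then (1 : ℝ) else 0) (fun _ => b) =
    gam β h (zBox L (0 : ZSite d)) (fun σ => if σ 0 = true then (1 : ℝ) else 0) (fun _ => b)

/-- **ZBX** (adapt `Pool/Agent/helper23/CU/VF.lean`).  The box in a torus of side `n + 3 ≥ 2 L + 3` with constant boundary condition `b` is the box in `Z^d`: reduction modulo `n + 3` is injective on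
`{-L-1..L+1}^d` and maps `zBox L 0` onto `Bl (tD ..) 0 L` (`dsT 0 y ≤ L` iff every `(y k).valMinAbs.natAbs ≤ L`); bonds touching the box correspond; the bonds and sites of the torus not touching the box give a constant factor. -/
def ZBX_stmt : Prop := ∀ (d : ℕ) (β h : ℝ) (L n : ℕ) (b : Bool), 2 * L ≤ n →
  gam β h (zBox L (0 : ZSite d)) (fun σ => if σ 0 = true then (1 : ℝ) else 0) (fun _ => b) =
    CWM.av (CWM.cw (wt β h : Conf d (n + 3) → ℝ) (CWM.Bl (CWM.tD d (n + 3) β h) 0 L) b) fun σ => CWM.ind (σ 0 = true)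

/-- **ZNZ** (uses ZVA, ZVB, ZVG, ZTR, ZBX, `CU.VP_stmt`, `CWM.STAT_stmt`).  Uniqueness for `h ≠ 0`.  `S ⊆ zBox K 0`, `Λ = zBox (L + K) 0 ⊇ zBox L x` for `x ∈ S`: by ZVA, ZVB the difference in ZVG for `x` in `Λ` is at most the difference in
`zBox L x`, `= ` that in `zBox L 0` (ZTR) `= dl (wt β h) (Bl 0 L) 0` in the torus of side `2 L + 3` (ZBX) `≤ C/(L+1)^(4d)` (STAT), `→ 0` as `d ≥ 1`.  So `μ = ν` on the sets `{σ = + on S}` (VP). -/
def ZNZ_stmt : Prop := ∀ (d : ℕ) (β h : ℝ), 1 ≤ d → 0 ≤ β → h ≠ 0 → ∀ μ ν : Measure (ZConf d), IsGibbs d β h μ → IsGibbs d β h ν → μ = ν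

/-- **ZON** (uses `CS.SL_stmt`, `CS.RCO_stmt`, `CS.DEC_stmt`, `CS.EXPO_stmt`, `CS.TR_stmt`, `CU.VH_stmt`, `CU.VF_stmt`).  `d = 1`.  In the chain `S = zBox n 0` with free boundary condition SL with `S' = {-n..j}` (one outgoing edge) gives
`cor (0, n) ≤ (tanh β)^n` (induction from `j = 0`: `cor (j, n) ≤ tanh β cor (j+1, n)`), so `psz β S ≤ 2 (tanh β)^n` and `tanh β * psz β S ≤ 1/2` for `n` large (`tanh β < 1`).  DEC, EXPO: `ML 1 β L → 0`, so no spontaneous
magnetisation (VF), so uniqueness (VH). -/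
def ZON_stmt : Prop := ∀ β : ℝ, 0 ≤ β → ∀ μ ν : Measure (ZConf 1), IsGibbs 1 β 0 μ → IsGibbs 1 β 0 ν → μ = ν

/-- the theorem CutoffOffCriticality (proved) -/
def OFF_stmt : Prop := ∀ (d : ℕ) (β h : ℝ), 1 ≤ d → 0 ≤ β → ¬ Cutoff d β h → h = 0 ∧ ∀ β₁ : ℝ, β < β₁ →
  ∃ μ ν : Measure (ZConf d), IsGibbs d β₁ 0 μ ∧ IsGibbs d β₁ 0 ν ∧ μ ≠ ν

/-- the theorem NoCutoffLowTemperature (proved) -/
def LOW_stmt : Prop := ∀ (d : ℕ) (β : ℝ), 2 ≤ d → Real.log (12 * d - 13) / 2 < β → ¬ Cutoff d β 0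

/-- the theorem NoCutoffPlanar (proved) -/
def PLA_stmt : Prop := ∀ β₁ β : ℝ, 0 ≤ β₁ → β₁ < β →
  (∃ μ ν : Measure (ZConf 2), IsGibbs 2 β₁ 0 μ ∧ IsGibbs 2 β₁ 0 ν ∧ μ ≠ ν) → ¬ Cutoff 2 β 0

/-- the Gibbs measure is unique -/
def GU (d : ℕ) (β h : ℝ) : Prop := ∃! μ : Measure (ZConf d), IsGibbs d β h μ

/-- **ZMO** (uses MSP, ZEX, `CU.VH_stmt`, `CS.GUN_stmt`).  Non-uniqueness is monotone: two Gibbs measures at `b` give `ms d b > 0` (VH, MSP), `ML d b' L ≥ ms d b' ≥ ms d b > 0` for `b' ≥ b`, so two Gibbs measures at `b'` (GUN). -/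
def ZMO_stmt : Prop := ∀ (d : ℕ) (b b' : ℝ), 0 ≤ b → b ≤ b' → GU d b' 0 → GU d b 0

/-- **ZFI** (uses RES, ZEX, ZNZ, ZON, ZMO, OFF, LOW, PLA).  Let the equivalence fail at `(β, h)`.  `GU` = at most one Gibbs measure (ZEX).  `h ≠ 0`: unique (ZNZ) and cutoff (OFF), contradiction; so `h = 0`.  `d = 1`: unique for all `β` (ZON), cutoff by OFF.
`β > log (12 d - 13)/2`: no cutoff (LOW), and no cutoff at some smaller `b'`, so two Gibbs measures at `β` (OFF): contradiction.  Case no cutoff and unique: OFF and ZMO give the first alternative.  Case cutoff and not unique: if all `0 ≤ b < β` are unique: first alternative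
(ZMO for `b > β`).  Otherwise two Gibbs measures at some `b < β`: `d = 2` contradicts PLA, `d ≥ 3` and RES give `¬ LC d β`.
Countable: the first alternative holds for at most one `β`; `{0 < β, ¬ LC}` is countable (RES); and `{0}`. -/
def ZFI_stmt : Prop := ∀ (d : ℕ), 1 ≤ d →
  (∀ β h : ℝ, 0 ≤ β → ¬ (Cutoff d β h ↔ GU d β h) → h = 0 ∧ 2 ≤ d ∧ β ≤ Real.log (12 * d - 13) / 2 ∧
    (((∀ b : ℝ, 0 ≤ b → b < β → GU d b 0) ∧ ∀ b : ℝ, β < b → ¬ GU d b 0) ∨ (3 ≤ d ∧ ¬ LC d β))) ∧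
  {β : ℝ | 0 ≤ β ∧ ¬ (Cutoff d β 0 ↔ GU d β 0)}.Countable

end CO
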